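import Mathlib

set_option autoImplicit false

/-!
# Rainbow cycles in edge-coloured complete graphs: definitions and basic tools
-/

namespace Pool.Agent.helper94.Rainbow

/-- The edge-colouring `c` of the complete graph on `V` has a rainbow `n`-cycle: there are `n`
distinct vertices `v 0, …, v (n - 1)`, indexed by the integers modulo `n`, such that the colours
of the edges `{v i, v (i + 1)}` are pairwise distinct. (Used for `n ≥ 3`.) -/
def HasRainbowCycle {V C : Type} (c : Sym2 V → C) (n : ℕ) : Prop :=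
  ∃ v : ZMod n → V, Function.Injective v ∧
    Function.Injective (fun i : ZMod n => c s(v i, v (i + 1)))

/-- `m ⇒ n`: every edge-colouring (with any colours) of every finite complete graph which has a
rainbow `m`-cycle has a rainbow `n`-cycle. -/
def Implies (m n : ℕ) : Prop :=
  ∀ (V C : Type) [Finite V] (c : Sym2 V → C), HasRainbowCycle c m → HasRainbowCycle c n

/-- a rainbow cycle as a periodic sequence -/
structure IsRC {V C : Type} (c : Sym2 V → C) (n : ℕ) (f : ℕ → V) : Prop where
  per : ∀ k, f (k + n) = f k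
  inj : ∀ i j, i < n → j < n → f i = f j → i = j
  col : ∀ i j, i < n → j < n → c s(f i, f (i + 1)) = c s(f j, f (j + 1)) → i = j

variable {V C : Type} {c : Sym2 V → C} {n : ℕ} {f : ℕ → V}

theorem IsRC.mod (h : IsRC c n f) (k : ℕ) : f (k % n) = f k := by
  conv_rhs => rw [← Nat.mod_add_div k n]
  generalize k % n = r
  generalize k / n = q
  induction q with
  | zero => simp
  | succ q ih => rw [Nat.mul_succ, ← Nat.add_assoc, h.per, ih]

theorem IsRC.mod_succ (h : IsRC c n f) (k : ℕ) : f (k % n + 1) = f (k + 1) := by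
  rw [← h.mod (k % n + 1), ← h.mod (k + 1), Nat.mod_add_mod]

theorem IsRC.eq_mod (h : IsRC c n f) (hn : 0 < n) {i j : ℕ} (hij : f i = f j) : i % n = j % n := by
  apply h.inj _ _ (Nat.mod_lt _ hn) (Nat.mod_lt _ hn)
  rw [h.mod, h.mod, hij]

theorem IsRC.col_mod (h : IsRC c n f) (hn : 0 < n) {i j : ℕ}
    (hij : c s(f i, f (i + 1)) = c s(f j, f (j + 1))) : i % n = j % n := by
  apply h.col _ _ (Nat.mod_lt _ hn) (Nat.mod_lt _ hn)
  rw [h.mod, h.mod, h.mod_succ, h.mod_succ, hij]

theorem IsRC.ne (h : IsRC c n f) {i j : ℕ} (hij : i < j) (hj : j < i + n) : f i ≠ f j := by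
  intro he
  have h2 : i ≡ j [MOD n] := h.eq_mod (by omega) he
  have h3 := (Nat.modEq_iff_dvd' hij.le).mp h2
  exact absurd (Nat.le_of_dvd (by omega) h3) (by omega)

theorem IsRC.col_ne (h : IsRC c n f) {i j : ℕ} (hij : i < j) (hj : j < i + n) :
    c s(f i, f (i + 1)) ≠ c s(f j, f (j + 1)) := by
  intro he
  have h2 : i ≡ j [MOD n] := h.col_mod (by omega) he
  have h3 := (Nat.modEq_iff_dvd' hij.le).mp h2
  exact absurd (Nat.le_of_dvd (by omega) h3) (by omega)

theorem IsRC.rotate (h : IsRC c n f) (hn : 0 < n) (a : ℕ) : IsRC c n (fun k => f (k + a)) := by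
  refine ⟨?_, ?_, ?_⟩
  · intro k
    show f (k + n + a) = f (k + a)
    rw [show k + n + a = k + a + n by ring, h.per]
  · intro i j hi hj hij
    have := h.eq_mod hn hij
    have h2 : i ≡ j [MOD n] := Nat.ModEq.add_right_cancel' a this
    rwa [Nat.ModEq, Nat.mod_eq_of_lt hi, Nat.mod_eq_of_lt hj] at h2
  · intro i j hi hj hij
    have hij' : c s(f (i + a), f (i + a + 1)) = c s(f (j + a), f (j + a + 1)) := by
      rw [show i + a + 1 = i + 1 + a by ring, show j + a + 1 = j + 1 + a by ring]
      exact hij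
    have := h.col_mod hn hij'
    have h2 : i ≡ j [MOD n] := Nat.ModEq.add_right_cancel' a this
    rwa [Nat.ModEq, Nat.mod_eq_of_lt hi, Nat.mod_eq_of_lt hj] at h2

theorem HasRainbowCycle.exists_isRC (hn : 0 < n) (h : HasRainbowCycle c n) : ∃ f, IsRC c n f := by
  obtain ⟨v, hv, hc⟩ := h
  have : NeZero n := ⟨by omega⟩
  refine ⟨fun k => v (k : ZMod n), ?_, ?_, ?_⟩
  · intro k
    simp
  · intro i j hi hj hij
    have := hv hij
    have h2 := congrArg ZMod.val this
    rwa [ZMod.val_cast_of_lt hi, ZMod.val_cast_of_lt hj] at h2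
  · intro i j hi hj hij
    have : (i : ZMod n) = (j : ZMod n) := by
      apply hc
      simpa using hij
    have h2 := congrArg ZMod.val this
    rwa [ZMod.val_cast_of_lt hi, ZMod.val_cast_of_lt hj] at h2

theorem IsRC.hasRainbowCycle (hn : 3 ≤ n) (h : IsRC c n f) : HasRainbowCycle c n := by
  have : NeZero n := ⟨by omega⟩
  have key : ∀ i : ZMod n, f (i + 1).val = f (i.val + 1) := by
    intro i
    rw [← h.mod (i.val + 1), ZMod.val_add, ZMod.val_one'' (by omega)]
  refine ⟨fun i => f i.val, ?_, ?_⟩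
  · intro i j hij
    exact ZMod.val_injective n (h.inj _ _ (ZMod.val_lt i) (ZMod.val_lt j) hij)
  · intro i j hij
    have hij' : c s(f i.val, f (i + 1).val) = c s(f j.val, f (j + 1).val) := hij
    rw [key, key] at hij'
    exact ZMod.val_injective n (h.col _ _ (ZMod.val_lt i) (ZMod.val_lt j) hij')

end Pool.Agent.helper94.Rainbow
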