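import Mathlib

set_option autoImplicit false

/-!
# List colouring of triangle-free graphs from lists of the size of the degree
-/

namespace Pool.Agent.helper94.ListCol

open Finset
open scoped Classical

variable {V C : Type*} {G : SimpleGraph V}

/-- there is a proper colouring of `W` from the lists `L` -/
def Col (G : SimpleGraph V) (L : V → Finset C) (W : Finset V) : Prop :=
  ∃ f : V → C, (∀ v ∈ W, f v ∈ L v) ∧ ∀ u ∈ W, ∀ v ∈ W, G.Adj u v → f u ≠ f v

/-- neighbours of `v` in `W` -/
noncomputable def nb (G : SimpleGraph V) (W : Finset V) (v : V) : Finset V :=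
  W.filter (fun u => G.Adj v u)

theorem mem_nb {W : Finset V} {v u : V} : u ∈ nb G W v ↔ u ∈ W ∧ G.Adj v u := by
  unfold nb; rw [mem_filter]

/-- connectivity of a finite set of vertices, by cuts -/
def Conn (G : SimpleGraph V) (W : Finset V) : Prop :=
  W.Nonempty ∧ ∀ B ⊆ W, B.Nonempty → B ≠ W → ∃ u ∈ B, ∃ v ∈ W, v ∉ B ∧ G.Adj u v

theorem greedy [Nonempty C] {L : V → Finset C} : ∀ (n : ℕ) (W : Finset V), W.card = n →
    (∀ B ⊆ W, B.Nonempty → ∃ v ∈ B, (nb G B v).card < (L v).card) → Col G L W := by
  intro n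
  induction n with
  | zero =>
    intro W hW _
    have : W = ∅ := card_eq_zero.mp hW
    subst this
    exact ⟨fun _ => Classical.arbitrary C, by simp, by simp⟩
  | succ n ih =>
    intro W hW h
    obtain ⟨v, hv, hlt⟩ := h W Subset.rfl (card_pos.mp (by omega))
    obtain ⟨f, hf1, hf2⟩ := ih (W.erase v) (by rw [card_erase_of_mem hv]; omega)
      (fun B hB hne => h B (hB.trans (erase_subset _ _)) hne)
    obtain ⟨c, hc1, hc2⟩ : ∃ c ∈ L v, c ∉ (nb G W v).image f := by
      by_contra hcon
      push Not at hcon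
      have h1 : L v ⊆ (nb G W v).image f := hcon
      have h2 := card_le_card h1
      have h3 := card_image_le (s := nb G W v) (f := f)
      omega
    refine ⟨Function.update f v c, ?_, ?_⟩
    · intro u hu
      by_cases huv : u = v
      · subst huv; rw [Function.update_self]; exact hc1
      · rw [Function.update_of_ne huv]; exact hf1 u (mem_erase.mpr ⟨huv, hu⟩)
    · intro a ha b hb hab
      by_cases h1 : a = v
      · subst h1
        have h2 : b ≠ a := hab.ne'
        rw [Function.update_self, Function.update_of_ne h2]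
        intro h3
        exact hc2 (mem_image.mpr ⟨b, mem_nb.mpr ⟨hb, hab⟩, h3.symm⟩)
      · by_cases h2 : b = v
        · subst h2
          rw [Function.update_self, Function.update_of_ne h1]
          intro h3
          exact hc2 (mem_image.mpr ⟨a, mem_nb.mpr ⟨ha, hab.symm⟩, h3⟩)
        · rw [Function.update_of_ne h1, Function.update_of_ne h2]
          exact hf2 a (mem_erase.mpr ⟨h1, ha⟩) b (mem_erase.mpr ⟨h2, hb⟩) hab

theorem nb_card_lt_of_edge {B W : Finset V} (hB : B ⊆ W) {u v : V} (hv : v ∈ W) (hvB : v ∉ B)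
    (huv : G.Adj u v) : (nb G B u).card < (nb G W u).card := by
  apply card_lt_card
  rw [ssubset_iff_of_subset]
  · exact ⟨v, mem_nb.mpr ⟨hv, huv⟩, fun h => hvB (mem_nb.mp h).1⟩
  · intro x hx
    exact mem_nb.mpr ⟨hB (mem_nb.mp hx).1, (mem_nb.mp hx).2⟩

theorem tight [Nonempty C] {L : V → Finset C} {W : Finset V} (hC : Conn G W)
    (hL : ∀ v ∈ W, (nb G W v).card ≤ (L v).card) (hbad : ¬ Col G L W) :
    ∀ v ∈ W, (L v).card = (nb G W v).card := by
  intro v hv
  by_contra hne
  apply hbad
  refine greedy W.card W rfl ?_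
  intro B hB hBne
  by_cases hBW : B = W
  · subst hBW
    exact ⟨v, hv, lt_of_le_of_ne (hL v hv) (Ne.symm hne)⟩
  · obtain ⟨u, hu, w, hw, hwB, huw⟩ := hC.2 B hB hBne hBW
    exact ⟨u, hu, lt_of_lt_of_le (nb_card_lt_of_edge hB hw hwB huw) (hL u (hB hu))⟩

/-- proper subsets of a connected set are colourable -/
theorem col_of_ssubset [Nonempty C] {L : V → Finset C} {W A : Finset V} (hC : Conn G W)
    (hL : ∀ v ∈ W, (nb G W v).card ≤ (L v).card) (hA : A ⊆ W) (hAW : A ≠ W) : Col G L A := by
  refine greedy A.card A rfl ?_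
  intro B hB hBne
  have hBW : B ≠ W := by
    intro h; subst h; exact hAW (Subset.antisymm hA hB)
  obtain ⟨u, hu, w, hw, hwB, huw⟩ := hC.2 B (hB.trans hA) hBne hBW
  exact ⟨u, hu, lt_of_lt_of_le (nb_card_lt_of_edge (hB.trans hA) hw hwB huw)
    (hL u (hA (hB hu)))⟩

/-- remove the colour `c` from the lists of the neighbours of `q` -/
noncomputable def rem (G : SimpleGraph V) (L : V → Finset C) (q : V) (c : C) : V → Finset C :=
  fun u => if G.Adj q u then (L u).erase c else L u

theorem nb_erase {W : Finset V} {q u : V} (hq : q ∈ W) (hadj : G.Adj q u) :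
    (nb G (W.erase q) u).card + 1 = (nb G W u).card := by
  have h1 : nb G (W.erase q) u = (nb G W u).erase q := by
    ext x
    simp only [mem_nb, mem_erase]
    tauto
  rw [h1, card_erase_of_mem (mem_nb.mpr ⟨hq, hadj.symm⟩)]
  have h2 : 0 < (nb G W u).card := card_pos.mpr ⟨q, mem_nb.mpr ⟨hq, hadj.symm⟩⟩
  omega

theorem nb_erase_not {W : Finset V} {q u : V} (hadj : ¬ G.Adj q u) :
    nb G (W.erase q) u = nb G W u := by
  ext x
  simp only [mem_nb, mem_erase]
  constructor
  · rintro ⟨⟨_, h1⟩, h2⟩; exact ⟨h1, h2⟩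
  · rintro ⟨h1, h2⟩
    refine ⟨⟨?_, h1⟩, h2⟩
    intro h3; subst h3; exact hadj h2.symm

theorem rem_size {L : V → Finset C} {W : Finset V} {q : V} {c : C} (hq : q ∈ W)
    (hL : ∀ v ∈ W, (nb G W v).card ≤ (L v).card) :
    ∀ v ∈ W.erase q, (nb G (W.erase q) v).card ≤ (rem G L q c v).card := by
  intro v hv
  have hvW := mem_of_mem_erase hv
  unfold rem
  split_ifs with hadj
  · have h1 := nb_erase hq hadj
    have h2 := hL v hvW
    have h3 := pred_card_le_card_erase (s := L v) (a := c)
    omega
  · rw [nb_erase_not hadj]; exact hL v hvW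

theorem rem_bad {L : V → Finset C} {W : Finset V} {q : V} {c : C} (hq : q ∈ W)
    (hc : c ∈ L q) (hbad : ¬ Col G L W) : ¬ Col G (rem G L q c) (W.erase q) := by
  rintro ⟨f, hf1, hf2⟩
  apply hbad
  have hmem : ∀ u ∈ W, u ≠ q → f u ∈ L u ∧ (G.Adj q u → f u ≠ c) := by
    intro u hu huq
    have h1 := hf1 u (mem_erase.mpr ⟨huq, hu⟩)
    unfold rem at h1
    split_ifs at h1 with hadj
    · exact ⟨mem_of_mem_erase h1, fun _ => (mem_erase.mp h1).1⟩
    · exact ⟨h1, fun h => absurd h hadj⟩
  refine ⟨Function.update f q c, ?_, ?_⟩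
  · intro u hu
    by_cases huq : u = q
    · subst huq; rw [Function.update_self]; exact hc
    · rw [Function.update_of_ne huq]; exact (hmem u hu huq).1
  · intro a ha b hb hab
    by_cases h1 : a = q
    · subst h1
      have h2 : b ≠ a := hab.ne'
      rw [Function.update_self, Function.update_of_ne h2]
      exact ((hmem b hb h2).2 hab).symm
    · by_cases h2 : b = q
      · subst h2
        rw [Function.update_self, Function.update_of_ne h1]
        exact (hmem a ha h1).2 hab.symm
      · rw [Function.update_of_ne h1, Function.update_of_ne h2]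
        exact hf2 a (mem_erase.mpr ⟨h1, ha⟩) b (mem_erase.mpr ⟨h2, hb⟩) hab

/-- lists grow along edges out of non-cut vertices -/
theorem list_mono [Nonempty C] {L : V → Finset C} {W : Finset V}
    (hL : ∀ v ∈ W, (nb G W v).card ≤ (L v).card) (hbad : ¬ Col G L W) {q u : V}
    (hq : q ∈ W) (hCq : Conn G (W.erase q)) (hu : u ∈ W) (hadj : G.Adj q u)
    (htu : (L u).card = (nb G W u).card) : L q ⊆ L u := by
  intro c hc
  by_contra hcu
  have h1 := tight hCq (rem_size (c := c) hq hL) (rem_bad hq hc hbad) u
    (mem_erase.mpr ⟨hadj.ne', hu⟩)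
  unfold rem at h1
  rw [if_pos hadj, erase_eq_of_notMem hcu] at h1
  have h2 := nb_erase hq hadj
  omega

/-- `Q` is attached to the rest of `W` only through `x` -/
def Sep (G : SimpleGraph V) (W : Finset V) (x : V) (Q : Finset V) : Prop :=
  x ∈ W ∧ Q ⊆ W ∧ Q.Nonempty ∧ x ∉ Q ∧ ∀ q ∈ Q, ∀ u ∈ W, G.Adj q u → u ∈ Q ∨ u = x

theorem exists_sep {W : Finset V} (hC : Conn G W) (h2 : 2 ≤ W.card) :
    ∃ x Q, Sep G W x Q ∧ Conn G Q ∧ ∀ q ∈ Q, Conn G (W.erase q) := by
  have hex : ∃ n, ∃ x Q, Sep G W x Q ∧ Q.card = n := by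
    obtain ⟨x, hx⟩ := hC.1
    refine ⟨_, x, W.erase x, ⟨hx, erase_subset _ _, ?_, notMem_erase _ _, ?_⟩, rfl⟩
    · apply card_pos.mp; rw [card_erase_of_mem hx]; omega
    · intro q _ u hu _
      by_cases h : u = x
      · right; exact h
      · left; exact mem_erase.mpr ⟨h, hu⟩
  obtain ⟨x, Q, hS, hcard⟩ := Nat.find_spec hex
  have hmin : ∀ y R, Sep G W y R → Q.card ≤ R.card := by
    intro y R hR
    rw [hcard]
    exact Nat.find_min' hex ⟨y, R, hR, rfl⟩
  obtain ⟨hxW, hQW, hQne, hxQ, hadj⟩ := hS
  refine ⟨x, Q, ⟨hxW, hQW, hQne, hxQ, hadj⟩, ⟨hQne, ?_⟩, ?_⟩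
  · intro B hB hBne hBQ
    by_contra hcon
    push Not at hcon
    have h1 : Sep G W x B := by
      refine ⟨hxW, hB.trans hQW, hBne, fun h => hxQ (hB h), ?_⟩
      intro q hq u hu hqu
      rcases hadj q (hB hq) u hu hqu with h | h
      · left
        by_contra hn
        exact hcon q hq u h hn hqu
      · right; exact h
    have h2 := hmin x B h1
    exact hBQ (eq_of_subset_of_card_le hB h2)
  · intro q hq
    have hqW := hQW hq
    have hqx : x ≠ q := by rintro rfl; exact hxQ hq
    refine ⟨⟨x, mem_erase.mpr ⟨hqx, hxW⟩⟩, ?_⟩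
    -- a side without x leads to a contradiction
    have key : ∀ B1 B2 : Finset V, B1 ∪ B2 = W.erase q → Disjoint B1 B2 → B2.Nonempty → x ∉ B2 →
        (∀ a ∈ B2, ∀ b ∈ B1, ¬ G.Adj a b) → False := by
      intro B1 B2 hun hdis hB2 hxB2 hno
      have hB2W : B2 ⊆ W := by
        intro a ha
        have : a ∈ W.erase q := by rw [← hun]; exact mem_union_right _ ha
        exact mem_of_mem_erase this
      have hqB2 : q ∉ B2 := by
        intro h
        have : q ∈ W.erase q := by rw [← hun]; exact mem_union_right _ h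
        exact notMem_erase _ _ this
      have hcase : ∀ a ∈ B2, ∀ u ∈ W, G.Adj a u → u = q ∨ u ∈ B2 := by
        intro a ha u hu hau
        by_cases huq : u = q
        · left; exact huq
        · right
          have : u ∈ B1 ∪ B2 := by rw [hun]; exact mem_erase.mpr ⟨huq, hu⟩
          rcases mem_union.mp this with h | h
          · exact absurd hau (hno a ha u h)
          · exact h
      rcases (B2 ∩ Q).eq_empty_or_nonempty with hemp | hne
      · have hB2ne : B2 ≠ W := by rintro rfl; exact hxB2 hxW
        obtain ⟨p, hp, u, hu, huB, hpu⟩ := hC.2 B2 hB2W hB2 hB2ne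
        rcases hcase p hp u hu hpu with h | h
        · subst h
          rcases hadj u hq p (hB2W hp) hpu.symm with h3 | h3
          · have : p ∈ B2 ∩ Q := mem_inter.mpr ⟨hp, h3⟩
            rw [hemp] at this
            exact absurd this (notMem_empty _)
          · subst h3; exact hxB2 hp
        · exact huB h
      · have h1 : Sep G W q (B2 ∩ Q) := by
          refine ⟨hqW, inter_subset_left.trans hB2W, hne, fun h => hqB2 (mem_inter.mp h).1, ?_⟩
          intro p hp u hu hpu
          obtain ⟨hp1, hp2⟩ := mem_inter.mp hp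
          rcases hcase p hp1 u hu hpu with h | h
          · right; exact h
          · left
            rcases hadj p hp2 u hu hpu with h3 | h3
            · exact mem_inter.mpr ⟨h, h3⟩
            · subst h3; exact absurd h hxB2
        have h2 := hmin q _ h1
        have h3 : (B2 ∩ Q).card < Q.card := by
          apply card_lt_card
          rw [ssubset_iff_of_subset inter_subset_right]
          exact ⟨q, hq, fun h => hqB2 (mem_inter.mp h).1⟩
        omega
    intro B hB hBne hBW
    by_contra hcon
    push Not at hcon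
    have hun : B ∪ (W.erase q \ B) = W.erase q := union_sdiff_of_subset hB
    have hne2 : (W.erase q \ B).Nonempty := by
      rw [sdiff_nonempty]
      intro h
      exact hBW (Subset.antisymm hB h)
    by_cases hxB : x ∈ B
    · apply key B (W.erase q \ B) hun disjoint_sdiff hne2
        (fun h => (mem_sdiff.mp h).2 hxB)
      intro a ha b hb hab
      exact hcon b hb a (mem_sdiff.mp ha).1 (mem_sdiff.mp ha).2 hab.symm
    · apply key (W.erase q \ B) B (by rw [union_comm]; exact hun) (sdiff_disjoint) hBne hxB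
      intro a ha b hb hab
      exact hcon a ha b (mem_sdiff.mp hb).1 (mem_sdiff.mp hb).2 hab

theorem Conn.insert {W : Finset V} (hC : Conn G W) {v u : V} (hu : u ∈ W) (hvu : G.Adj v u) :
    Conn G (insert v W) := by
  refine ⟨insert_nonempty _ _, ?_⟩
  intro B hB hBne hBW
  by_cases hvB : v ∈ B
  · by_cases hsub : W ⊆ B
    · exact absurd (Subset.antisymm hB (insert_subset hvB hsub)) hBW
    · by_cases hemp : (B ∩ W).Nonempty
      · obtain ⟨a, ha, b, hb, hbB, hab⟩ := hC.2 (B ∩ W) inter_subset_right hemp (by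
          intro h; exact hsub (by rw [← h]; exact inter_subset_left))
        obtain ⟨ha1, _⟩ := mem_inter.mp ha
        exact ⟨a, ha1, b, mem_insert_of_mem hb, fun h => hbB (mem_inter.mpr ⟨h, hb⟩), hab⟩
      · refine ⟨v, hvB, u, mem_insert_of_mem hu, ?_, hvu⟩
        intro h
        exact hemp ⟨u, mem_inter.mpr ⟨h, hu⟩⟩
  · have hBW' : B ⊆ W := by
      intro a ha
      rcases mem_insert.mp (hB ha) with h | h
      · subst h; exact absurd ha hvB
      · exact h
    by_cases hEq : B = W
    · subst hEq
      exact ⟨u, hu, v, mem_insert_self _ _, hvB, hvu.symm⟩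
    · obtain ⟨a, ha, b, hb, hbB, hab⟩ := hC.2 B hBW' hBne hEq
      exact ⟨a, ha, b, mem_insert_of_mem hb, hbB, hab⟩

/-- Structure lemma: a connected vertex set of a triangle-free graph which is not colourable from
lists of the size of the degree has a part, attached through one vertex, consisting of non-cut
vertices of degree at most two. -/
theorem structure_lemma [Nonempty C] (htf : ∀ a b c : V, G.Adj a b → G.Adj b c → ¬ G.Adj a c) :
    ∀ (n : ℕ) (W : Finset V) (L : V → Finset C), W.card = n → Conn G W → 2 ≤ W.card →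
      (∀ v ∈ W, (nb G W v).card ≤ (L v).card) → ¬ Col G L W →
      ∃ x Q, Sep G W x Q ∧ Conn G Q ∧ ∀ q ∈ Q, Conn G (W.erase q) ∧ (nb G W q).card ≤ 2 := by
  intro n
  induction n using Nat.strong_induction_on with
  | _ n ih =>
    intro W L hn hC h2 hL hbad
    have ht := tight hC hL hbad
    by_cases hcase : ∃ q ∈ W, Conn G (W.erase q) ∧ 3 ≤ (nb G W q).card
    · obtain ⟨q₀, hq₀, hCq₀, h3⟩ := hcase
      have hcardL : 3 ≤ (L q₀).card := by rw [ht q₀ hq₀]; exact h3
      obtain ⟨c₀, hc₀⟩ : (L q₀).Nonempty := card_pos.mp (by omega)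
      have hWc : (W.erase q₀).card + 1 = W.card := by
        rw [card_erase_of_mem hq₀]; omega
      have h4 : 3 ≤ (W.erase q₀).card := by
        have h5 : nb G W q₀ ⊆ W.erase q₀ := by
          intro u hu
          obtain ⟨h6, h7⟩ := mem_nb.mp hu
          exact mem_erase.mpr ⟨h7.ne', h6⟩
        exact h3.trans (card_le_card h5)
      obtain ⟨x, Q, hS, hCQ, hQ⟩ := ih (W.erase q₀).card (by omega) (W.erase q₀)
        (rem G L q₀ c₀) rfl hCq₀ (by omega) (rem_size hq₀ hL) (rem_bad hq₀ hc₀ hbad)
      obtain ⟨hxW, hQW, hQne, hxQ, hadj⟩ := hS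
      have hno : ∀ q ∈ Q, ¬ G.Adj q₀ q := by
        intro q hq hqq
        have hqW' := hQW hq
        have hqW := mem_of_mem_erase hqW'
        have hsub : L q₀ ⊆ L q := list_mono hL hbad hq₀ hCq₀ hqW hqq (ht q hqW)
        have h5 : 3 ≤ (nb G W q).card := by
          rw [← ht q hqW]; exact hcardL.trans (card_le_card hsub)
        have h6 := nb_erase hq₀ hqq
        have h7 : 2 ≤ (nb G (W.erase q₀) q).card := by omega
        -- a neighbour of q inside Q
        obtain ⟨q', hq', hne'⟩ : ∃ q' ∈ nb G (W.erase q₀) q, q' ≠ x := by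
          by_contra hcon
          push Not at hcon
          have h8 : nb G (W.erase q₀) q ⊆ {x} := by
            intro a ha; rw [mem_singleton]; exact hcon a ha
          have := card_le_card h8
          rw [card_singleton] at this
          omega
        obtain ⟨hq'W', hqq'⟩ := mem_nb.mp hq'
        have hq'Q : q' ∈ Q := by
          rcases hadj q hq q' hq'W' hqq' with h | h
          · exact h
          · exact absurd h hne'
        have hnadj : ¬ G.Adj q₀ q' := htf q₀ q q' hqq hqq'
        have heq : ∀ c ∈ L q₀, (L q).erase c = L q' := by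
          intro c hc
          have hL' := rem_size (c := c) hq₀ hL
          have hbad' := rem_bad hq₀ hc hbad
          have ht' := tight hCq₀ hL' hbad'
          have h9 := list_mono hL' hbad' hqW' (hQ q hq).1 hq'W' hqq' (ht' q' hq'W')
          have h10 := list_mono hL' hbad' hq'W' (hQ q' hq'Q).1 hqW' hqq'.symm (ht' q hqW')
          have h11 := Subset.antisymm h9 h10
          unfold rem at h11
          rw [if_pos hqq, if_neg hnadj] at h11
          exact h11
        obtain ⟨c1, hc1, c2, hc2, hc12⟩ := one_lt_card.mp (show 1 < (L q₀).card by omega)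
        have h12 : c1 ∈ (L q).erase c2 := mem_erase.mpr ⟨hc12, hsub hc1⟩
        rw [heq c2 hc2, ← heq c1 hc1] at h12
        exact notMem_erase _ _ h12
      refine ⟨x, Q, ⟨mem_of_mem_erase hxW, hQW.trans (erase_subset _ _), hQne, hxQ, ?_⟩, hCQ, ?_⟩
      · intro q hq u hu hqu
        have huq : u ≠ q₀ := by
          rintro rfl; exact hno q hq hqu.symm
        exact hadj q hq u (mem_erase.mpr ⟨huq, hu⟩) hqu
      · intro q hq
        have hqn := hno q hq
        obtain ⟨h5, h6⟩ := hQ q hq
        constructor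
        · obtain ⟨u, hu⟩ : (nb G W q₀).Nonempty := card_pos.mp (by omega)
          obtain ⟨huW, huadj⟩ := mem_nb.mp hu
          have huq : u ≠ q := by rintro rfl; exact hqn huadj
          have h7 := h5.insert (u := u) (v := q₀)
            (mem_erase.mpr ⟨huq, mem_erase.mpr ⟨huadj.ne', huW⟩⟩) huadj
          have h8 : insert q₀ ((W.erase q₀).erase q) = W.erase q := by
            ext a
            simp only [mem_insert, mem_erase]
            constructor
            · rintro (rfl | ⟨h, _, h'⟩)
              · refine ⟨?_, hq₀⟩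
                rintro rfl
                exact notMem_erase _ _ (hQW hq)
              · exact ⟨h, h'⟩
            · rintro ⟨h, h'⟩
              by_cases ha : a = q₀
              · left; exact ha
              · right; exact ⟨h, ha, h'⟩
          rw [h8] at h7
          exact h7
        · rw [nb_erase_not hqn] at h6; exact h6
    · push Not at hcase
      obtain ⟨x, Q, hS, hCQ, hQ⟩ := exists_sep hC h2
      refine ⟨x, Q, hS, hCQ, fun q hq => ⟨hQ q hq, ?_⟩⟩
      have := hcase q (hS.2.1 hq) (hQ q hq)
      omega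

end Pool.Agent.helper94.ListCol
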