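import Mathlib
import Pool.Agent.helper94.ListCol

set_option autoImplicit false

/-!
# Triangle-free graphs without an induced r-sunshade
-/

namespace Pool.Agent.helper94.Sunshade

open Finset ListCol
open scoped Classical

variable {V : Type*} [Fintype V] {G : SimpleGraph V}

/-- the neighbourhood -/
noncomputable def N (G : SimpleGraph V) (v : V) : Finset V := univ.filter (fun u => G.Adj v u)

theorem mem_N {v u : V} : u ∈ N G v ↔ G.Adj v u := by
  unfold N; simp

/-- independent sets all of whose neighbours have at least `t` neighbours inside -/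
def Good (G : SimpleGraph V) (t : ℕ) (I : Finset V) : Prop :=
  (∀ a ∈ I, ∀ b ∈ I, ¬ G.Adj a b) ∧ ∀ y, (∃ v ∈ I, G.Adj y v) → t ≤ (N G y ∩ I).card

theorem exists_min_bad {C : Type*} [Nonempty C] {L : V → Finset C} {Y : Finset V}
    (hbad : ¬ Col G L Y) : ∃ W ⊆ Y, ¬ Col G L W ∧ Conn G W := by
  have hex : ∃ n, ∃ W ⊆ Y, ¬ Col G L W ∧ W.card = n := ⟨_, Y, Subset.rfl, hbad, rfl⟩
  obtain ⟨W, hWY, hW, hcard⟩ := Nat.find_spec hex
  have hmin : ∀ B ⊆ Y, ¬ Col G L B → W.card ≤ B.card := by
    intro B hB hB'
    rw [hcard]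
    exact Nat.find_min' hex ⟨B, hB, hB', rfl⟩
  refine ⟨W, hWY, hW, ?_, ?_⟩
  · rw [nonempty_iff_ne_empty]
    rintro rfl
    exact hW ⟨fun _ => Classical.arbitrary C, by simp, by simp⟩
  · intro B hB hBne hBW
    by_contra hcon
    push Not at hcon
    have h1 : Col G L B := by
      by_contra h
      have := hmin B (hB.trans hWY) h
      exact hBW (eq_of_subset_of_card_le hB this)
    have h2 : Col G L (W \ B) := by
      by_contra h
      have h3 := hmin (W \ B) (sdiff_subset.trans hWY) h
      have h4 := eq_of_subset_of_card_le sdiff_subset h3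
      obtain ⟨b, hb⟩ := hBne
      have h5 : b ∈ W \ B := by rw [h4]; exact hB hb
      exact (mem_sdiff.mp h5).2 hb
    obtain ⟨f, hf1, hf2⟩ := h1
    obtain ⟨g, hg1, hg2⟩ := h2
    apply hW
    refine ⟨fun v => if v ∈ B then f v else g v, ?_, ?_⟩
    · intro v hv
      by_cases h : v ∈ B
      · simp only [h, if_true]; exact hf1 v h
      · simp only [h, if_false]; exact hg1 v (mem_sdiff.mpr ⟨hv, h⟩)
    · intro a ha b hb hab
      by_cases h1 : a ∈ B <;> by_cases h2 : b ∈ B
      · simp only [h1, h2, if_true]; exact hf2 a h1 b h2 hab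
      · exact absurd hab (hcon a h1 b hb h2)
      · exact absurd hab.symm (hcon b h2 a ha h1)
      · simp only [h1, h2, if_false]
        exact hg2 a (mem_sdiff.mpr ⟨ha, h1⟩) b (mem_sdiff.mpr ⟨hb, h2⟩) hab

theorem main_color (htf : ∀ a b c : V, G.Adj a b → G.Adj b c → ¬ G.Adj a c)
    (hconn : ∀ P : V → Prop, (∃ a, P a) → (∀ a b, P a → G.Adj a b → P b) → ∀ a, P a)
    {r D : ℕ} (hr : 3 ≤ r) (hrD : r ≤ D) (hdeg : ∀ v, (N G v).card ≤ D)
    (hs : ∃ s, (N G s).card = D)
    (H2 : ∀ y s v, G.Adj y v → G.Adj v s → (N G y \ N G s).card ≤ r - 2) :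
    ∃ f : V → Fin (r - 1), ∀ u v, G.Adj u v → f u ≠ f v := by
  obtain ⟨t, ht⟩ : ∃ t, t + (r - 2) = D := ⟨D - (r - 2), by omega⟩
  have ht2 : 2 ≤ t := by omega
  -- vertices of maximum degree
  have Mt : ∀ s y v, (N G s).card = D → G.Adj s v → G.Adj v y → t ≤ (N G s ∩ N G y).card := by
    intro s y v h1 h2 h3
    have h4 := H2 s y v h2 h3
    have h5 := card_sdiff_add_card_inter (N G s) (N G y)
    omega
  -- a largest good independent set
  obtain ⟨s, hsD⟩ := hs
  have hgood : Good G t (N G s) := by
    refine ⟨?_, ?_⟩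
    · intro a ha b hb hab
      exact htf s a b (mem_N.mp ha) hab (mem_N.mp hb)
    · rintro y ⟨v, hv, hyv⟩
      have := Mt s y v hsD (mem_N.mp hv) hyv.symm
      rwa [inter_comm] at this
  obtain ⟨I, hImem, hImax⟩ := Finset.exists_max_image (univ.filter (fun J : Finset V => Good G t J))
    Finset.card ⟨N G s, by simp [hgood]⟩
  have hI : Good G t I := by simpa using hImem
  have hmax : ∀ J, Good G t J → J.card ≤ I.card := fun J hJ => hImax J (by simp [hJ])
  obtain ⟨hind, hQ⟩ := hI
  have hIne : I.Nonempty := by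
    apply card_pos.mp
    have := hmax _ hgood
    omega
  obtain ⟨Y, hY⟩ : ∃ Y : Finset V, ∀ y, y ∈ Y ↔ ∃ v ∈ I, G.Adj y v :=
    ⟨univ.filter (fun y => ∃ v ∈ I, G.Adj y v), by simp⟩
  obtain ⟨Z, hZ⟩ : ∃ Z : Finset V, ∀ z, z ∈ Z ↔ z ∉ I ∧ z ∉ Y :=
    ⟨univ.filter (fun z => z ∉ I ∧ z ∉ Y), by simp⟩
  have hYI : ∀ y ∈ Y, y ∉ I := by
    intro y hy hyI
    obtain ⟨v, hv, hyv⟩ := (hY y).mp hy
    exact hind y hyI v hv hyv
  have hYdeg : ∀ y ∈ Y, (N G y \ I).card ≤ r - 2 := by
    intro y hy
    have h1 := hQ y ((hY y).mp hy)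
    have h2 := card_sdiff_add_card_inter (N G y) I
    have h3 := hdeg y
    omega
  haveI : Nonempty (Fin (r - 1)) := ⟨⟨0, by omega⟩⟩
  -- colour Z
  obtain ⟨φ, -, hφ⟩ : Col G (fun _ => (univ : Finset (Fin (r - 1)))) Z := by
    refine greedy Z.card Z rfl ?_
    intro B hB hBne
    by_contra hcon
    push Not at hcon
    simp only [card_univ, Fintype.card_fin] at hcon
    have hE : ∀ a, ∀ u ∈ B, ¬ G.Adj a u := by
      apply hconn (fun a => ∀ u ∈ B, ¬ G.Adj a u)
      · obtain ⟨i, hi⟩ := hIne
        refine ⟨i, fun u hu hiu => ?_⟩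
        have h1 := (hZ u).mp (hB hu)
        exact h1.2 ((hY u).mpr ⟨i, hi, hiu.symm⟩)
      · intro a b ha hab v hv hbv
        have h1 := hcon v hv
        have h2 : nb G B v ⊆ N G v \ N G a := by
          intro w hw
          obtain ⟨hw1, hw2⟩ := mem_nb.mp hw
          exact mem_sdiff.mpr ⟨mem_N.mpr hw2, fun h => ha w hw1 (mem_N.mp h)⟩
        have h3 := card_le_card h2
        have h4 := H2 v a b hbv.symm hab.symm
        omega
    obtain ⟨v, hv⟩ := hBne
    have h1 : ∀ a, a ≠ v := by
      apply hconn (fun a => a ≠ v)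
      · obtain ⟨i, hi⟩ := hIne
        refine ⟨i, ?_⟩
        rintro rfl
        exact ((hZ i).mp (hB hv)).1 hi
      · intro a b _ hab hbv
        subst hbv
        exact hE a b hv hab
    exact h1 v rfl
  -- colour Y
  obtain ⟨c0, hc0⟩ : ∃ c0 : Fin (r - 1), c0 = ⟨0, by omega⟩ := ⟨_, rfl⟩
  obtain ⟨L, hLdef⟩ : ∃ L : V → Finset (Fin (r - 1)),
      ∀ v, L v = univ \ (insert c0 ((nb G Z v).image φ)) := ⟨_, fun _ => rfl⟩
  have hLcard : ∀ v, r - 2 ≤ (L v).card + (nb G Z v).card := by
    intro v
    rw [hLdef]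
    have h1 := card_sdiff_add_card_inter (univ : Finset (Fin (r - 1)))
      (insert c0 ((nb G Z v).image φ))
    rw [univ_inter, card_univ, Fintype.card_fin] at h1
    have h2 := card_insert_le c0 ((nb G Z v).image φ)
    have h3 := card_image_le (s := nb G Z v) (f := φ)
    omega
  have hsplit : ∀ v, (nb G Y v).card + (nb G Z v).card = (N G v \ I).card := by
    intro v
    rw [← card_union_of_disjoint]
    · congr 1
      ext u
      simp only [mem_union, mem_nb, mem_sdiff, mem_N]
      constructor
      · rintro (⟨h1, h2⟩ | ⟨h1, h2⟩)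
        · exact ⟨h2, hYI u h1⟩
        · exact ⟨h2, ((hZ u).mp h1).1⟩
      · rintro ⟨h1, h2⟩
        by_cases h3 : u ∈ Y
        · left; exact ⟨h3, h1⟩
        · right; exact ⟨(hZ u).mpr ⟨h2, h3⟩, h1⟩
    · rw [disjoint_left]
      intro u hu1 hu2
      exact ((hZ u).mp (mem_nb.mp hu2).1).2 (mem_nb.mp hu1).1
  have hLY : ∀ v ∈ Y, (nb G Y v).card ≤ (L v).card := by
    intro v hv
    have h1 := hLcard v
    have h2 := hsplit v
    have h3 := hYdeg v hv
    omega
  have hcolY : Col G L Y := by
    by_contra hbadY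
    obtain ⟨W, hWY, hbad, hC⟩ := exists_min_bad hbadY
    have hnbWY : ∀ v, nb G W v ⊆ nb G Y v := by
      intro v u hu
      exact mem_nb.mpr ⟨hWY (mem_nb.mp hu).1, (mem_nb.mp hu).2⟩
    have hLW : ∀ v ∈ W, (nb G W v).card ≤ (L v).card := by
      intro v hv
      exact (card_le_card (hnbWY v)).trans (hLY v (hWY hv))
    have htight := tight hC hLW hbad
    -- consequences of tightness
    have hclosed : ∀ v ∈ W, ∀ u ∈ Y, G.Adj v u → u ∈ W := by
      intro v hv u hu hvu
      have h1 := htight v hv
      have h2 := hLY v (hWY hv)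
      have h3 := eq_of_subset_of_card_le (hnbWY v) (by omega)
      have h4 : u ∈ nb G Y v := mem_nb.mpr ⟨hu, hvu⟩
      rw [← h3] at h4
      exact (mem_nb.mp h4).1
    have hsd : ∀ v ∈ W, (N G v \ I).card = r - 2 := by
      intro v hv
      have h1 := htight v hv
      have h2 := card_le_card (hnbWY v)
      have h3 := hsplit v
      have h4 := hYdeg v (hWY hv)
      have h5 := hLcard v
      omega
    have hWD : ∀ v ∈ W, (N G v).card = D := by
      intro v hv
      have h1 := hsd v hv
      have h2 := hQ v ((hY v).mp (hWY hv))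
      have h3 := card_sdiff_add_card_inter (N G v) I
      have h4 := hdeg v
      omega
    rcases Nat.lt_or_ge W.card 2 with hW1 | hW2
    · -- a single vertex
      have hW1' : W.card = 1 := by
        have := card_pos.mpr hC.1
        omega
      obtain ⟨w, hw⟩ := card_eq_one.mp hW1'
      have hwW : w ∈ W := by rw [hw]; exact mem_singleton_self w
      have hnoY : ∀ u ∈ Y, ¬ G.Adj w u := by
        intro u hu hwu
        have h1 := hclosed w hwW u hu hwu
        rw [hw, mem_singleton] at h1
        subst h1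
        exact G.loopless.irrefl _ hwu
      have hG' : Good G t (I ∪ N G w) := by
        refine ⟨?_, ?_⟩
        · intro a ha b hb hab
          rcases mem_union.mp ha with ha | ha <;> rcases mem_union.mp hb with hb | hb
          · exact hind a ha b hb hab
          · exact hnoY b ((hY b).mpr ⟨a, ha, hab.symm⟩) (mem_N.mp hb)
          · exact hnoY a ((hY a).mpr ⟨b, hb, hab⟩) (mem_N.mp ha)
          · exact htf w a b (mem_N.mp ha) hab (mem_N.mp hb)
        · rintro y ⟨v, hv, hyv⟩
          rcases mem_union.mp hv with hv | hv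
          · refine (hQ y ⟨v, hv, hyv⟩).trans (card_le_card ?_)
            exact inter_subset_inter_left subset_union_left
          · have h1 := Mt w y v (hWD w hwW) (mem_N.mp hv) hyv.symm
            refine h1.trans (card_le_card ?_)
            rw [inter_comm]
            exact inter_subset_inter_left subset_union_right
      have h1 := hmax _ hG'
      have h2 := eq_of_subset_of_card_le (subset_union_left (s₁ := I) (s₂ := N G w)) h1
      have h3 : N G w \ I = ∅ := by
        rw [sdiff_eq_empty_iff_subset, h2]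
        exact subset_union_right
      have h4 := hsd w hwW
      rw [h3, card_empty] at h4
      omega
    · obtain ⟨x, Q, ⟨hxW, hQW, hQne, hxQ, hadj⟩, hCQ, hQp⟩ :=
        structure_lemma htf W.card W L rfl hC hW2 hLW hbad
      -- the sets A
      obtain ⟨A, hA⟩ : ∃ A : V → Finset V, ∀ u, A u = N G u ∩ I := ⟨_, fun _ => rfl⟩
      have hAne : ∀ u ∈ W, ∀ v ∈ W, G.Adj u v → A u ≠ A v := by
        intro u hu v _ huv heq
        have h1 := hQ u ((hY u).mp (hWY hu))
        rw [← hA u] at h1
        obtain ⟨a, ha⟩ : (A u).Nonempty := card_pos.mp (by omega)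
        have h2 : a ∈ A v := by rw [← heq]; exact ha
        rw [hA] at ha h2
        exact htf a u v (mem_N.mp (mem_inter.mp ha).1).symm huv
          (mem_N.mp (mem_inter.mp h2).1).symm
      have hqdeg : ∀ q ∈ Q, (nb G W q).card ≤ 2 := fun q hq => (hQp q hq).2
      have hstar' : ∀ q ∈ Q, ∀ a ∈ W, ∀ b ∈ W, G.Adj q a → G.Adj q b →
          A a ⊆ A b ∧ (nb G W q).card = 2 := by
        intro q hq a ha b hb hqa hqb
        have key : ∀ v ∈ A a, v ∈ A b ∧ (nb G W q).card = 2 := by
          intro v hv
          rw [hA] at hv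
          obtain ⟨hv1, hvI⟩ := mem_inter.mp hv
          have hav := mem_N.mp hv1
          have h1 := Mt q v a (hWD q (hQW hq)) hqa hav
          have h2 : N G q ∩ N G v ⊆ nb G W q := by
            intro u hu
            obtain ⟨hu1, hu2⟩ := mem_inter.mp hu
            have hqu := mem_N.mp hu1
            have hvu := mem_N.mp hu2
            exact mem_nb.mpr ⟨hclosed q (hQW hq) u ((hY u).mpr ⟨v, hvI, hvu.symm⟩) hqu, hqu⟩
          have h3 := hqdeg q hq
          have h4 := card_le_card h2
          have h5 := eq_of_subset_of_card_le h2 (by omega)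
          have h6 : b ∈ N G q ∩ N G v := by rw [h5]; exact mem_nb.mpr ⟨hb, hqb⟩
          refine ⟨?_, by omega⟩
          rw [hA]
          exact mem_inter.mpr ⟨mem_N.mpr (mem_N.mp (mem_inter.mp h6).2).symm, hvI⟩
        refine ⟨fun v hv => (key v hv).1, ?_⟩
        have h1 := hQ a ((hY a).mp (hWY ha))
        rw [← hA a] at h1
        obtain ⟨v, hv⟩ : (A a).Nonempty := card_pos.mp (by omega)
        exact (key v hv).2
      have hstar : ∀ q ∈ Q, ∀ a ∈ W, ∀ b ∈ W, G.Adj q a → G.Adj q b → A a = A b :=
        fun q hq a ha b hb hqa hqb => Subset.antisymm (hstar' q hq a ha b hb hqa hqb).1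
          (hstar' q hq b hb a ha hqb hqa).1
      -- Claim 1
      have hclaim1 : ∀ q ∈ Q, ∀ u ∈ W, G.Adj q u → (A q = A x ↔ A u ≠ A x) := by
        by_contra hcon
        push Not at hcon
        obtain ⟨T, hT⟩ : ∃ T : Finset V, ∀ q, q ∈ T ↔
            q ∈ Q ∧ ¬ ∀ u ∈ W, G.Adj q u → (A q = A x ↔ A u ≠ A x) :=
          ⟨Q.filter (fun q => ¬ ∀ u ∈ W, G.Adj q u → (A q = A x ↔ A u ≠ A x)), by
            intro q; rw [mem_filter]⟩
        have hTne : T.Nonempty := by
          obtain ⟨q, hq, u, hu, hqu, h⟩ := hcon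
          refine ⟨q, (hT q).mpr ⟨hq, fun hall => ?_⟩⟩
          have := hall u hu hqu
          tauto
        have hTW : T ⊆ W := fun q hq => hQW ((hT q).mp hq).1
        have hTneW : T ≠ W := by
          intro h
          have : x ∈ T := by rw [h]; exact hxW
          exact hxQ ((hT x).mp this).1
        obtain ⟨u, huT, v, hvW, hvT, huv⟩ := hC.2 T hTW hTne hTneW
        obtain ⟨huQ, hunot⟩ := (hT u).mp huT
        apply hunot
        intro u' hu' huu'
        have h1 : A u' = A v := hstar u huQ u' hu' v hvW huu' huv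
        rcases hadj u huQ v hvW huv with hvQ | hvx
        · have h2 : ∀ w ∈ W, G.Adj v w → (A v = A x ↔ A w ≠ A x) := by
            by_contra h
            exact hvT ((hT v).mpr ⟨hvQ, h⟩)
          have h3 := h2 u (hQW huQ) huv.symm
          rw [h1]
          tauto
        · subst hvx
          have h2 := hAne u (hQW huQ) v hvW huv
          rw [h1]
          tauto
      -- Claim 2: all lists on Q agree
      obtain ⟨q₀, hq₀⟩ := hQne
      have hclaim2 : ∀ q ∈ Q, L q = L q₀ := by
        by_contra hcon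
        push Not at hcon
        obtain ⟨q₁, hq₁, hne⟩ := hcon
        obtain ⟨u, hu, v, hv, hvB, huv⟩ := hCQ.2 (Q.filter (fun q => L q = L q₀))
          (filter_subset _ _) ⟨q₀, mem_filter.mpr ⟨hq₀, rfl⟩⟩ (by
            intro h
            have : q₁ ∈ Q.filter (fun q => L q = L q₀) := by rw [h]; exact hq₁
            exact hne (mem_filter.mp this).2)
        obtain ⟨huQ, huL⟩ := mem_filter.mp hu
        have h1 := list_mono hLW hbad (hQW huQ) (hQp u huQ).1 (hQW hv) huv (htight v (hQW hv))
        have h2 := list_mono hLW hbad (hQW hv) (hQp v hv).1 (hQW huQ) huv.symm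
          (htight u (hQW huQ))
        apply hvB
        rw [mem_filter]
        exact ⟨hv, by rw [← huL]; exact Subset.antisymm h2 h1⟩
      -- the list on Q has two elements
      have hL2 : 2 ≤ (L q₀).card := by
        -- q₀ has a neighbour in W
        obtain ⟨u, hu, v, hv, hvB, huv⟩ := hC.2 {q₀} (singleton_subset_iff.mpr (hQW hq₀))
          (singleton_nonempty _) (by
            intro h
            rw [← h, card_singleton] at hW2
            omega)
        rw [mem_singleton] at hu
        subst hu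
        have h1 := (hstar' u hq₀ v hv v hv huv huv).2
        rw [htight u (hQW hq₀), h1]
      obtain ⟨ψ, hψ1, hψ2⟩ := col_of_ssubset hC hLW (erase_subset q₀ W) (by
        intro h
        have : q₀ ∈ W.erase q₀ := by rw [h]; exact hQW hq₀
        exact notMem_erase _ _ this)
      obtain ⟨β, hβL, hβ⟩ : ∃ β ∈ L q₀, β ≠ ψ x := by
        by_contra h
        push Not at h
        have h1 : L q₀ ⊆ {ψ x} := fun b hb => mem_singleton.mpr (h b hb)
        have := card_le_card h1
        rw [card_singleton] at this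
        omega
      obtain ⟨α, hαL, hαβ⟩ : ∃ α ∈ L q₀, α ≠ β := by
        by_contra h
        push Not at h
        have h1 : L q₀ ⊆ {β} := fun b hb => mem_singleton.mpr (h b hb)
        have := card_le_card h1
        rw [card_singleton] at this
        omega
      apply hbad
      have hWQ : ∀ v ∈ W, v ∉ Q → v ∈ W.erase q₀ := by
        intro v hv hvQ
        refine mem_erase.mpr ⟨?_, hv⟩
        rintro rfl; exact hvQ hq₀
      refine ⟨fun v => if v ∈ Q then (if A v = A x then α else β) else ψ v, ?_, ?_⟩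
      · intro v hv
        by_cases hvQ : v ∈ Q
        · simp only [hvQ, if_true]
          rw [hclaim2 v hvQ]
          split_ifs
          · exact hαL
          · exact hβL
        · simp only [hvQ, if_false]
          exact hψ1 v (hWQ v hv hvQ)
      · have hmix : ∀ a ∈ Q, ∀ b ∈ W, b ∉ Q → G.Adj a b →
            (if A a = A x then α else β) ≠ ψ b := by
          intro a ha b hb hbQ hab
          rcases hadj a ha b hb hab with h | h
          · exact absurd h hbQ
          · subst h
            rw [if_neg (hAne a (hQW ha) b hb hab)]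
            exact hβ
        intro a ha b hb hab
        by_cases h1 : a ∈ Q <;> by_cases h2 : b ∈ Q
        · simp only [h1, h2, if_true]
          have h3 := hclaim1 a h1 b hb hab
          by_cases h4 : A a = A x
          · rw [if_pos h4, if_neg (h3.mp h4)]; exact hαβ
          · have h5 : A b = A x := by
              by_contra h; exact h4 (h3.mpr h)
            rw [if_neg h4, if_pos h5]; exact hαβ.symm
        · simp only [h1, h2, if_true, if_false]
          exact hmix a h1 b hb h2 hab
        · simp only [h1, h2, if_true, if_false]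
          exact (hmix b h2 a ha h1 hab.symm).symm
        · simp only [h1, h2, if_false]
          exact hψ2 a (hWQ a ha h1) b (hWQ b hb h2) hab
  -- assemble
  obtain ⟨f, hf1, hf2⟩ := hcolY
  have hfY : ∀ v ∈ Y, f v ≠ c0 ∧ ∀ u ∈ Z, G.Adj v u → f v ≠ φ u := by
    intro v hv
    have h1 := hf1 v hv
    rw [hLdef, mem_sdiff, mem_insert, not_or] at h1
    refine ⟨h1.2.1, ?_⟩
    intro u hu hvu heq
    exact h1.2.2 (mem_image.mpr ⟨u, mem_nb.mpr ⟨hu, hvu⟩, heq.symm⟩)
  refine ⟨fun v => if v ∈ I then c0 else if v ∈ Y then f v else φ v, ?_⟩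
  have half : ∀ u v, G.Adj u v → (u ∈ I ∨ (u ∈ Y ∧ v ∉ I)) →
      (if u ∈ I then c0 else if u ∈ Y then f u else φ u) ≠
      (if v ∈ I then c0 else if v ∈ Y then f v else φ v) := by
    intro u v huv h
    rcases h with hu | ⟨hu, hv⟩
    · have hv : v ∉ I := fun h => hind u hu v h huv
      have hvY : v ∈ Y := (hY v).mpr ⟨u, hu, huv.symm⟩
      rw [if_pos hu, if_neg hv, if_pos hvY]
      exact (hfY v hvY).1.symm
    · rw [if_neg (hYI u hu), if_pos hu, if_neg hv]
      by_cases hvY : v ∈ Y
      · rw [if_pos hvY]; exact hf2 u hu v hvY huv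
      · rw [if_neg hvY]; exact (hfY u hu).2 v ((hZ v).mpr ⟨hv, hvY⟩) huv
  intro u v huv
  by_cases hu : u ∈ I
  · exact half u v huv (Or.inl hu)
  · by_cases hv : v ∈ I
    · exact (half v u huv.symm (Or.inl hv)).symm
    · by_cases huY : u ∈ Y
      · exact half u v huv (Or.inr ⟨huY, hv⟩)
      · by_cases hvY : v ∈ Y
        · exact (half v u huv.symm (Or.inr ⟨hvY, hu⟩)).symm
        · simp only [hu, hv, huY, hvY, if_false]
          exact hφ u ((hZ u).mpr ⟨hu, huY⟩) v ((hZ v).mpr ⟨hv, hvY⟩) huv

end Pool.Agent.helper94.Sunshade
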