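import Mathlib

/-!
High moments of sums of periodic functions with pairwise coprime (prime) periods over short ranges.
-/

open Finset

namespace Pool.Agent.helper94.Moment

/-- sum over a complete set of blocks -/
lemma sum_range_mul (f : ℕ → ℝ) (D m : ℕ) (hf : ∀ n, f (n + D) = f n) :
    ∑ n ∈ range (D * m), f n = m * ∑ n ∈ range D, f n := by
  have hper : ∀ (m n : ℕ), f (n + D * m) = f n := by
    intro m
    induction m with
    | zero => simp
    | succ m ih => intro n; rw [mul_add, mul_one, ← add_assoc, hf, ih]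
  induction m with
  | zero => simp
  | succ m ih =>
    rw [mul_add, mul_one, sum_range_add, ih]
    have : ∑ j ∈ range D, f (D * m + j) = ∑ n ∈ range D, f n := by
      apply sum_congr rfl
      intro j _
      rw [add_comm, hper]
    rw [this]; push_cast; ring

lemma avg_of_dvd (f : ℕ → ℝ) (D M : ℕ) (hD : 0 < D) (hM : 0 < M) (h : D ∣ M) (hf : ∀ n, f (n + D) = f n) :
    (1 / (M : ℝ)) * ∑ n ∈ range M, f n = (1 / (D : ℝ)) * ∑ n ∈ range D, f n := by
  obtain ⟨m, rfl⟩ := h
  have hm : 0 < m := by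
    rcases Nat.eq_zero_or_pos m with rfl | h
    · simp at hM
    · exact h
  rw [sum_range_mul f D m hf]
  have h1 : (D : ℝ) ≠ 0 := by exact_mod_cast hD.ne'
  have h2 : (m : ℝ) ≠ 0 := by exact_mod_cast hm.ne'
  push_cast
  field_simp

lemma sum_range_approx (f : ℕ → ℝ) (D x : ℕ) (hD : 0 < D) (hf : ∀ n, f (n + D) = f n)
    (hb : ∀ n, |f n| ≤ 1) :
    |∑ n ∈ range x, f n - x * ((1 / (D : ℝ)) * ∑ n ∈ range D, f n)| ≤ 2 * D := by
  have hD' : (0 : ℝ) < D := by exact_mod_cast hD
  set m := x / D with hm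
  set r := x % D with hr
  have hx : x = D * m + r := (Nat.div_add_mod x D).symm
  have hrD : r ≤ D := (Nat.mod_lt x hD).le
  have h1 : ∑ n ∈ range x, f n = m * ∑ n ∈ range D, f n + ∑ j ∈ range r, f (D * m + j) := by
    rw [hx, sum_range_add, sum_range_mul f D m hf]
  have h2 : |∑ j ∈ range r, f (D * m + j)| ≤ D := by
    refine (abs_sum_le_sum_abs _ _).trans ((sum_le_sum (fun j _ => hb _)).trans ?_)
    simp only [sum_const, card_range, nsmul_eq_mul, mul_one]
    exact_mod_cast hrD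
  have h3 : |∑ n ∈ range D, f n| ≤ D := by
    refine (abs_sum_le_sum_abs _ _).trans ((sum_le_sum (fun j _ => hb _)).trans ?_)
    simp
  have h4 : (x : ℝ) = D * m + r := by exact_mod_cast hx
  rw [h1, h4]
  have h5 : (m : ℝ) * ∑ n ∈ range D, f n + ∑ j ∈ range r, f (D * m + j) -
      ((D:ℝ) * m + r) * ((1 / (D : ℝ)) * ∑ n ∈ range D, f n) =
      ∑ j ∈ range r, f (D * m + j) - (r / D) * ∑ n ∈ range D, f n := by
    field_simp; ring
  rw [h5]
  have h6 : |((r:ℝ) / D) * ∑ n ∈ range D, f n| ≤ D := by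
    rw [abs_mul, abs_of_nonneg (by positivity)]
    have h7 : (r : ℝ) / D ≤ 1 := by
      rw [div_le_one hD']; exact_mod_cast hrD
    calc (r:ℝ) / D * |∑ n ∈ range D, f n| ≤ 1 * D := by
          apply mul_le_mul h7 h3 (abs_nonneg _) (by norm_num)
      _ = D := one_mul _
  have := abs_sub (∑ j ∈ range r, f (D * m + j)) (((r:ℝ) / D) * ∑ n ∈ range D, f n)
  linarith

/-- Chinese remainder theorem for sums of products -/
lemma sum_range_mul_coprime (f g : ℕ → ℝ) (a b : ℕ) (ha : 0 < a) (hb : 0 < b) (hab : Nat.Coprime a b)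
    (hf : ∀ n, f (n + a) = f n) (hg : ∀ n, g (n + b) = g n) :
    ∑ n ∈ range (a * b), f n * g n = (∑ n ∈ range a, f n) * ∑ n ∈ range b, g n := by
  have hf' : ∀ n, f (n % a) = f n := by
    intro n
    have hper : ∀ (m n : ℕ), f (n + a * m) = f n := by
      intro m
      induction m with
      | zero => simp
      | succ m ih => intro n; rw [mul_add, mul_one, ← add_assoc, hf, ih]
    conv_rhs => rw [← Nat.mod_add_div n a, hper]
  have hg' : ∀ n, g (n % b) = g n := by
    intro n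
    have hper : ∀ (m n : ℕ), g (n + b * m) = g n := by
      intro m
      induction m with
      | zero => simp
      | succ m ih => intro n; rw [mul_add, mul_one, ← add_assoc, hg, ih]
    conv_rhs => rw [← Nat.mod_add_div n b, hper]
  rw [sum_mul_sum, ← sum_product']
  refine sum_bij' (fun n _ => (n % a, n % b)) (fun ij _ => (Nat.chineseRemainder hab ij.1 ij.2 : ℕ)) ?_ ?_ ?_ ?_ ?_
  · intro n hn
    simp only [mem_product, mem_range]
    exact ⟨Nat.mod_lt _ ha, Nat.mod_lt _ hb⟩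
  · rintro ⟨i, j⟩ _
    simp only [mem_range]
    exact Nat.chineseRemainder_lt_mul hab i j ha.ne' hb.ne'
  · intro n hn
    simp only [mem_range] at hn
    have h1 := (Nat.chineseRemainder hab (n % a) (n % b)).2
    have h2 : (Nat.chineseRemainder hab (n % a) (n % b) : ℕ) ≡ n [MOD a * b] := by
      rw [← Nat.modEq_and_modEq_iff_modEq_mul hab]
      exact ⟨h1.1.trans (Nat.mod_modEq n a), h1.2.trans (Nat.mod_modEq n b)⟩
    have h3 := Nat.chineseRemainder_lt_mul hab (n % a) (n % b) ha.ne' hb.ne'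
    exact Nat.ModEq.eq_of_lt_of_lt h2 h3 hn
  · rintro ⟨i, j⟩ hij
    simp only [mem_product, mem_range] at hij
    have h1 := (Nat.chineseRemainder hab i j).2
    ext
    · exact Nat.ModEq.eq_of_lt_of_lt ((Nat.mod_modEq _ _).trans h1.1) (Nat.mod_lt _ ha) hij.1
    · exact Nat.ModEq.eq_of_lt_of_lt ((Nat.mod_modEq _ _).trans h1.2) (Nat.mod_lt _ hb) hij.2
  · intro n _
    simp only
    rw [hf', hg']

lemma prod_periodic (T : Finset ℕ) (h : ℕ → ℕ → ℝ) (hper : ∀ p ∈ T, ∀ n, h p (n + p) = h p n) (n : ℕ) :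
    ∏ p ∈ T, h p (n + ∏ p ∈ T, p) = ∏ p ∈ T, h p n := by
  apply prod_congr rfl
  intro p hp
  have hd : p ∣ ∏ p ∈ T, p := dvd_prod_of_mem _ hp
  obtain ⟨m, hm⟩ := hd
  rw [hm]
  have : ∀ (m n : ℕ), h p (n + p * m) = h p n := by
    intro m
    induction m with
    | zero => simp
    | succ m ih => intro n; rw [mul_add, mul_one, ← add_assoc, hper p hp, ih]
  exact this m n

lemma sum_range_prod (T : Finset ℕ) (hT : ∀ p ∈ T, p.Prime) (h : ℕ → ℕ → ℝ)
    (hper : ∀ p ∈ T, ∀ n, h p (n + p) = h p n) :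
    ∑ n ∈ range (∏ p ∈ T, p), ∏ p ∈ T, h p n = ∏ p ∈ T, ∑ n ∈ range p, h p n := by
  induction T using Finset.induction_on with
  | empty => simp
  | insert q T hq ih =>
    have hT' : ∀ p ∈ T, p.Prime := fun p hp => hT p (mem_insert_of_mem hp)
    have hper' : ∀ p ∈ T, ∀ n, h p (n + p) = h p n := fun p hp => hper p (mem_insert_of_mem hp)
    have hqp := hT q (mem_insert_self _ _)
    rw [prod_insert hq, prod_insert hq, ← ih hT' hper']
    rw [← sum_range_mul_coprime (h q) (fun n => ∏ p ∈ T, h p n) q (∏ p ∈ T, p) hqp.pos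
      (prod_pos (fun p hp => (hT' p hp).pos)) ?_ (hper q (mem_insert_self _ _))
      (fun n => prod_periodic T h hper' n)]
    · apply sum_congr rfl
      intro n _
      rw [prod_insert hq]
    · apply Nat.Coprime.prod_right
      intro p hp
      rw [Nat.coprime_primes hqp (hT' p hp)]
      rintro rfl
      exact hq hp

lemma avg_prod (T : Finset ℕ) (hT : ∀ p ∈ T, p.Prime) (h : ℕ → ℕ → ℝ)
    (hper : ∀ p ∈ T, ∀ n, h p (n + p) = h p n) :
    (1 / ((∏ p ∈ T, p : ℕ) : ℝ)) * ∑ n ∈ range (∏ p ∈ T, p), ∏ p ∈ T, h p n =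
      ∏ p ∈ T, ((1 / (p : ℝ)) * ∑ n ∈ range p, h p n) := by
  rw [sum_range_prod T hT h hper, prod_mul_distrib]
  congr 1
  rw [prod_div_distrib]
  simp

section
variable (T : Finset ℕ) (hT : ∀ p ∈ T, p.Prime) (g : ℕ → ℕ → ℝ) (v : ℕ → ℝ)
  (hper : ∀ p ∈ T, ∀ n, g p (n + p) = g p n)
  (hb : ∀ p ∈ T, ∀ n, |g p n| ≤ 1)
  (h0 : ∀ p ∈ T, ∑ n ∈ range p, g p n = 0)
  (hv : ∀ p ∈ T, ∑ n ∈ range p, g p n ^ 2 ≤ p * v p)

include hT hper hb h0 hv in
/-- exponential moment -/
lemma exp_moment (t : ℝ) (ht : |t| ≤ 1) :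
    (1 / ((∏ p ∈ T, p : ℕ) : ℝ)) * ∑ n ∈ range (∏ p ∈ T, p), Real.exp (t * ∑ p ∈ T, g p n) ≤
      Real.exp (t ^ 2 * ∑ p ∈ T, v p) := by
  have h1 : ∀ n, Real.exp (t * ∑ p ∈ T, g p n) = ∏ p ∈ T, Real.exp (t * g p n) := by
    intro n; rw [mul_sum, Real.exp_sum]
  simp_rw [h1]
  rw [avg_prod T hT (fun p n => Real.exp (t * g p n)) (fun p hp n => by rw [hper p hp]),
    mul_sum, Real.exp_sum]
  apply prod_le_prod
  · intro p _
    have : 0 ≤ ∑ n ∈ range p, Real.exp (t * g p n) := sum_nonneg (fun n _ => (Real.exp_pos _).le)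
    positivity
  · intro p hp
    have hp0 : (0:ℝ) < p := by exact_mod_cast (hT p hp).pos
    have h2 : ∑ n ∈ range p, Real.exp (t * g p n) ≤ p + t ^ 2 * (p * v p) := by
      have h3 : ∀ n ∈ range p, Real.exp (t * g p n) ≤ 1 + t * g p n + t ^ 2 * g p n ^ 2 := by
        intro n _
        have h4 : |t * g p n| ≤ 1 := by
          rw [abs_mul]
          calc |t| * |g p n| ≤ 1 * 1 := mul_le_mul ht (hb p hp n) (abs_nonneg _) (by norm_num)
            _ = 1 := by norm_num
        have h5 := Real.abs_exp_sub_one_sub_id_le h4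
        have h6 := (abs_le.mp h5).2
        nlinarith
      refine (sum_le_sum h3).trans ?_
      rw [sum_add_distrib, sum_add_distrib, ← mul_sum, ← mul_sum, h0 p hp]
      simp only [sum_const, card_range, nsmul_eq_mul, mul_one, mul_zero, add_zero]
      have := hv p hp
      have ht2 : 0 ≤ t ^ 2 := by positivity
      nlinarith
    calc (1 / (p:ℝ)) * ∑ n ∈ range p, Real.exp (t * g p n) ≤ (1 / (p:ℝ)) * (p + t ^ 2 * (p * v p)) := by
          gcongr
      _ = t ^ 2 * v p + 1 := by field_simp; ring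
      _ ≤ Real.exp (t ^ 2 * v p) := Real.add_one_le_exp _

include hT hper hb h0 hv in
/-- even moments over the full period -/
lemma even_moment (t : ℝ) (ht0 : 0 < t) (ht : t ≤ 1) (q : ℕ) :
    (1 / ((∏ p ∈ T, p : ℕ) : ℝ)) * ∑ n ∈ range (∏ p ∈ T, p), (∑ p ∈ T, g p n) ^ (2 * q) ≤
      (2 * q).factorial / t ^ (2 * q) * (2 * Real.exp (t ^ 2 * ∑ p ∈ T, v p)) := by
  have h1 : ∀ z : ℝ, z ^ (2 * q) ≤ (2 * q).factorial / t ^ (2 * q) * (Real.exp (t * z) + Real.exp ((-t) * z)) := by
    intro z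
    have h2 : |t * z| ^ (2 * q) / (2 * q).factorial ≤ Real.exp |t * z| :=
      Real.pow_div_factorial_le_exp _ (abs_nonneg _) _
    have h3 : Real.exp |t * z| ≤ Real.exp (t * z) + Real.exp ((-t) * z) := by
      rcases abs_cases (t * z) with ⟨h, _⟩ | ⟨h, _⟩
      · rw [h]; have := Real.exp_pos ((-t) * z); linarith
      · rw [h, show -(t * z) = (-t) * z by ring]; have := Real.exp_pos (t * z); linarith
    have h4 : |t * z| ^ (2 * q) = t ^ (2 * q) * z ^ (2 * q) := by
      rw [Even.pow_abs (by simp), mul_pow]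
    rw [h4] at h2
    have hfac : (0:ℝ) < (2 * q).factorial := by exact_mod_cast Nat.factorial_pos _
    have htp : 0 < t ^ (2 * q) := by positivity
    have h5 := h2.trans h3
    rw [div_le_iff₀ hfac] at h5
    calc z ^ (2 * q) = (t ^ (2 * q) * z ^ (2 * q)) / t ^ (2 * q) := by field_simp
      _ ≤ ((Real.exp (t * z) + Real.exp ((-t) * z)) * (2 * q).factorial) / t ^ (2 * q) := by gcongr
      _ = _ := by ring
  have hM : (0:ℝ) ≤ (1 / ((∏ p ∈ T, p : ℕ) : ℝ)) := by positivity
  have e1 := exp_moment T hT g v hper hb h0 hv t (by rw [abs_of_pos ht0]; exact ht)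
  have e2 := exp_moment T hT g v hper hb h0 hv (-t) (by rw [abs_neg, abs_of_pos ht0]; exact ht)
  rw [neg_sq] at e2
  calc (1 / ((∏ p ∈ T, p : ℕ) : ℝ)) * ∑ n ∈ range (∏ p ∈ T, p), (∑ p ∈ T, g p n) ^ (2 * q)
      ≤ (1 / ((∏ p ∈ T, p : ℕ) : ℝ)) * ∑ n ∈ range (∏ p ∈ T, p), ((2 * q).factorial / t ^ (2 * q) *
        (Real.exp (t * ∑ p ∈ T, g p n) + Real.exp ((-t) * ∑ p ∈ T, g p n))) := by
        gcongr with n _
        exact h1 _
    _ = (2 * q).factorial / t ^ (2 * q) *
        ((1 / ((∏ p ∈ T, p : ℕ) : ℝ)) * ∑ n ∈ range (∏ p ∈ T, p), Real.exp (t * ∑ p ∈ T, g p n) +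
         (1 / ((∏ p ∈ T, p : ℕ) : ℝ)) * ∑ n ∈ range (∏ p ∈ T, p), Real.exp ((-t) * ∑ p ∈ T, g p n)) := by
        rw [← mul_sum, sum_add_distrib]; ring
    _ ≤ (2 * q).factorial / t ^ (2 * q) * (2 * Real.exp (t ^ 2 * ∑ p ∈ T, v p)) := by
        have : (0:ℝ) ≤ (2 * q).factorial / t ^ (2 * q) := by positivity
        gcongr
        linarith

include hT hper hb in
/-- transfer of moments from the full period to an arbitrary range -/
lemma moment_transfer (y : ℕ) (hy : ∀ p ∈ T, p ≤ y) (x k : ℕ) :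
    ∑ n ∈ range x, (∑ p ∈ T, g p n) ^ k ≤
      x * ((1 / ((∏ p ∈ T, p : ℕ) : ℝ)) * ∑ n ∈ range (∏ p ∈ T, p), (∑ p ∈ T, g p n) ^ k) +
        2 * ((T.card : ℝ) * y) ^ k := by
  have h1 : ∀ n, (∑ p ∈ T, g p n) ^ k =
      ∑ s ∈ Fintype.piFinset (fun _ : Fin k => T), ∏ i, g (s i) n := by
    intro n
    have := prod_univ_sum (fun _ : Fin k => T) (fun _ p => g p n)
    rw [← this]
    simp
  simp_rw [h1]
  rw [sum_comm, sum_comm (s := range (∏ p ∈ T, p)), mul_sum, mul_sum]
  have h2 : ∀ s ∈ Fintype.piFinset (fun _ : Fin k => T),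
      ∑ n ∈ range x, ∏ i, g (s i) n ≤
        x * ((1 / ((∏ p ∈ T, p : ℕ) : ℝ)) * ∑ n ∈ range (∏ p ∈ T, p), ∏ i, g (s i) n) + 2 * (y : ℝ) ^ k := by
    intro s hs
    rw [Fintype.mem_piFinset] at hs
    set D := ∏ p ∈ univ.image s, p with hD
    have himg : univ.image s ⊆ T := by
      intro p hp
      simp only [mem_image, mem_univ, true_and] at hp
      obtain ⟨i, rfl⟩ := hp
      exact hs i
    have hDpos : 0 < D := prod_pos (fun p hp => (hT p (himg hp)).pos)
    have hMpos : 0 < ∏ p ∈ T, p := prod_pos (fun p hp => (hT p hp).pos)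
    have hDM : D ∣ ∏ p ∈ T, p := prod_dvd_prod_of_subset _ _ _ himg
    have hDy : D ≤ y ^ k := by
      calc D ≤ y ^ (univ.image s).card := prod_le_pow_card _ _ _ (fun p hp => hy p (himg hp))
        _ ≤ y ^ k := by
          rcases Nat.eq_zero_or_pos k with rfl | hk
          · simp
          · have hypos : 0 < y := by
              have := hs ⟨0, hk⟩
              exact lt_of_lt_of_le (hT _ this).pos (hy _ this)
            apply Nat.pow_le_pow_right hypos
            calc (univ.image s).card ≤ (univ : Finset (Fin k)).card := card_image_le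
              _ = k := by simp
    have hperD : ∀ n, ∏ i, g (s i) (n + D) = ∏ i, g (s i) n := by
      intro n
      apply prod_congr rfl
      intro i _
      have hd : s i ∣ D := dvd_prod_of_mem _ (mem_image_of_mem s (mem_univ i))
      obtain ⟨m, hm⟩ := hd
      rw [hm]
      have : ∀ (m n : ℕ), g (s i) (n + s i * m) = g (s i) n := by
        intro m
        induction m with
        | zero => simp
        | succ m ih => intro n; rw [mul_add, mul_one, ← add_assoc, hper _ (hs i), ih]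
      exact this m n
    have hbD : ∀ n, |∏ i, g (s i) n| ≤ 1 := by
      intro n
      rw [abs_prod]
      exact prod_le_one (fun i _ => abs_nonneg _) (fun i _ => hb _ (hs i) n)
    have h3 := sum_range_approx (fun n => ∏ i, g (s i) n) D x hDpos hperD hbD
    rw [← avg_of_dvd (fun n => ∏ i, g (s i) n) D _ hDpos hMpos hDM hperD] at h3
    have h4 := (abs_le.mp h3).2
    have h5 : (D : ℝ) ≤ (y : ℝ) ^ k := by exact_mod_cast hDy
    linarith
  refine (sum_le_sum h2).trans ?_
  rw [sum_add_distrib, sum_const, Fintype.card_piFinset_const, nsmul_eq_mul]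
  apply add_le_add le_rfl
  push_cast
  rw [mul_pow]
  apply le_of_eq
  ring
end

end Pool.Agent.helper94.Moment
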