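import Mathlib
import Pool.Agent.helper91.Mertens
import Pool.Agent.helper94.Moment

/-!
The exceptional set for `max_{m<n} (τ(m)+m-n)`: finite inequality and Mertens-type lower bound.
-/

open Finset

namespace Pool.Agent.helper94.DivMax

/-- primes in `(K, y]` -/
def PP (K y : ℕ) : Finset ℕ := (Nat.primesLE y).filter (fun p => K < p)

lemma mem_PP {K y p : ℕ} : p ∈ PP K y ↔ p.Prime ∧ K < p ∧ p ≤ y := by
  simp only [PP, mem_filter, Nat.mem_primesLE]
  tauto

noncomputable def SS (K y : ℕ) : ℝ := ∑ p ∈ PP K y, 1 / (p : ℝ)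

/-- centred indicator of `n mod p ∈ [1, K]` -/
noncomputable def g (K p n : ℕ) : ℝ := (if n % p ∈ Icc 1 K then 1 else 0) - (K : ℝ) / p

lemma g_per (K p n : ℕ) : g K p (n + p) = g K p n := by
  unfold g; rw [Nat.add_mod_right]

lemma sum_ind (K p : ℕ) (h : K < p) :
    ∑ n ∈ range p, (if n % p ∈ Icc 1 K then (1:ℝ) else 0) = K := by
  have h1 : ∑ n ∈ range p, (if n % p ∈ Icc 1 K then (1:ℝ) else 0) =
      ∑ n ∈ range p, (if n ∈ Icc 1 K then (1:ℝ) else 0) := by
    apply sum_congr rfl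
    intro n hn
    rw [Nat.mod_eq_of_lt (mem_range.mp hn)]
  rw [h1, ← sum_filter, sum_const, nsmul_eq_mul, mul_one]
  have h2 : (range p).filter (fun n => n ∈ Icc 1 K) = Icc 1 K := by
    ext n
    simp only [mem_filter, mem_range, mem_Icc]
    constructor
    · exact fun h => h.2
    · exact fun h' => ⟨by omega, h'⟩
  rw [h2]; simp

lemma g_sum (K p : ℕ) (h : K < p) : ∑ n ∈ range p, g K p n = 0 := by
  unfold g
  rw [sum_sub_distrib, sum_ind K p h]
  have : (p : ℝ) ≠ 0 := by exact_mod_cast (by omega : p ≠ 0)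
  simp only [sum_const, card_range, nsmul_eq_mul]
  field_simp
  ring

lemma g_abs (K p n : ℕ) (h : K < p) : |g K p n| ≤ 1 := by
  unfold g
  have hp : (0:ℝ) < p := by exact_mod_cast (by omega : 0 < p)
  have h1 : (K:ℝ) / p ≤ 1 := by
    rw [div_le_one hp]; exact_mod_cast h.le
  have h2 : 0 ≤ (K:ℝ) / p := by positivity
  split_ifs
  · rw [abs_le]; constructor <;> linarith
  · rw [abs_le]; constructor <;> linarith

lemma g_sq_sum (K p : ℕ) (h : K < p) : ∑ n ∈ range p, g K p n ^ 2 ≤ p * ((K : ℝ) / p) := by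
  have hp : (0:ℝ) < p := by exact_mod_cast (by omega : 0 < p)
  have h1 : ∀ n, g K p n ^ 2 = (1 - 2 * ((K:ℝ) / p)) * (if n % p ∈ Icc 1 K then 1 else 0) + ((K:ℝ) / p) ^ 2 := by
    intro n
    unfold g
    split_ifs <;> ring
  simp_rw [h1]
  rw [sum_add_distrib, ← mul_sum, sum_ind K p h]
  simp only [sum_const, card_range, nsmul_eq_mul]
  have h2 : (p:ℝ) * ((K : ℝ) / p) = K := by field_simp
  rw [h2]
  have h3 : (p:ℝ) * ((K : ℝ) / p) ^ 2 = K * (K / p) := by field_simp
  rw [h3]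
  have h4 : 0 ≤ (K:ℝ) * (K / p) := by positivity
  nlinarith

lemma two_pow_le_card_divisors (m : ℕ) (hm : m ≠ 0) : 2 ^ m.primeFactors.card ≤ m.divisors.card := by
  rw [Nat.card_divisors hm, ← prod_const]
  apply prod_le_prod' 
  intro p hp
  have : 1 ≤ m.factorization p := by
    rw [Nat.mem_primeFactors] at hp
    exact (hp.1.dvd_iff_one_le_factorization hm).mp hp.2.1
  omega

lemma count_le (K y r n : ℕ) (hn : K < n) (h : ∀ k ∈ Icc 1 K, (n - k).divisors.card < 2 ^ r) :
    ∑ p ∈ PP K y, (if n % p ∈ Icc 1 K then (1:ℝ) else 0) ≤ K * r := by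
  rw [← sum_filter, sum_const, nsmul_eq_mul, mul_one]
  have h1 : (PP K y).filter (fun p => n % p ∈ Icc 1 K) ⊆
      (Icc 1 K).biUnion (fun k => (n - k).primeFactors) := by
    intro p hp
    rw [mem_filter, mem_PP] at hp
    rw [mem_biUnion]
    refine ⟨n % p, hp.2, ?_⟩
    have hk := mem_Icc.mp hp.2
    rw [Nat.mem_primeFactors]
    exact ⟨hp.1.1, Nat.dvd_sub_mod n, by omega⟩
  have h2 := (card_le_card h1).trans card_biUnion_le
  have h3 : ∑ k ∈ Icc 1 K, (n - k).primeFactors.card ≤ ∑ k ∈ Icc 1 K, r := by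
    apply sum_le_sum
    intro k hk
    have h4 := h k hk
    have h5 := two_pow_le_card_divisors (n - k) (by have := mem_Icc.mp hk; omega)
    have h6 : 2 ^ (n - k).primeFactors.card < 2 ^ r := lt_of_le_of_lt h5 h4
    exact ((Nat.pow_lt_pow_iff_right (by norm_num)).mp h6).le
  have h7 := h2.trans h3
  simp only [sum_const, Nat.card_Icc, Nat.add_sub_cancel, smul_eq_mul] at h7
  exact_mod_cast h7

/-- the finite inequality -/
theorem exc_bound (x K y r q : ℕ) (t : ℝ) (ht0 : 0 < t) (ht : t ≤ 1) (hS : (r : ℝ) ≤ SS K y)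
    (B : Finset ℕ)
    (hmem : ∀ n ∈ B, (K + 1 ≤ n ∧ n ≤ x) ∧ ∀ k ∈ Icc 1 K, (n - k).divisors.card < 2 ^ r) :
    (B.card : ℝ) * (K * (SS K y - r)) ^ (2 * q) ≤
      (x + 1) * ((2 * q).factorial / t ^ (2 * q) * (2 * Real.exp (t ^ 2 * (K * SS K y)))) +
        2 * ((y : ℝ) * y) ^ (2 * q) := by
  have hT : ∀ p ∈ PP K y, p.Prime := fun p hp => (mem_PP.mp hp).1
  have hper : ∀ p ∈ PP K y, ∀ n, g K p (n + p) = g K p n := fun p _ n => g_per K p n
  have hb : ∀ p ∈ PP K y, ∀ n, |g K p n| ≤ 1 := fun p hp n => g_abs K p n (mem_PP.mp hp).2.1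
  have h0 : ∀ p ∈ PP K y, ∑ n ∈ range p, g K p n = 0 := fun p hp => g_sum K p (mem_PP.mp hp).2.1
  have hv : ∀ p ∈ PP K y, ∑ n ∈ range p, g K p n ^ 2 ≤ p * ((fun p : ℕ => (K : ℝ) / p) p) :=
    fun p hp => g_sq_sum K p (mem_PP.mp hp).2.1
  have hV : ∑ p ∈ PP K y, (K : ℝ) / p = K * SS K y := by
    rw [SS, mul_sum]
    apply sum_congr rfl
    intro p _
    ring
  have e1 := Moment.even_moment (PP K y) hT (g K) (fun p => (K : ℝ) / p) hper hb h0 hv t ht0 ht q
  have e2 := Moment.moment_transfer (PP K y) hT (g K) hper hb y (fun p hp => (mem_PP.mp hp).2.2) (x + 1) (2 * q)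
  rw [hV] at e1
  have e3 : ((PP K y).card : ℝ) ≤ y := by
    have : PP K y ⊆ Icc 1 y := by
      intro p hp
      rw [mem_PP] at hp
      rw [mem_Icc]
      exact ⟨hp.1.pos, hp.2.2⟩
    have := card_le_card this
    simp only [Nat.card_Icc, Nat.add_sub_cancel] at this
    exact_mod_cast this
  have e4 : ∀ n ∈ B, (K * (SS K y - r)) ^ (2 * q) ≤ (∑ p ∈ PP K y, g K p n) ^ (2 * q) := by
    intro n hn
    have hn := hmem n hn
    have h1 := count_le K y r n (by omega) hn.2
    have h2 : ∑ p ∈ PP K y, g K p n =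
        ∑ p ∈ PP K y, (if n % p ∈ Icc 1 K then (1:ℝ) else 0) - K * SS K y := by
      unfold g
      rw [sum_sub_distrib, hV]
    have h3 : 0 ≤ (K : ℝ) * (SS K y - r) := mul_nonneg (by positivity) (by linarith)
    have h4 : (K : ℝ) * (SS K y - r) ≤ -∑ p ∈ PP K y, g K p n := by rw [h2]; linarith
    rw [← Even.neg_pow (by simp : Even (2 * q)) (∑ p ∈ PP K y, g K p n)]
    gcongr
  calc (B.card : ℝ) * (K * (SS K y - r)) ^ (2 * q)
      = ∑ n ∈ B, (K * (SS K y - r)) ^ (2 * q) := by rw [sum_const, nsmul_eq_mul]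
    _ ≤ ∑ n ∈ B, (∑ p ∈ PP K y, g K p n) ^ (2 * q) := sum_le_sum e4
    _ ≤ ∑ n ∈ range (x + 1), (∑ p ∈ PP K y, g K p n) ^ (2 * q) := by
        apply sum_le_sum_of_subset_of_nonneg
        · intro n hn
          have hn := hmem n hn
          rw [mem_range]; omega
        · intro n _ _
          exact Even.pow_nonneg (by simp) _
    _ ≤ _ := by
        refine e2.trans ?_
        rw [Nat.cast_add, Nat.cast_one]
        refine add_le_add (mul_le_mul_of_nonneg_left e1 (by positivity)) ?_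
        apply mul_le_mul_of_nonneg_left _ (by norm_num)
        apply pow_le_pow_left₀ (by positivity)
        exact mul_le_mul_of_nonneg_right e3 (by positivity)

/-! ### Mertens -/

open Pool.Agent.helper91

noncomputable def C1 : ℝ := 2 * (2 + Mertens.Cpp) + Real.log 2

lemma C1_pos : 0 < C1 := by
  unfold C1
  have := Mertens.Cpp_nonneg
  have := Real.log_pos (by norm_num : (1:ℝ) < 2)
  linarith

/-- sum of `1/p` over `e^A < p ≤ e^B` -/
noncomputable def SE (A B : ℝ) : ℝ := SS ⌊Real.exp A⌋₊ ⌊Real.exp B⌋₊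

lemma SS_nonneg (K y : ℕ) : 0 ≤ SS K y := sum_nonneg (fun p _ => by positivity)

lemma SS_anti {K K' y y' : ℕ} (hK : K' ≤ K) (hy : y ≤ y') : SS K y ≤ SS K' y' := by
  apply sum_le_sum_of_subset_of_nonneg
  · intro p hp
    rw [mem_PP] at hp ⊢
    exact ⟨hp.1, by omega, by omega⟩
  · intro p _ _
    positivity

lemma SS_add (a b c : ℕ) (hab : a ≤ b) (hbc : b ≤ c) : SS a c = SS a b + SS b c := by
  unfold SS
  rw [← sum_union]
  · apply sum_congr _ (fun _ _ => rfl)
    ext p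
    simp only [mem_union, mem_PP]
    constructor
    · rintro ⟨h1, h2, h3⟩
      by_cases h : p ≤ b
      · exact Or.inl ⟨h1, h2, h⟩
      · exact Or.inr ⟨h1, by omega, h3⟩
    · rintro (⟨h1, h2, h3⟩ | ⟨h1, h2, h3⟩)
      · exact ⟨h1, h2, by omega⟩
      · exact ⟨h1, by omega, h3⟩
  · rw [disjoint_left]
    intro p hp hp'
    rw [mem_PP] at hp hp'
    omega

lemma SE_step (A B : ℝ) (hA : 0 ≤ A) (hAB : A ≤ B) (hB : 0 < B) : (B - A - C1) / B ≤ SE A B := by
  set a := ⌊Real.exp A⌋₊ with ha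
  set b := ⌊Real.exp B⌋₊ with hb
  have ha1 : 1 ≤ a := by
    rw [ha]; apply Nat.le_floor; push_cast; exact Real.one_le_exp hA
  have hab : a ≤ b := Nat.floor_mono (Real.exp_le_exp.mpr hAB)
  have hb1 : 1 ≤ b := ha1.trans hab
  have h1 := Mertens.abs_le (N := a) ha1
  have h2 := Mertens.abs_le (N := b) hb1
  have h3 : Mertens.M b - Mertens.M a = ∑ p ∈ PP a b, Real.log p / p := by
    unfold Mertens.M
    have : Nat.primesLE b = Nat.primesLE a ∪ PP a b := by
      ext p
      simp only [mem_union, mem_PP, Nat.mem_primesLE]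
      constructor
      · rintro ⟨h1, h2⟩
        by_cases h : p ≤ a
        · exact Or.inl ⟨h, h2⟩
        · exact Or.inr ⟨h2, by omega, h1⟩
      · rintro (⟨h1, h2⟩ | ⟨h1, h2, h3⟩)
        · exact ⟨by omega, h2⟩
        · exact ⟨by omega, h1⟩
    rw [this, sum_union]
    · ring
    · rw [disjoint_left]
      intro p hp hp'
      rw [mem_PP] at hp'
      rw [Nat.mem_primesLE] at hp
      omega
  have h4 : Real.log b ≥ B - Real.log 2 := by
    have : Real.exp B / 2 ≤ b := by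
      have h5 := Nat.lt_floor_add_one (Real.exp B)
      have h6 : (1:ℝ) ≤ b := by exact_mod_cast hb1
      rw [← hb] at h5
      linarith
    calc B - Real.log 2 = Real.log (Real.exp B / 2) := by
          rw [Real.log_div (Real.exp_pos _).ne' (by norm_num), Real.log_exp]
      _ ≤ Real.log b := Real.log_le_log (by positivity) this
  have h5 : Real.log a ≤ A := by
    rw [Real.log_le_iff_le_exp (by exact_mod_cast ha1)]
    exact Nat.floor_le (Real.exp_pos _).le
  have h6 : ∑ p ∈ PP a b, Real.log p / p ≤ B * SE A B := by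
    unfold SE SS
    rw [mul_sum]
    apply sum_le_sum
    intro p hp
    rw [mem_PP] at hp
    have hp0 : (0:ℝ) < p := by exact_mod_cast hp.1.pos
    have h7 : Real.log p ≤ B := by
      rw [Real.log_le_iff_le_exp hp0]
      calc (p:ℝ) ≤ b := by exact_mod_cast hp.2.2
        _ ≤ Real.exp B := Nat.floor_le (Real.exp_pos _).le
    rw [mul_one_div]
    gcongr
  rw [div_le_iff₀ hB, mul_comm]
  refine le_trans ?_ h6
  rw [← h3]
  have h8 := (abs_le.mp h1).2
  have h9 := (abs_le.mp h2).1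
  unfold C1
  linarith

lemma SE_iter (A lam : ℝ) (hA : 0 < A) (hl : 1 < lam) (J : ℕ) :
    J * (1 - 1 / lam - C1 / A) ≤ SE A (A * lam ^ J) := by
  induction J with
  | zero => simpa [SE] using SS_nonneg _ _
  | succ J ih =>
    have hlJ : 1 ≤ lam ^ J := one_le_pow₀ hl.le
    have h1 : SE A (A * lam ^ (J + 1)) = SE A (A * lam ^ J) + SE (A * lam ^ J) (A * lam ^ (J + 1)) := by
      unfold SE
      apply SS_add
      · apply Nat.floor_mono
        apply Real.exp_le_exp.mpr
        nlinarith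
      · apply Nat.floor_mono
        apply Real.exp_le_exp.mpr
        rw [pow_succ]
        have : 0 < A * lam ^ J := by positivity
        nlinarith
    rw [h1]
    have h2 := SE_step (A * lam ^ J) (A * lam ^ (J + 1)) (by positivity)
      (by rw [pow_succ]; have : 0 < A * lam ^ J := by positivity
          nlinarith) (by positivity)
    have h3 : (A * lam ^ (J + 1) - A * lam ^ J - C1) / (A * lam ^ (J + 1)) =
        1 - 1 / lam - C1 / (A * lam ^ (J + 1)) := by
      have : lam ≠ 0 := by positivity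
      field_simp
      ring
    rw [h3] at h2
    have h4 : C1 / (A * lam ^ (J + 1)) ≤ C1 / A := by
      have h5 : 1 ≤ lam ^ (J + 1) := one_le_pow₀ hl.le
      have := C1_pos
      apply div_le_div_of_nonneg_left this.le hA
      nlinarith
    push_cast
    linarith

/-- Mertens-type lower bound: `∑_{K < p ≤ exp(L^θ)} 1/p ≥ (θ - ε) log L`. -/
lemma SS_lower (θ ε : ℝ) (hε : 0 < ε) (hεθ : ε < θ) :
    ∀ᶠ L : ℝ in Filter.atTop, (θ - ε) * Real.log L ≤ SE (L ^ (ε / 3)) (L ^ θ) := by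
  have hθ : 0 < θ := hε.trans hεθ
  set η := ε / (3 * θ) with hη
  have hη0 : 0 < η := by positivity
  have hη1 : η < 1 := by
    rw [hη, div_lt_one (by positivity)]; linarith
  set e1 := ε / 3 with he1
  have he10 : 0 < e1 := by positivity
  have ht1 : Filter.Tendsto (fun L : ℝ => Real.log L) Filter.atTop Filter.atTop := Real.tendsto_log_atTop
  have ht2 : Filter.Tendsto (fun L : ℝ => L ^ e1) Filter.atTop Filter.atTop := tendsto_rpow_atTop he10
  have ht3 : Filter.Tendsto (fun L : ℝ => C1 / L ^ e1) Filter.atTop (nhds 0) :=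
    Filter.Tendsto.const_div_atTop ht2 C1
  have hev3 : ∀ᶠ L : ℝ in Filter.atTop, C1 / L ^ e1 < η * (ε / (8 * θ)) :=
    ht3.eventually_lt_const (by positivity)
  filter_upwards [Filter.eventually_gt_atTop 1, ht1.eventually_ge_atTop (8 / ε), hev3] with L hL1 hL2 hL3
  have hL0 : 0 < L := by linarith
  have hlog : 0 < Real.log L := Real.log_pos hL1
  set z := (θ - e1) * Real.log L / η with hz
  have hz0 : 0 ≤ z := by
    have : 0 < θ - e1 := by rw [he1]; linarith
    positivity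
  set J := ⌊z⌋₊ with hJ
  have hJz : (J : ℝ) ≤ z := Nat.floor_le hz0
  have hJz' : z - 1 ≤ J := by have := Nat.lt_floor_add_one z; linarith
  have hLe : 0 < L ^ e1 := by positivity
  have h1 := SE_iter (L ^ e1) (Real.exp η) hLe (Real.one_lt_exp_iff.mpr hη0) J
  have h2 : L ^ e1 * Real.exp η ^ J ≤ L ^ θ := by
    rw [← Real.exp_nat_mul, Real.rpow_def_of_pos hL0, Real.rpow_def_of_pos hL0, ← Real.exp_add,
      Real.exp_le_exp]
    have : J * η ≤ z * η := by gcongr
    have h3 : z * η = (θ - e1) * Real.log L := by rw [hz]; field_simp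
    nlinarith
  have h3 : SE (L ^ e1) (L ^ e1 * Real.exp η ^ J) ≤ SE (L ^ e1) (L ^ θ) := by
    unfold SE
    apply SS_anti le_rfl
    exact Nat.floor_mono (Real.exp_le_exp.mpr h2)
  refine le_trans ?_ (h1.trans h3)
  -- numeric
  have h4 : 1 / Real.exp η ≤ 1 - η + η ^ 2 := by
    rw [one_div, ← Real.exp_neg]
    have h5 : |(-η)| ≤ 1 := by rw [abs_neg, abs_of_pos hη0]; exact hη1.le
    have h6 := (abs_le.mp (Real.abs_exp_sub_one_sub_id_le h5)).2
    nlinarith
  -- sharper bound: exp(-η) ≤ 1 - η + η²/2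
  have h4' : 1 / Real.exp η ≤ 1 - η + η ^ 2 / 2 := by
    rw [div_le_iff₀ (Real.exp_pos _)]
    have h5 := Real.quadratic_le_exp_of_nonneg hη0.le
    have h6 : 0 < 1 - η + η ^ 2 / 2 := by nlinarith
    calc (1:ℝ) ≤ (1 - η + η ^ 2 / 2) * (1 + η + η ^ 2 / 2) := by nlinarith [sq_nonneg (η ^ 2)]
      _ ≤ _ := by gcongr
  have h5 : 1 - 1 / Real.exp η - C1 / L ^ e1 ≥ η * (1 - η / 2 - ε / (8 * θ)) := by
    nlinarith
  have hεθ' : ε / (8 * θ) < 1 / 8 := by
    rw [div_lt_div_iff₀ (by positivity) (by norm_num)]; linarith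
  have hpos : 0 < 1 - η / 2 - ε / (8 * θ) := by linarith
  have h6 : (J : ℝ) * (1 - 1 / Real.exp η - C1 / L ^ e1) ≥ (z - 1) * (η * (1 - η / 2 - ε / (8 * θ))) := by
    have hJ0 : (0:ℝ) ≤ J := by positivity
    calc (J : ℝ) * (1 - 1 / Real.exp η - C1 / L ^ e1) ≥ J * (η * (1 - η / 2 - ε / (8 * θ))) := by gcongr
      _ ≥ _ := by gcongr
  refine le_trans ?_ h6
  have h7 : (z - 1) * (η * (1 - η / 2 - ε / (8 * θ))) =
      ((θ - e1) * Real.log L - η) * (1 - η / 2 - ε / (8 * θ)) := by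
    rw [hz]; field_simp
  rw [h7]
  have h8 : θ * (η / 2) = ε / 6 := by rw [hη]; field_simp; ring
  have h9 : θ * (ε / (8 * θ)) = ε / 8 := by field_simp
  have h10 : (θ - e1) * (1 - η / 2 - ε / (8 * θ)) ≥ θ - e1 - ε / 6 - ε / 8 := by
    have : (θ - e1) * (1 - η / 2 - ε / (8 * θ)) = θ - θ * (η / 2) - θ * (ε / (8 * θ)) - e1 * (1 - η / 2 - ε / (8 * θ)) := by ring
    rw [this, h8, h9]
    have : e1 * (1 - η / 2 - ε / (8 * θ)) ≤ e1 * 1 := by
      apply mul_le_mul_of_nonneg_left _ he10.le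
      have : 0 < ε / (8 * θ) := by positivity
      linarith
    linarith
  have h11 : θ - e1 - ε / 6 - ε / 8 = (θ - ε) + ε * (3 / 8) := by rw [he1]; ring
  have h12 : η * (1 - η / 2 - ε / (8 * θ)) ≤ 1 := by nlinarith
  have h13 : 8 ≤ ε * Real.log L := by
    rw [div_le_iff₀ hε] at hL2; linarith
  have h14 : ((θ - e1) * Real.log L - η) * (1 - η / 2 - ε / (8 * θ)) =
      ((θ - e1) * (1 - η / 2 - ε / (8 * θ))) * Real.log L - η * (1 - η / 2 - ε / (8 * θ)) := by ring
  rw [h14]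
  have h15 : ((θ - e1) * (1 - η / 2 - ε / (8 * θ))) * Real.log L ≥ ((θ - ε) + ε * (3 / 8)) * Real.log L := by
    rw [h11] at h10; gcongr
  nlinarith

end Pool.Agent.helper94.DivMax
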