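import Mathlib
import Pool.Agent.helper94.DivLower

/-!
Asymptotic form of the exceptional set bound.
-/

open Finset

namespace Pool.Agent.helper94.DivMax

lemma tendsto_rpow_div_rpow {a b : ℝ} (hab : a < b) :
    Filter.Tendsto (fun L : ℝ => L ^ a / L ^ b) Filter.atTop (nhds 0) := by
  have h1 : (fun L : ℝ => L ^ (-(b - a))) =ᶠ[Filter.atTop] fun L : ℝ => L ^ a / L ^ b := by
    filter_upwards [Filter.eventually_gt_atTop 0] with L hL
    rw [← Real.rpow_sub hL]; congr 1; ring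
  exact (tendsto_rpow_neg_atTop (by linarith)).congr' h1

lemma ev_le {a b C : ℝ} (hab : a < b) (hC : 0 < C) : ∀ᶠ L : ℝ in Filter.atTop, C * L ^ a ≤ L ^ b := by
  have h1 := (tendsto_rpow_div_rpow hab).eventually_lt_const (show (0:ℝ) < 1 / C by positivity)
  filter_upwards [Filter.eventually_gt_atTop 0, h1] with L hL h2
  have hb : 0 < L ^ b := by positivity
  rw [div_lt_div_iff₀ hb hC] at h2
  linarith

/-- the final numerical inequality -/
lemma ev_final (c c1 c2 θ : ℝ) (hc0 : 0 < c) (h12 : c < c2) (h2 : c2 < c1) (hc1 : c1 < 1) (hθ : c2 + θ < 1)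
    (_hθ0 : 0 < θ) :
    ∀ᶠ L : ℝ in Filter.atTop,
      (L ^ c1 + 1) + (Real.exp L + 1) * (2 * Real.exp (1 - L ^ c2)) + 2 * Real.exp (4 * L ^ (c2 + θ)) ≤
        Real.exp L * Real.exp (-L ^ c) := by
  have e1 := ev_le (a := c) (b := 1) (C := 4) (by linarith) (by norm_num)
  have e2 := ev_le (a := c2 + θ) (b := 1) (C := 16) hθ (by norm_num)
  have e3 := ev_le (a := c) (b := c2) (C := 2) h12 (by norm_num)
  have e4 := ev_le (a := 0) (b := c) (C := 8) hc0 (by norm_num)
  filter_upwards [Filter.eventually_ge_atTop 100, e1, e2, e3, e4] with L hL h1 h2' h3 h4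
  rw [Real.rpow_one] at h1 h2'
  rw [Real.rpow_zero, mul_one] at h4
  have hL0 : 0 < L := by linarith
  have hLc1 : L ^ c1 ≤ L := by
    calc L ^ c1 ≤ L ^ (1:ℝ) := Real.rpow_le_rpow_of_exponent_le (by linarith) hc1.le
      _ = L := Real.rpow_one L
  rw [← Real.exp_add]
  set u := L + -L ^ c with hu
  have hu1 : 3 / 4 * L ≤ u := by rw [hu]; linarith
  -- term 1
  have t1 : L ^ c1 + 1 ≤ 1 / 4 * Real.exp u := by
    have h5 : Real.exp u ≥ u + u ^ 2 / 2 := by
      have := Real.quadratic_le_exp_of_nonneg (show 0 ≤ u by linarith)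
      linarith
    nlinarith
  -- term 2
  have t2 : (Real.exp L + 1) * (2 * Real.exp (1 - L ^ c2)) ≤ 1 / 4 * Real.exp u := by
    have h6 : Real.exp L + 1 ≤ 2 * Real.exp L := by
      have := Real.add_one_le_exp L
      linarith
    calc (Real.exp L + 1) * (2 * Real.exp (1 - L ^ c2)) ≤ (2 * Real.exp L) * (2 * Real.exp (1 - L ^ c2)) := by
          gcongr
      _ = 4 * Real.exp (L + (1 - L ^ c2)) := by rw [Real.exp_add]; ring
      _ ≤ 1 / 4 * Real.exp u := by
        have h7 : L + (1 - L ^ c2) ≤ u - 7 := by rw [hu]; linarith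
        have h8 : Real.exp (L + (1 - L ^ c2)) ≤ Real.exp (u - 7) := Real.exp_le_exp.mpr h7
        have h9 : Real.exp (u - 7) * Real.exp 7 = Real.exp u := by rw [← Real.exp_add]; congr 1; ring
        have h10 : (16:ℝ) ≤ Real.exp 7 := by
          have := Real.quadratic_le_exp_of_nonneg (show (0:ℝ) ≤ 7 by norm_num)
          linarith
        have h11 := Real.exp_pos (u - 7)
        nlinarith
  -- term 3
  have t3 : 2 * Real.exp (4 * L ^ (c2 + θ)) ≤ 1 / 4 * Real.exp u := by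
    have h7 : 4 * L ^ (c2 + θ) ≤ u - 7 := by linarith
    have h8 : Real.exp (4 * L ^ (c2 + θ)) ≤ Real.exp (u - 7) := Real.exp_le_exp.mpr h7
    have h9 : Real.exp (u - 7) * Real.exp 7 = Real.exp u := by rw [← Real.exp_add]; congr 1; ring
    have h10 : (16:ℝ) ≤ Real.exp 7 := by
      have := Real.quadratic_le_exp_of_nonneg (show (0:ℝ) ≤ 7 by norm_num)
      linarith
    have h11 := Real.exp_pos (u - 7)
    nlinarith
  have := Real.exp_pos u
  linarith

lemma factorial_bound (q : ℕ) (V : ℝ) (hV : 0 < V) (hq : 1 ≤ q) :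
    ((2 * q).factorial : ℝ) / (Real.sqrt (q / V)) ^ (2 * q) * (2 * Real.exp ((Real.sqrt (q / V)) ^ 2 * V)) ≤
      2 * (4 * q * V * Real.exp 1) ^ q := by
  have hq0 : (0:ℝ) < q := by exact_mod_cast hq
  rw [pow_mul, Real.sq_sqrt (by positivity)]
  have h1 : (q:ℝ) / V * V = q := by field_simp
  rw [h1]
  have h2 : ((2 * q).factorial : ℝ) ≤ (2 * q : ℝ) ^ (2 * q) := by
    have := Nat.factorial_le_pow (2 * q)
    calc ((2 * q).factorial : ℝ) ≤ (((2 * q) ^ (2 * q) : ℕ) : ℝ) := by exact_mod_cast this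
      _ = _ := by push_cast; ring
  have h3 : Real.exp (q:ℝ) = Real.exp 1 ^ q := by rw [← Real.exp_nat_mul, mul_one]
  rw [h3]
  calc ((2 * q).factorial : ℝ) / ((q:ℝ) / V) ^ q * (2 * Real.exp 1 ^ q)
      ≤ (2 * q : ℝ) ^ (2 * q) / ((q:ℝ) / V) ^ q * (2 * Real.exp 1 ^ q) := by gcongr
    _ = 2 * (4 * q * V * Real.exp 1) ^ q := by
      rw [pow_mul, ← div_pow]
      have : (2 * (q:ℝ)) ^ 2 / (q / V) = 4 * q * V := by field_simp; ring
      rw [this, mul_pow (4 * (q:ℝ) * V)]; ring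

theorem lower_exc (c : ℝ) (hc0 : 0 < c) (hc : c * (1 + Real.log 2) < Real.log 2) :
    ∀ᶠ x : ℕ in Filter.atTop, ∀ B : Finset ℕ,
      (∀ n ∈ B, 1 ≤ n ∧ n ≤ x ∧
        ∀ m : ℕ, m ∈ Ico 1 n → (m.divisors.card : ℝ) + m - n ≤ (Real.log x) ^ c) →
      (B.card : ℝ) ≤ x * Real.exp (-(Real.log x) ^ c) := by
  have hl2 : 0 < Real.log 2 := Real.log_pos (by norm_num)
  set θ : ℝ := 1 / (1 + Real.log 2) with hθ
  have hθ0 : 0 < θ := by positivity
  set c0 : ℝ := Real.log 2 / (1 + Real.log 2) with hc0'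
  have hcc0 : c < c0 := by rw [hc0', lt_div_iff₀ (by positivity)]; exact hc
  have hc0θ : c0 = 1 - θ := by rw [hc0', hθ]; field_simp; ring
  have hc0θ' : c0 = θ * Real.log 2 := by rw [hc0', hθ]; field_simp
  set c1 := (c + c0) / 2 with hc1
  set c2 := (c + c1) / 2 with hc2
  have h1 : c < c1 := by rw [hc1]; linarith
  have h2 : c1 < c0 := by rw [hc1]; linarith
  have h3 : c < c2 := by rw [hc2]; linarith
  have h4 : c2 < c1 := by rw [hc2]; linarith
  have hc1lt : c1 < 1 := by linarith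
  have hc1pos : 0 < c1 := by linarith
  have hc2pos : 0 < c2 := by linarith
  set κ := θ - c1 / Real.log 2 with hκ
  have hκ0 : 0 < κ := by
    rw [hκ, sub_pos, div_lt_iff₀ hl2, ← hc0θ']; exact h2
  set ε := κ / 2 with hε
  have hε0 : 0 < ε := by positivity
  have hεθ : ε < θ := by
    have : 0 < c1 / Real.log 2 := by positivity
    rw [hε, hκ]; linarith
  set a := c1 / Real.log 2 + κ / 2 with ha
  have ha0 : 0 < a := by positivity
  have haθ : θ - ε = a := by rw [ha, hε, hκ]; ring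
  set δ := κ / (4 * a) with hδ
  have hδ0 : 0 < δ := by positivity
  have hδa : δ * a = κ / 4 := by rw [hδ]; field_simp
  -- eventual facts in L
  have f1 := SS_lower θ ε hε0 hεθ
  have f2 := ev_le (a := c1) (b := (1:ℝ)) (C := 1) hc1lt (by norm_num)
  have f3 : ∀ᶠ L : ℝ in Filter.atTop, 2 * L ≤ Real.exp (L ^ (ε / 3)) := by
    have hε3 : 0 < ε / 3 := by positivity
    obtain ⟨N, hN⟩ := exists_nat_gt (2 / (ε / 3))
    have g1 := ev_le (a := 1) (b := (N:ℝ) * (ε / 3)) (C := 2 * N.factorial)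
      (by have : (2:ℝ) < N * (ε / 3) := by rw [div_lt_iff₀ hε3] at hN; exact hN
          linarith)
      (by have : (0:ℝ) < N.factorial := by exact_mod_cast Nat.factorial_pos _
          positivity)
    filter_upwards [Filter.eventually_gt_atTop 0, g1] with L hL h5
    rw [Real.rpow_one] at h5
    have h6 := Real.pow_div_factorial_le_exp (L ^ (ε / 3)) (by positivity) N
    have h7 : (L ^ (ε / 3)) ^ N = L ^ ((N:ℝ) * (ε / 3)) := by
      rw [← Real.rpow_natCast, ← Real.rpow_mul hL.le, mul_comm]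
    rw [h7] at h6
    have hfac : (0:ℝ) < N.factorial := by exact_mod_cast Nat.factorial_pos _
    rw [div_le_iff₀ hfac] at h6
    have h8 : 2 * L * N.factorial ≤ Real.exp (L ^ (ε / 3)) * N.factorial := by linarith
    exact le_of_mul_le_mul_right h8 hfac
  have f4 : ∀ᶠ L : ℝ in Filter.atTop, 3 ≤ κ / 4 * Real.log L :=
    (Filter.Tendsto.const_mul_atTop (by positivity) Real.tendsto_log_atTop).eventually_ge_atTop 3
  have f5 : ∀ᶠ L : ℝ in Filter.atTop, 1 ≤ a * Real.log L :=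
    (Filter.Tendsto.const_mul_atTop ha0 Real.tendsto_log_atTop).eventually_ge_atTop 1
  have f6 := ev_le (a := c2) (b := c1) (C := 4 * Real.exp 1 * Real.exp 1 / δ ^ 2) h4 (by positivity)
  have f7 := ev_le (a := 0) (b := c1) (C := 1 / δ) hc1pos (by positivity)
  have f8 := ev_final c c1 c2 θ hc0 h3 h4 hc1lt (by linarith) hθ0
  have hL := (Real.tendsto_log_atTop.comp tendsto_natCast_atTop_atTop).eventually
    ((Filter.eventually_ge_atTop (1:ℝ)).and (f1.and (f2.and (f3.and (f4.and (f5.and (f6.and (f7.and f8))))))))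
  filter_upwards [hL, Filter.eventually_ge_atTop 1] with x hx hx1 B hB
  simp only [Function.comp_apply] at hx
  set L := Real.log x with hLdef
  obtain ⟨hL1, g1, g2, g3, g4, g5, g6, g7, g8⟩ := hx
  have hx0 : (0:ℝ) < x := by exact_mod_cast hx1
  have hxL : (x:ℝ) = Real.exp L := by rw [hLdef, Real.exp_log hx0]
  have hL0 : 0 < L := by linarith
  rw [Real.rpow_one, one_mul] at g2
  rw [Real.rpow_zero, mul_one] at g7
  have hLc1 : 1 ≤ L ^ c1 := Real.one_le_rpow hL1 hc1pos.le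
  set K := ⌈L ^ c1⌉₊ with hK
  set y := ⌊Real.exp (L ^ θ)⌋₊ with hy
  have hK1 : L ^ c1 ≤ K := Nat.le_ceil _
  have hK2 : (K:ℝ) < L ^ c1 + 1 := Nat.ceil_lt_add_one (by positivity)
  have hKpos : 1 ≤ K := by
    have : (1:ℝ) ≤ K := hLc1.trans hK1
    exact_mod_cast this
  have hKr : (0:ℝ) < K := by exact_mod_cast hKpos
  set r := Nat.log 2 K + 2 with hr
  have hr2 : 2 * K < 2 ^ r := by
    have := Nat.lt_pow_succ_log_self (b := 2) (by norm_num) K
    rw [hr, show Nat.log 2 K + 2 = (Nat.log 2 K).succ + 1 by rfl, pow_succ]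
    omega
  -- r upper bound
  have hrle : (r : ℝ) ≤ (1 - δ) * (a * Real.log L) := by
    have q1 : ((2:ℝ)) ^ (Nat.log 2 K) ≤ K := by
      exact_mod_cast Nat.pow_log_le_self 2 (by omega)
    have q2 : (Nat.log 2 K : ℝ) * Real.log 2 ≤ Real.log K := by
      rw [← Real.log_pow]
      exact Real.log_le_log (by positivity) q1
    have q3 : Real.log K ≤ Real.log 2 + c1 * Real.log L := by
      have : (K:ℝ) ≤ 2 * L ^ c1 := by linarith
      calc Real.log K ≤ Real.log (2 * L ^ c1) := Real.log_le_log hKr this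
        _ = _ := by rw [Real.log_mul (by norm_num) (by positivity), Real.log_rpow hL0]
    have q4 : (Nat.log 2 K : ℝ) ≤ 1 + c1 / Real.log 2 * Real.log L := by
      have : (Nat.log 2 K : ℝ) * Real.log 2 ≤ (1 + c1 / Real.log 2 * Real.log L) * Real.log 2 := by
        have : (1 + c1 / Real.log 2 * Real.log L) * Real.log 2 = Real.log 2 + c1 * Real.log L := by
          field_simp
        rw [this]; linarith
      exact le_of_mul_le_mul_right this hl2
    have q5 : (1 - δ) * (a * Real.log L) = (a - κ / 4) * Real.log L := by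
      rw [← hδa]; ring
    rw [q5, hr, ha]
    push_cast
    have q6 : (c1 / Real.log 2 + κ / 2 - κ / 4) * Real.log L = c1 / Real.log 2 * Real.log L + κ / 4 * Real.log L := by ring
    rw [q6]; linarith
  -- S lower bound
  set S := SS K y with hS
  have hSlow : a * Real.log L ≤ S := by
    rw [haθ] at g1
    refine g1.trans ?_
    unfold SE
    apply SS_anti _ le_rfl
    apply Nat.le_floor
    linarith
  have hS1 : 1 ≤ S := g5.trans hSlow
  have hδ1 : 0 ≤ 1 - δ := by
    have hr0 : (0:ℝ) ≤ r := by positivity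
    have : 0 < a * Real.log L := by linarith
    by_contra hneg
    push Not at hneg
    have : (1 - δ) * (a * Real.log L) < 0 := mul_neg_of_neg_of_pos hneg this
    linarith
  have hrS : (r:ℝ) ≤ (1 - δ) * S := hrle.trans (mul_le_mul_of_nonneg_left hSlow hδ1)
  have hrS' : δ * S ≤ S - r := by linarith
  have hrS'' : (r:ℝ) ≤ S := by
    have : 0 < δ * S := mul_pos hδ0 (by linarith)
    have h5 : (1 - δ) * S = S - δ * S := by ring
    linarith
  -- parameters
  obtain ⟨q, hq⟩ : ∃ q : ℕ, q = ⌊L ^ c2⌋₊ := ⟨_, rfl⟩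
  have hq1 : (q:ℝ) ≤ L ^ c2 := by rw [hq]; exact Nat.floor_le (by positivity)
  have hq2 : L ^ c2 - 1 < q := by rw [hq]; have := Nat.lt_floor_add_one (L ^ c2); linarith
  have hqpos : 1 ≤ q := by
    rw [hq]
    apply Nat.le_floor
    push_cast
    exact Real.one_le_rpow hL1 hc2pos.le
  have hq0 : (0:ℝ) < q := by exact_mod_cast hqpos
  set V := (K:ℝ) * S with hV
  have hV1 : L ^ c1 ≤ V := by
    calc L ^ c1 ≤ K := hK1
      _ = K * 1 := (mul_one _).symm
      _ ≤ K * S := by gcongr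
  have hVpos : 0 < V := by linarith
  have hqV : (q:ℝ) ≤ V := by
    have : L ^ c2 ≤ L ^ c1 := Real.rpow_le_rpow_of_exponent_le hL1 h4.le
    linarith
  set t := Real.sqrt (q / V) with ht
  have ht0 : 0 < t := Real.sqrt_pos.mpr (by positivity)
  have ht1 : t ≤ 1 := by
    calc t ≤ Real.sqrt 1 := Real.sqrt_le_sqrt (by rw [div_le_one hVpos]; exact hqV)
      _ = 1 := Real.sqrt_one
  -- split B
  set B1 := B.filter (fun n => K + 1 ≤ n) with hB1
  have hBcard : (B.card : ℝ) ≤ B1.card + K := by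
    have h5 : B ⊆ B1 ∪ Icc 1 K := by
      intro n hn
      rw [mem_union, hB1, mem_filter, mem_Icc]
      by_cases h : K + 1 ≤ n
      · exact Or.inl ⟨hn, h⟩
      · exact Or.inr ⟨(hB n hn).1, by omega⟩
    have h6 := (card_le_card h5).trans (card_union_le _ _)
    simp only [Nat.card_Icc, Nat.add_sub_cancel] at h6
    exact_mod_cast h6
  have hmem : ∀ n ∈ B1, (K + 1 ≤ n ∧ n ≤ x) ∧ ∀ k ∈ Icc 1 K, (n - k).divisors.card < 2 ^ r := by
    intro n hn
    rw [hB1, mem_filter] at hn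
    obtain ⟨hnB, hnK⟩ := hn
    obtain ⟨-, hnx, hm⟩ := hB n hnB
    refine ⟨⟨hnK, hnx⟩, ?_⟩
    intro k hk
    rw [mem_Icc] at hk
    have h5 := hm (n - k) (mem_Ico.mpr ⟨by omega, by omega⟩)
    rw [Nat.cast_sub (by omega)] at h5
    have h6 : L ^ c ≤ L ^ c1 := Real.rpow_le_rpow_of_exponent_le hL1 h1.le
    have h7 : ((n - k).divisors.card : ℝ) ≤ 2 * K := by
      have : (k:ℝ) ≤ K := by exact_mod_cast hk.2
      linarith
    have h8 : (n - k).divisors.card ≤ 2 * K := by exact_mod_cast h7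
    omega
  have hmain := exc_bound x K y r q t ht0 ht1 hrS'' B1 hmem
  have hfb := factorial_bound q V hVpos hqpos
  rw [← ht] at hfb
  have hmain2 : (B1.card : ℝ) * (K * (S - r)) ^ (2 * q) ≤
      (x + 1) * (2 * (4 * q * V * Real.exp 1) ^ q) + 2 * ((y : ℝ) * y) ^ (2 * q) := by
    refine hmain.trans ?_
    have : (0:ℝ) ≤ x + 1 := by positivity
    have h5 := mul_le_mul_of_nonneg_left hfb this
    linarith
  -- divide by (δ V)^{2q}
  have hδV : δ * V ≤ K * (S - r) := by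
    calc δ * V = K * (δ * S) := by rw [hV]; ring
      _ ≤ K * (S - r) := mul_le_mul_of_nonneg_left hrS' hKr.le
  have hδV1 : 1 ≤ δ * V := by
    have : 1 / δ ≤ V := g7.trans hV1
    rw [div_le_iff₀ hδ0] at this
    linarith
  have hδVpos : 0 < δ * V := by linarith
  have hpow1 : 1 ≤ (δ * V) ^ (2 * q) := one_le_pow₀ hδV1
  have hmain3 : (B1.card : ℝ) * (δ * V) ^ (2 * q) ≤
      (x + 1) * (2 * (4 * q * V * Real.exp 1) ^ q) + 2 * ((y : ℝ) * y) ^ (2 * q) := by
    exact le_trans (mul_le_mul_of_nonneg_left (pow_le_pow_left₀ hδVpos.le hδV _) (Nat.cast_nonneg _)) hmain2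
  have hA : (4 * q * V * Real.exp 1) ^ q ≤ Real.exp (1 - L ^ c2) * (δ * V) ^ (2 * q) := by
    have h5 : 4 * q * V * Real.exp 1 ≤ Real.exp (-1) * (δ * V) ^ 2 := by
      have h6 : 4 * Real.exp 1 * Real.exp 1 * q ≤ δ ^ 2 * V := by
        have h7 : 4 * Real.exp 1 * Real.exp 1 / δ ^ 2 * L ^ c2 ≤ V := g6.trans hV1
        have h8 : 4 * Real.exp 1 * Real.exp 1 / δ ^ 2 * q ≤ V := by
          refine le_trans ?_ h7
          gcongr
        have h9 : 4 * Real.exp 1 * Real.exp 1 / δ ^ 2 * q = (4 * Real.exp 1 * Real.exp 1 * q) / δ ^ 2 := by ring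
        rw [h9, div_le_iff₀ (by positivity)] at h8
        linarith
      rw [Real.exp_neg]
      have he : 0 < Real.exp 1 := Real.exp_pos 1
      rw [inv_mul_eq_div, le_div_iff₀ he]
      calc 4 * q * V * Real.exp 1 * Real.exp 1 = (4 * Real.exp 1 * Real.exp 1 * q) * V := by ring
        _ ≤ (δ ^ 2 * V) * V := by gcongr
        _ = (δ * V) ^ 2 := by ring
    calc (4 * q * V * Real.exp 1) ^ q ≤ (Real.exp (-1) * (δ * V) ^ 2) ^ q := by gcongr
      _ = Real.exp (-q) * (δ * V) ^ (2 * q) := by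
        rw [mul_pow, ← Real.exp_nat_mul, pow_mul]; congr 2; ring
      _ ≤ _ := by
        gcongr
        linarith
  have hY : ((y : ℝ) * y) ^ (2 * q) ≤ Real.exp (4 * L ^ (c2 + θ)) := by
    have h5 : (y:ℝ) ≤ Real.exp (L ^ θ) := Nat.floor_le (Real.exp_pos _).le
    calc ((y : ℝ) * y) ^ (2 * q) ≤ (Real.exp (L ^ θ) * Real.exp (L ^ θ)) ^ (2 * q) := by gcongr
      _ = Real.exp (4 * (q * L ^ θ)) := by
        rw [← Real.exp_add, ← Real.exp_nat_mul]; congr 1; push_cast; ring
      _ ≤ _ := by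
        rw [Real.exp_le_exp, Real.rpow_add hL0]
        have : (0:ℝ) < L ^ θ := by positivity
        have h6 : (q:ℝ) * L ^ θ ≤ L ^ c2 * L ^ θ := by gcongr
        linarith
  have hcard : (B1.card : ℝ) ≤ (x + 1) * (2 * Real.exp (1 - L ^ c2)) + 2 * Real.exp (4 * L ^ (c2 + θ)) := by
    have hp : 0 < (δ * V) ^ (2 * q) := by positivity
    have h5 : (B1.card : ℝ) * (δ * V) ^ (2 * q) ≤
        ((x + 1) * (2 * Real.exp (1 - L ^ c2)) + 2 * Real.exp (4 * L ^ (c2 + θ))) * (δ * V) ^ (2 * q) := by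
      refine hmain3.trans ?_
      have h6 : ((x:ℝ) + 1) * (2 * (4 * q * V * Real.exp 1) ^ q) ≤
          (x + 1) * (2 * (Real.exp (1 - L ^ c2) * (δ * V) ^ (2 * q))) := by gcongr
      have h7 : 2 * ((y : ℝ) * y) ^ (2 * q) ≤ 2 * Real.exp (4 * L ^ (c2 + θ)) * (δ * V) ^ (2 * q) := by
        calc 2 * ((y : ℝ) * y) ^ (2 * q) ≤ 2 * Real.exp (4 * L ^ (c2 + θ)) := by gcongr
          _ = 2 * Real.exp (4 * L ^ (c2 + θ)) * 1 := (mul_one _).symm
          _ ≤ _ := by gcongr
      calc _ ≤ (x + 1) * (2 * (Real.exp (1 - L ^ c2) * (δ * V) ^ (2 * q))) +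
            2 * Real.exp (4 * L ^ (c2 + θ)) * (δ * V) ^ (2 * q) := add_le_add h6 h7
        _ = _ := by ring
    exact le_of_mul_le_mul_right h5 hp
  rw [hxL] at hcard ⊢
  linarith

end Pool.Agent.helper94.DivMax
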