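import Mathlib

/-!
Second moment of the divisor function and the easy (upper) direction for
`f(n) = max_{m<n} (τ(m)+m-n)`.
-/

open Finset

namespace Pool.Agent.helper94.DivMax

/-- pairs of divisors are counted by triples `(g,a,b)` with `g a b ∣ m` -/
lemma sq_card_divisors_le (m x : ℕ) (hm : m ∈ Icc 1 x) :
    (m.divisors.card) ^ 2 ≤
      (((Icc 1 x ×ˢ Icc 1 x ×ˢ Icc 1 x)).filter (fun t => t.1 * t.2.1 * t.2.2 ∣ m)).card := by
  rw [mem_Icc] at hm
  rw [pow_two, ← card_product]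
  apply card_le_card_of_injOn (fun de => (Nat.gcd de.1 de.2, de.1 / Nat.gcd de.1 de.2, de.2 / Nat.gcd de.1 de.2))
  · rintro ⟨d, e⟩ hde
    simp only [coe_product, Set.mem_prod, mem_coe, Nat.mem_divisors] at hde
    obtain ⟨⟨hd, -⟩, ⟨he, -⟩⟩ := hde
    have hd0 : 0 < d := Nat.pos_of_dvd_of_pos hd (by omega)
    have he0 : 0 < e := Nat.pos_of_dvd_of_pos he (by omega)
    have hg0 : 0 < Nat.gcd d e := Nat.gcd_pos_of_pos_left _ hd0
    have hdx : d ≤ x := (Nat.le_of_dvd (by omega) hd).trans hm.2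
    have hex : e ≤ x := (Nat.le_of_dvd (by omega) he).trans hm.2
    have hgd := Nat.gcd_dvd_left d e
    have hge := Nat.gcd_dvd_right d e
    have hgd' := Nat.le_of_dvd hd0 hgd
    have hge' := Nat.le_of_dvd he0 hge
    simp only [coe_filter, mem_product, mem_Icc, Set.mem_ofPred_eq]
    refine ⟨⟨⟨hg0, by omega⟩, ⟨Nat.div_pos hgd' hg0, (Nat.div_le_self _ _).trans hdx⟩,
      ⟨Nat.div_pos hge' hg0, (Nat.div_le_self _ _).trans hex⟩⟩, ?_⟩
    have h1 : Nat.gcd d e * (d / Nat.gcd d e) * (e / Nat.gcd d e) = Nat.lcm d e := by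
      rw [Nat.mul_div_cancel' hgd, Nat.lcm, Nat.mul_div_assoc _ hge]
    rw [h1]
    exact Nat.lcm_dvd hd he
  · rintro ⟨d, e⟩ hde ⟨d', e'⟩ hde' h
    simp only [Prod.mk.injEq] at h
    obtain ⟨h1, h2, h3⟩ := h
    have e1 : d = Nat.gcd d e * (d / Nat.gcd d e) := (Nat.mul_div_cancel' (Nat.gcd_dvd_left d e)).symm
    have e2 : e = Nat.gcd d e * (e / Nat.gcd d e) := (Nat.mul_div_cancel' (Nat.gcd_dvd_right d e)).symm
    have e3 : d' = Nat.gcd d' e' * (d' / Nat.gcd d' e') := (Nat.mul_div_cancel' (Nat.gcd_dvd_left d' e')).symm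
    have e4 : e' = Nat.gcd d' e' * (e' / Nat.gcd d' e') := (Nat.mul_div_cancel' (Nat.gcd_dvd_right d' e')).symm
    have f1 : d = d' := by rw [e1, e3, h2, h1]
    have f2 : e = e' := by rw [e2, e4, h3, h1]
    rw [f1, f2]

lemma sum_sq_card_divisors_le (x : ℕ) :
    ∑ m ∈ Icc 1 x, (m.divisors.card : ℝ) ^ 2 ≤ x * (1 + Real.log x) ^ 3 := by
  have h1 : ∑ m ∈ Icc 1 x, (m.divisors.card : ℝ) ^ 2 ≤
      ∑ m ∈ Icc 1 x, ∑ t ∈ Icc 1 x ×ˢ Icc 1 x ×ˢ Icc 1 x,
        (if t.1 * t.2.1 * t.2.2 ∣ m then (1:ℝ) else 0) := by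
    apply sum_le_sum
    intro m hm
    have := sq_card_divisors_le m x hm
    rw [← sum_filter, sum_const, nsmul_eq_mul, mul_one]
    exact_mod_cast this
  have h2 : ∀ t ∈ Icc 1 x ×ˢ Icc 1 x ×ˢ Icc 1 x,
      ∑ m ∈ Icc 1 x, (if t.1 * t.2.1 * t.2.2 ∣ m then (1:ℝ) else 0) ≤
        x * ((1 / (t.1 : ℝ)) * ((1 / (t.2.1 : ℝ)) * (1 / (t.2.2 : ℝ)))) := by
    rintro ⟨g, a, b⟩ ht
    simp only [mem_product, mem_Icc] at ht
    obtain ⟨⟨hg, -⟩, ⟨ha, -⟩, ⟨hb, -⟩⟩ := ht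
    simp only
    rw [← sum_filter, sum_const, nsmul_eq_mul, mul_one]
    have h3 : ((Icc 1 x).filter (fun m => g * a * b ∣ m)).card = x / (g * a * b) := by
      have := Nat.Ioc_filter_dvd_card_eq_div x (g * a * b)
      rw [← this]
      congr 1
    rw [h3]
    have hg' : (0:ℝ) < g := by exact_mod_cast hg
    have ha' : (0:ℝ) < a := by exact_mod_cast ha
    have hb' : (0:ℝ) < b := by exact_mod_cast hb
    calc ((x / (g * a * b) : ℕ) : ℝ) ≤ (x : ℝ) / ((g * a * b : ℕ) : ℝ) := Nat.cast_div_le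
      _ = _ := by push_cast; field_simp
  rw [sum_comm] at h1
  refine h1.trans ((sum_le_sum h2).trans ?_)
  rw [← mul_sum, sum_product]
  simp_rw [sum_product]
  have h4 : ∑ i ∈ Icc 1 x, ∑ j ∈ Icc 1 x, ∑ k ∈ Icc 1 x,
      (1 / (i : ℝ)) * ((1 / (j : ℝ)) * (1 / (k : ℝ))) = (∑ i ∈ Icc 1 x, 1 / (i : ℝ)) ^ 3 := by
    have : ∀ i : ℕ, ∑ j ∈ Icc 1 x, ∑ k ∈ Icc 1 x, (1 / (i : ℝ)) * ((1 / (j : ℝ)) * (1 / (k : ℝ))) =
        (1 / (i:ℝ)) * (∑ i ∈ Icc 1 x, 1 / (i : ℝ)) ^ 2 := by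
      intro i
      rw [pow_two, sum_mul_sum, mul_sum]
      apply sum_congr rfl
      intro j _
      rw [mul_sum]
    simp_rw [this]
    rw [← sum_mul]; ring
  rw [h4]
  have h5 : ∑ i ∈ Icc 1 x, 1 / (i : ℝ) ≤ 1 + Real.log x := by
    have := harmonic_le_one_add_log x
    rw [harmonic_eq_sum_Icc] at this
    push_cast at this
    simpa [one_div] using this
  have h6 : 0 ≤ ∑ i ∈ Icc 1 x, 1 / (i : ℝ) := sum_nonneg (fun i _ => by positivity)
  gcongr

open scoped Classical in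
/-- For every `A > 0`, all but at most `x / A` of the `n ≤ x` satisfy
`τ(m) + m - n ≤ A (1 + log x)^3` for every `1 ≤ m < n`. -/
theorem upper_exc (x : ℕ) (A : ℝ) (hA : 0 < A) :
    (((Icc 1 x).filter (fun n : ℕ => ∃ m : ℕ, m ∈ Ico 1 n ∧
      A * (1 + Real.log x) ^ 3 < (m.divisors.card : ℝ) + m - n)).card : ℝ) ≤ x / A := by
  rcases Nat.eq_zero_or_pos x with rfl | hx
  · simp
  have hlog : 0 ≤ Real.log x := Real.log_natCast_nonneg x
  set F := A * (1 + Real.log x) ^ 3 with hF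
  have hF0 : 0 < F := by positivity
  -- bound by a double sum over k = n - m and m
  have h1 : (((Icc 1 x).filter (fun n : ℕ => ∃ m : ℕ, m ∈ Ico 1 n ∧ F < (m.divisors.card : ℝ) + m - n)).card : ℝ) ≤
      ∑ m ∈ Icc 1 x, ∑ k ∈ Icc 1 x, (m.divisors.card : ℝ) ^ 2 * (1 / ((k : ℝ) + F) ^ 2) := by
    have h2 : (((Icc 1 x).filter (fun n : ℕ => ∃ m : ℕ, m ∈ Ico 1 n ∧ F < (m.divisors.card : ℝ) + m - n))) ⊆
        ((Icc 1 x ×ˢ Icc 1 x).filter (fun mk : ℕ × ℕ => (mk.2 : ℝ) + F < mk.1.divisors.card)).image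
          (fun mk : ℕ × ℕ => mk.1 + mk.2) := by
      intro n hn
      simp only [mem_filter, mem_Icc, mem_Ico] at hn
      obtain ⟨⟨h1n, hnx⟩, m, ⟨hm1, hmn⟩, hlt⟩ := hn
      simp only [mem_image, mem_filter, mem_product, mem_Icc, Prod.exists]
      refine ⟨m, n - m, ⟨⟨⟨hm1, by omega⟩, ⟨by omega, by omega⟩⟩, ?_⟩, by omega⟩
      rw [Nat.cast_sub hmn.le]
      linarith
    have h3 := (card_le_card h2).trans card_image_le
    have h4 : (((Icc 1 x ×ˢ Icc 1 x).filter (fun mk : ℕ × ℕ => (mk.2 : ℝ) + F < mk.1.divisors.card)).card : ℝ) ≤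
        ∑ mk ∈ Icc 1 x ×ˢ Icc 1 x, (mk.1.divisors.card : ℝ) ^ 2 * (1 / ((mk.2 : ℝ) + F) ^ 2) := by
      rw [card_eq_sum_ones, sum_filter]
      push_cast
      apply sum_le_sum
      rintro ⟨m, k⟩ _
      simp only
      split_ifs with h
      · rw [mul_one_div, one_le_div (by positivity)]
        have : (0:ℝ) ≤ (k:ℝ) + F := by positivity
        gcongr
      · positivity
    rw [sum_product] at h4
    exact (by exact_mod_cast h3 : _ ≤ _).trans h4
  have h5 : ∑ k ∈ Icc 1 x, (1 / ((k : ℝ) + F) ^ 2) ≤ 1 / F := by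
    have h6 : ∀ n : ℕ, ∑ k ∈ Icc 1 n, (1 / ((k : ℝ) + F) ^ 2) ≤ 1 / F - 1 / (n + F) := by
      intro n
      induction n with
      | zero => simp
      | succ n ih =>
        rw [sum_Icc_succ_top (by omega)]
        have h7 : (1 / (((n + 1 : ℕ) : ℝ) + F) ^ 2) ≤ 1 / (n + F) - 1 / (((n + 1 : ℕ) : ℝ) + F) := by
          push_cast
          have a1 : (0:ℝ) < n + F := by positivity
          have a2 : (0:ℝ) < n + 1 + F := by positivity
          rw [div_sub_div _ _ a1.ne' a2.ne', div_le_div_iff₀ (by positivity) (by positivity)]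
          nlinarith
        linarith
    have := h6 x
    have h8 : (0:ℝ) ≤ 1 / (x + F) := by positivity
    linarith
  refine le_trans (le_of_eq ?_) (h1.trans ?_)
  · congr
  simp_rw [← mul_sum]
  rw [← sum_mul]
  have h9 := sum_sq_card_divisors_le x
  calc (∑ m ∈ Icc 1 x, (m.divisors.card : ℝ) ^ 2) * ∑ k ∈ Icc 1 x, (1 / ((k : ℝ) + F) ^ 2)
      ≤ (x * (1 + Real.log x) ^ 3) * (1 / F) := by
        apply mul_le_mul h9 h5 (sum_nonneg (fun i _ => by positivity)) (by positivity)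
    _ = x / A := by rw [hF]; field_simp

end Pool.Agent.helper94.DivMax
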