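import Mathlib
import Pool.Agent.helper94.Rainbow

set_option autoImplicit false

/-!
# Building rainbow cycles from arcs of a given rainbow cycle and chords
-/

namespace Pool.Agent.helper94.Rainbow

/-- A rainbow `m`-cycle unrolled: vertices `v x`, `x : ℤ`, of period `m`. -/
structure Frame {V C : Type} (c : Sym2 V → C) (m : ℕ) (v : ℤ → V) : Prop where
  per : ∀ x, v (x + m) = v x
  inj : ∀ x y, v x = v y → (m : ℤ) ∣ x - y
  cinj : ∀ x y, c s(v x, v (x + 1)) = c s(v y, v (y + 1)) → (m : ℤ) ∣ x - y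

variable {V C : Type} {c : Sym2 V → C} {m n : ℕ} {v : ℤ → V}

theorem HasRainbowCycle.exists_frame (h : HasRainbowCycle c m) : ∃ v : ℤ → V, Frame c m v := by
  obtain ⟨w, hw, hc⟩ := h
  refine ⟨fun x => w (x : ZMod m), ?_, ?_, ?_⟩
  · intro x; simp
  · intro x y hxy
    have := hw hxy
    rw [ZMod.intCast_eq_intCast_iff_dvd_sub] at this
    rw [← dvd_neg]; simpa using this
  · intro x y hxy
    have : (x : ZMod m) = (y : ZMod m) := by
      apply hc
      simpa using hxy
    rw [ZMod.intCast_eq_intCast_iff_dvd_sub] at this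
    rw [← dvd_neg]; simpa using this

theorem Frame.per_mul (F : Frame c m v) (x : ℤ) (k : ℤ) : v (x + m * k) = v x := by
  induction k using Int.induction_on with
  | zero => simp
  | succ k ih => rw [show x + (m : ℤ) * (k + 1) = x + m * k + m by ring, F.per, ih]
  | pred k ih =>
    rw [← F.per, show x + (m : ℤ) * (-k - 1) + m = x + m * (-k) by ring, ih]

/-- the reflected frame -/
theorem Frame.reflect (F : Frame c m v) : Frame c m (fun x => v (-x)) := by
  refine ⟨?_, ?_, ?_⟩
  · intro x
    show v (-(x + m)) = v (-x)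
    rw [← F.per (-(x + m))]
    congr 1; ring
  · intro x y hxy
    have := F.inj _ _ hxy
    rw [show x - y = -(-x - -y) by ring]
    exact (dvd_neg).mpr this
  · intro x y hxy
    have key : ∀ z : ℤ, c s(v (-z), v (-(z + 1))) = c s(v (-z - 1), v (-z - 1 + 1)) := by
      intro z
      rw [Sym2.eq_swap]
      congr 3 <;> ring
    have h1 : c s(v (-x - 1), v (-x - 1 + 1)) = c s(v (-y - 1), v (-y - 1 + 1)) := by
      rw [← key, ← key]; exact hxy
    have := F.cinj _ _ h1
    rw [show x - y = -((-x - 1) - (-y - 1)) by ring]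
    exact (dvd_neg).mpr this

/-- labelled paths: start, end, list of positions, list of colour labels -/
inductive LP (c : Sym2 V → C) (v : ℤ → V) : ℤ → ℤ → List ℤ → List ℤ → Prop
  | single (x : ℤ) : LP c v x x [x] []
  | cons {x y z : ℤ} {l t : List ℤ} (γ : ℤ) (h : c s(v x, v y) = c s(v γ, v (γ + 1)))
      (hp : LP c v y z l t) : LP c v x z (x :: l) (γ :: t)

theorem LP.append {x y x' y' γ : ℤ} {l t l' t' : List ℤ} (h1 : LP c v x y l t)
    (h : c s(v y, v x') = c s(v γ, v (γ + 1))) (h2 : LP c v x' y' l' t') :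
    LP c v x y' (l ++ l') (t ++ γ :: t') := by
  induction h1 with
  | single x => exact LP.cons γ h h2
  | cons δ hδ _ ih => exact LP.cons δ hδ (ih h)

/-- A rainbow path from `x` to `y` with `k` vertices, positions in `S`, colour labels in `T`. -/
def Seg (c : Sym2 V → C) (v : ℤ → V) (S T : Set ℤ) (x y : ℤ) (k : ℕ) : Prop :=
  ∃ l t, LP c v x y l t ∧ l.Nodup ∧ t.Nodup ∧ l.length = k ∧ (∀ p ∈ l, p ∈ S) ∧ (∀ q ∈ t, q ∈ T)

theorem Seg.mono {S T S' T' : Set ℤ} {x y : ℤ} {k : ℕ} (h : Seg c v S T x y k) (hS : S ⊆ S')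
    (hT : T ⊆ T') : Seg c v S' T' x y k := by
  obtain ⟨l, t, h1, h2, h3, h4, h5, h6⟩ := h
  exact ⟨l, t, h1, h2, h3, h4, fun p hp => hS (h5 p hp), fun q hq => hT (h6 q hq)⟩

theorem Seg.join {S T S' T' : Set ℤ} {x y x' y' : ℤ} {k k' : ℕ} (h1 : Seg c v S T x y k)
    (h2 : Seg c v S' T' x' y' k') (hS : Disjoint S S') (hT : Disjoint T T') (γ : ℤ) (hγ : γ ∉ T)
    (hγ' : γ ∉ T') (h : c s(v y, v x') = c s(v γ, v (γ + 1))) :
    Seg c v (S ∪ S') (insert γ (T ∪ T')) x y' (k + k') := by
  obtain ⟨l, t, a1, a2, a3, a4, a5, a6⟩ := h1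
  obtain ⟨l', t', b1, b2, b3, b4, b5, b6⟩ := h2
  refine ⟨l ++ l', t ++ γ :: t', a1.append h b1, ?_, ?_, by simp [a4, b4], ?_, ?_⟩
  · refine List.Nodup.append a2 b2 ?_
    intro p hp hp'
    exact Set.disjoint_left.mp hS (a5 p hp) (b5 p hp')
  · refine List.Nodup.append a3 (List.nodup_cons.mpr ⟨fun hq => hγ' (b6 _ hq), b3⟩) ?_
    intro q hq hq'
    rcases List.mem_cons.mp hq' with rfl | hq'
    · exact hγ (a6 _ hq)
    · exact Set.disjoint_left.mp hT (a6 q hq) (b6 q hq')
  · intro p hp
    rcases List.mem_append.mp hp with hp | hp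
    · exact Or.inl (a5 p hp)
    · exact Or.inr (b5 p hp)
  · intro q hq
    rcases List.mem_append.mp hq with hq | hq
    · exact Or.inr (Or.inl (a6 q hq))
    · rcases List.mem_cons.mp hq with rfl | hq
      · exact Or.inl rfl
      · exact Or.inr (Or.inr (b6 q hq))

theorem Seg.up_nat (a : ℤ) (k : ℕ) :
    Seg c v (Set.Icc a (a + k)) (Set.Ico a (a + k)) a (a + k) (k + 1) := by
  induction k generalizing a with
  | zero =>
    simp only [Nat.cast_zero, add_zero, Nat.zero_add]
    exact ⟨[a], [], LP.single a, by simp, by simp, rfl, by simp, by simp⟩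
  | succ k ih =>
    have h1 : Seg c v {a} ∅ a a 1 := ⟨[a], [], LP.single a, by simp, by simp, rfl, by simp, by simp⟩
    have h2 := ih (a + 1)
    have h3 := h1.join h2 (by
      rw [Set.disjoint_left]; intro p hp hp'
      simp only [Set.mem_singleton_iff] at hp
      simp only [Set.mem_Icc] at hp'
      omega) (by simp) a (by simp) (by simp) rfl
    have e : a + 1 + (k : ℤ) = a + (k + 1 : ℕ) := by push_cast; ring
    rw [e, show 1 + (k + 1) = k + 1 + 1 by ring] at h3
    refine h3.mono ?_ ?_
    · intro p hp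
      simp only [Set.mem_union, Set.mem_singleton_iff, Set.mem_Icc] at hp ⊢
      push_cast at hp ⊢
      omega
    · intro p hp
      simp only [Set.mem_union, Set.mem_insert_iff, Set.mem_empty_iff_false, false_or,
        Set.mem_Ico] at hp ⊢
      push_cast at hp ⊢
      omega

theorem LP.reverse {x y : ℤ} {l t : List ℤ} (h : LP c v x y l t) :
    LP c v y x l.reverse t.reverse := by
  induction h with
  | single x => exact LP.single x
  | @cons x y z l t γ hγ _ ih =>
    have := ih.append (x' := x) (γ := γ) (by rw [Sym2.eq_swap]; exact hγ) (LP.single x)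
    simpa using this

theorem Seg.reverse {S T : Set ℤ} {x y : ℤ} {k : ℕ} (h : Seg c v S T x y k) :
    Seg c v S T y x k := by
  obtain ⟨l, t, h1, h2, h3, h4, h5, h6⟩ := h
  exact ⟨l.reverse, t.reverse, h1.reverse, List.nodup_reverse.mpr h2, List.nodup_reverse.mpr h3,
    by simp [h4], fun p hp => h5 p (List.mem_reverse.mp hp),
    fun q hq => h6 q (List.mem_reverse.mp hq)⟩

theorem Seg.up {a b : ℤ} {k : ℕ} (hk : a + k = b + 1) (hab : a ≤ b) :
    Seg c v (Set.Icc a b) (Set.Ico a b) a b k := by
  obtain ⟨j, hj⟩ : ∃ j : ℕ, k = j + 1 := ⟨k - 1, by omega⟩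
  subst hj
  have e : b = a + j := by push_cast at hk; omega
  subst e
  exact Seg.up_nat a j

theorem Seg.down {a b : ℤ} {k : ℕ} (hk : a + k = b + 1) (hab : a ≤ b) :
    Seg c v (Set.Icc a b) (Set.Ico a b) b a k := (Seg.up hk hab).reverse

/-- the first vertex of a labelled path -/
theorem LP.head {x y : ℤ} {l t : List ℤ} (h : LP c v x y l t) : l.head? = some x := by
  cases h <;> rfl

theorem LP.length {x y : ℤ} {l t : List ℤ} (h : LP c v x y l t) : l.length = t.length + 1 := by
  induction h with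
  | single x => rfl
  | cons γ _ _ ih => simp [ih]

theorem LP.getD_zero {x y : ℤ} {l t : List ℤ} (h : LP c v x y l t) : l.getD 0 0 = x := by
  cases h <;> rfl

theorem LP.getD_last {x y : ℤ} {l t : List ℤ} (h : LP c v x y l t) : l.getD t.length 0 = y := by
  induction h with
  | single x => rfl
  | cons γ _ _ ih => simpa using ih

theorem LP.getD_step {x y : ℤ} {l t : List ℤ} (h : LP c v x y l t) : ∀ k, k < t.length →
    c s(v (l.getD k 0), v (l.getD (k + 1) 0)) = c s(v (t.getD k 0), v (t.getD k 0 + 1)) := by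
  induction h with
  | single x => intro k hk; simp at hk
  | @cons x y z l t γ hγ hp ih =>
    intro k hk
    cases k with
    | zero =>
      have h0 := hp.getD_zero
      simp only [List.getD_cons_succ, List.getD_cons_zero]
      rw [h0]; exact hγ
    | succ k =>
      have := ih k (by simpa using hk)
      simpa using this

/-- Closing up a labelled path to a rainbow cycle; the closing chord may have any colour which is
not one of the labels. -/
theorem Seg.close (F : Frame c m v) {S T : Set ℤ} {x y : ℤ} (h : Seg c v S T x y n)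
    (hn : 3 ≤ n) (B B' : ℤ) (hS : ∀ p ∈ S, B ≤ p ∧ p < B + m) (hT : ∀ q ∈ T, B' ≤ q ∧ q < B' + m)
    (hc : ∀ q ∈ T, c s(v y, v x) ≠ c s(v q, v (q + 1))) : HasRainbowCycle c n := by
  obtain ⟨l, t, h1, h2, h3, h4, h5, h6⟩ := h
  have hlen := h1.length
  have hwin : ∀ B0 a b : ℤ, B0 ≤ a → a < B0 + m → B0 ≤ b → b < B0 + m → (m : ℤ) ∣ a - b → a = b := by
    intro B0 a b h1 h2 h3 h4 hd
    obtain ⟨k, hk⟩ := hd
    have hm : (0 : ℤ) < m := by omega
    have hk1 : k < 1 := by
      by_contra hcon
      have : (m : ℤ) * 1 ≤ m * k := by gcongr; omega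
      omega
    have hk2 : -1 < k := by
      by_contra hcon
      have : (m : ℤ) * k ≤ m * (-1) := by gcongr; omega
      omega
    have : k = 0 := by omega
    subst this
    omega
  have hnd : ∀ (L : List ℤ), L.Nodup → ∀ i j, i < L.length → j < L.length →
      L.getD i 0 = L.getD j 0 → i = j := by
    intro L hL i j hi hj hij
    rw [List.getD_eq_getElem _ _ hi, List.getD_eq_getElem _ _ hj] at hij
    exact (List.Nodup.getElem_inj_iff hL).mp hij
  have hmem : ∀ (L : List ℤ) i, i < L.length → L.getD i 0 ∈ L := by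
    intro L i hi
    rw [List.getD_eq_getElem _ _ hi]
    exact List.getElem_mem hi
  refine IsRC.hasRainbowCycle (f := fun k => v (l.getD (k % n) 0)) hn ⟨?_, ?_, ?_⟩
  · intro k
    simp only [Nat.add_mod_right]
  · intro i j hi hj hij
    simp only [Nat.mod_eq_of_lt hi, Nat.mod_eq_of_lt hj] at hij
    have hd := F.inj _ _ hij
    have hi' : i < l.length := by omega
    have hj' : j < l.length := by omega
    obtain ⟨b1, b2⟩ := hS _ (h5 _ (hmem l i hi'))
    obtain ⟨b3, b4⟩ := hS _ (h5 _ (hmem l j hj'))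
    exact hnd l h2 i j hi' hj' (hwin B _ _ b1 b2 b3 b4 hd)
  · have hcol : ∀ i, i < n - 1 → c s(v (l.getD (i % n) 0), v (l.getD ((i + 1) % n) 0)) =
        c s(v (t.getD i 0), v (t.getD i 0 + 1)) := by
      intro i hi
      rw [Nat.mod_eq_of_lt (by omega), Nat.mod_eq_of_lt (by omega)]
      exact h1.getD_step i (by omega)
    have hlast : c s(v (l.getD ((n - 1) % n) 0), v (l.getD ((n - 1 + 1) % n) 0)) =
        c s(v y, v x) := by
      rw [Nat.mod_eq_of_lt (by omega), show n - 1 + 1 = n by omega, Nat.mod_self, h1.getD_zero,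
        show n - 1 = t.length by omega, h1.getD_last]
    intro i j hi hj hij
    have hij' : c s(v (l.getD (i % n) 0), v (l.getD ((i + 1) % n) 0)) =
      c s(v (l.getD (j % n) 0), v (l.getD ((j + 1) % n) 0)) := hij
    rcases Nat.lt_or_ge i (n - 1) with hi1 | hi1 <;> rcases Nat.lt_or_ge j (n - 1) with hj1 | hj1
    · rw [hcol i hi1, hcol j hj1] at hij'
      have hd := F.cinj _ _ hij'
      have hi' : i < t.length := by omega
      have hj' : j < t.length := by omega
      obtain ⟨b1, b2⟩ := hT _ (h6 _ (hmem t i hi'))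
      obtain ⟨b3, b4⟩ := hT _ (h6 _ (hmem t j hj'))
      exact hnd t h3 i j hi' hj' (hwin B' _ _ b1 b2 b3 b4 hd)
    · have hj2 : j = n - 1 := by omega
      subst hj2
      rw [hcol i hi1, hlast] at hij'
      exact absurd hij'.symm (hc _ (h6 _ (hmem t i (by omega))))
    · have hi2 : i = n - 1 := by omega
      subst hi2
      rw [hcol j hj1, hlast] at hij'
      exact absurd hij' (hc _ (h6 _ (hmem t j (by omega))))
    · omega

end Pool.Agent.helper94.Rainbow
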