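import Mathlib

set_option autoImplicit false

/-!
# The combinatorial core of the proof that `2n - 3` implies `n`
-/

namespace Pool.Agent.helper94.RainbowCore

variable {h : ℤ} {e : ℤ → ℤ}

theorem per_mul (hper : ∀ x, e (x + (4 * h - 1)) = e x) (x : ℤ) (k : ℕ) :
    e (x + (4 * h - 1) * k) = e x := by
  induction k with
  | zero => simp
  | succ k ih =>
    rw [show x + (4 * h - 1) * ((k + 1 : ℕ) : ℤ) = x + (4 * h - 1) * k + (4 * h - 1) by
      push_cast; ring, hper, ih]

/-- some point is of the first type -/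
theorem exists_typeA (he0 : ∀ x, 0 ≤ e x) (he1 : ∀ x, e x ≤ h - 2)
    (hper : ∀ x, e (x + (4 * h - 1)) = e x)
    (star : ∀ x, 1 ≤ e x → h ≤ e x + e (x - h + e x) ∨ e (x - h) = e x + e (x - h + e x))
    (hex : ∃ x, e x ≠ 0) : ∃ x, 1 ≤ e x ∧ h ≤ e x + e (x - h + e x) := by
  by_contra hcon
  push Not at hcon
  have hB : ∀ x, 1 ≤ e x → e (x - h) = e x + e (x - h + e x) := by
    intro x hx
    rcases star x hx with h1 | h1
    · exact absurd h1 (not_le.mpr (hcon x hx))
    · exact h1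
  obtain ⟨M, ⟨x, hx⟩, hM⟩ := Int.exists_greatest_of_bdd (P := fun z => ∃ x, e x = z)
    ⟨h, by rintro z ⟨x, rfl⟩; have := he1 x; omega⟩ ⟨e 0, 0, rfl⟩
  have hM' : ∀ y, e y ≤ M := fun y => hM _ ⟨y, rfl⟩
  obtain ⟨x0, hx0⟩ := hex
  have hM1 : 1 ≤ M := by
    have h1 := he0 x0
    have h2 := hM' x0
    omega
  have hstep : ∀ y, e y = M → e (y - h) = M ∧ e (y - h + M) = 0 := by
    intro y hy
    have h1 := hB y (by omega)
    rw [hy] at h1
    have h2 := hM' (y - h)
    have h3 := he0 (y - h + M)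
    omega
  have hall : ∀ k : ℕ, e (x - h * k) = M := by
    intro k
    induction k with
    | zero => simpa using hx
    | succ k ih =>
      have := (hstep _ ih).1
      rw [show x - h * ((k + 1 : ℕ) : ℤ) = x - h * k - h by push_cast; ring]
      exact this
  have hMh := he1 x
  obtain ⟨D, hD⟩ : ∃ D : ℕ, (D : ℤ) = h - M := ⟨(h - M).toNat, Int.toNat_of_nonneg (by omega)⟩
  have h1 := hall (4 * D)
  have h2 := per_mul hper (x - h * ((4 * D : ℕ) : ℤ)) D
  rw [h1, show x - h * ((4 * D : ℕ) : ℤ) + (4 * h - 1) * (D : ℤ) = x - h + M by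
    push_cast; linear_combination (-1 : ℤ) * hD] at h2
  rw [(hstep x hx).2] at h2
  omega

theorem core_zero (hh : 3 ≤ h) (he0 : ∀ x, 0 ≤ e x) (he1 : ∀ x, e x ≤ h - 2)
    (hper : ∀ x, e (x + (4 * h - 1)) = e x)
    (T : ∀ x y z, 0 ≤ y - x - h → y - x - h ≤ e x → 0 ≤ z - y - h → z - y - h ≤ e y →
      0 ≤ x + (4 * h - 1) - z - h → x + (4 * h - 1) - z - h ≤ e z → False)
    (star : ∀ x, 1 ≤ e x → h ≤ e x + e (x - h + e x) ∨ e (x - h) = e x + e (x - h + e x)) :
    ∀ x, e x = 0 := by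
  by_contra hex
  push Not at hex
  obtain ⟨x0, hx0, hx0'⟩ := exists_typeA he0 he1 hper star hex
  -- the first type propagates
  have hprop : ∀ x, 1 ≤ e x → h ≤ e x + e (x - h + e x) →
      1 ≤ e (x - h + e x) ∧
        h ≤ e (x - h + e x) + e (x - h + e x - h + e (x - h + e x)) := by
    intro x h1 h2
    have h3 := he1 x
    set k := x - h + e x with hk
    have h4 : 1 ≤ e k := by omega
    refine ⟨h4, ?_⟩
    rcases star k h4 with h5 | h5
    · exact h5
    · exfalso
      have h6 := he0 (k - h + e k)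
      have h7 := he0 (x + h + (e x - 1))
      have h8 : k - h + (4 * h - 1) - (x + h + (e x - 1)) - h = 0 := by omega
      exact T (k - h) x (x + h + (e x - 1)) (by omega) (by omega) (by omega) (by omega)
        (by omega) (by omega)
  -- the walk
  obtain ⟨X, hXA, hXs⟩ : ∃ X : ℕ → ℤ, (∀ t, 1 ≤ e (X t) ∧ h ≤ e (X t) + e (X (t + 1))) ∧
      ∀ t, X (t + 1) = X t - h + e (X t) := by
    let W : ℕ → {x : ℤ // 1 ≤ e x ∧ h ≤ e x + e (x - h + e x)} := fun t =>
      Nat.rec ⟨x0, hx0, hx0'⟩ (fun _ y => ⟨y.1 - h + e y.1, hprop y.1 y.2.1 y.2.2⟩) t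
    refine ⟨fun t => (W t).1, fun t => ⟨(W t).2.1, (W t).2.2⟩, fun t => rfl⟩
  -- largest value attained infinitely often
  obtain ⟨H, hH⟩ : ∃ H : ℕ, (H : ℤ) = h := ⟨h.toNat, Int.toNat_of_nonneg (by omega)⟩
  classical
  have hP : ∃ k : ℕ, ∃ T0 : ℕ, ∀ t, T0 ≤ t → e (X t) ≤ k := ⟨H, 0, fun t _ => by
    have := he1 (X t); omega⟩
  obtain ⟨T0, hT0⟩ := Nat.find_spec hP
  set k0 := Nat.find hP with hk0
  have hk0pos : 1 ≤ k0 := by
    have h1 := hT0 T0 le_rfl
    have h2 := (hXA T0).1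
    omega
  have hnot : ¬ ∃ T0 : ℕ, ∀ t, T0 ≤ t → e (X t) ≤ ((k0 - 1 : ℕ) : ℤ) :=
    Nat.find_min hP (by omega)
  push Not at hnot
  obtain ⟨ts, hts, hts'⟩ := hnot (T0 + 4 * H)
  have hets : e (X ts) = k0 := by
    have := hT0 ts (by omega)
    omega
  -- the points above `X ts`
  set z : ℕ → ℤ := fun j => X (ts - j) with hz
  have hz0 : z 0 = X ts := rfl
  have hzstep : ∀ j, j + 1 ≤ 4 * H → z (j + 1) - z j = h - e (z (j + 1)) ∧
      e (z (j + 1)) ≤ k0 ∧ h ≤ e (z (j + 1)) + e (z j) ∧ e (z j) ≤ k0 := by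
    intro j hj
    have h1 := hXs (ts - (j + 1))
    have h2 := hXA (ts - (j + 1))
    rw [show ts - (j + 1) + 1 = ts - j by omega] at h1 h2
    have h3 := hT0 (ts - (j + 1)) (by omega)
    have h4 := hT0 (ts - j) (by omega)
    simp only [hz]
    omega
  have hzgrow : ∀ j, j ≤ 4 * H → z 0 + 2 * j ≤ z j := by
    intro j
    induction j with
    | zero => intro _; simp
    | succ j ih =>
      intro hj
      have h1 := ih (by omega)
      have h2 := (hzstep j hj).1
      have h3 := he1 (z (j + 1))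
      push_cast
      omega
  have hexj : ∃ j, z 0 + h ≤ z j := ⟨H, by have := hzgrow H (by omega); omega⟩
  have hj := Nat.find_spec hexj
  set j := Nat.find hexj with hjdef
  have hjH : j ≤ H := Nat.find_min' hexj (by have := hzgrow H (by omega); omega)
  have hj0 : j ≠ 0 := by
    intro h0
    rw [h0] at hj
    omega
  have hjm : z (j - 1) < z 0 + h := by
    have := Nat.find_min hexj (show j - 1 < j by omega)
    omega
  have s1 := hzstep (j - 1) (by omega)
  rw [show j - 1 + 1 = j by omega] at s1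
  have s2 := hzstep j (by omega)
  have s3 := hzstep (j + 1) (by omega)
  have s4 := hzstep (j + 2) (by omega)
  rw [show j + 1 + 1 = j + 2 by omega] at s3
  rw [show j + 2 + 1 = j + 3 by omega] at s4
  have hz0e : e (z 0) = k0 := hets
  have hk0h : (k0 : ℤ) ≤ h - 2 := by rw [← hz0e]; exact he1 _
  have n1 := he0 (z j)
  have n2 := he0 (z (j + 1))
  have n3 := he0 (z (j + 2))
  have n4 := he0 (z (j + 3))
  -- step a
  have ha : z 0 + h + k0 < z (j + 1) := by
    by_contra hle
    push Not at hle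
    have h7 := he0 (z 0 + (4 * h - 1) - h)
    refine T (z 0) (z (j + 1)) (z 0 + (4 * h - 1) - h) (by omega) (by omega) ?_ ?_ (by omega)
      (by omega)
    · omega
    · omega
  -- step c
  obtain ⟨s11, s12, s13, s14⟩ := s1
  obtain ⟨s21, s22, s23, s24⟩ := s2
  obtain ⟨s31, s32, s33, s34⟩ := s3
  obtain ⟨s41, s42, s43, s44⟩ := s4
  have u1 : z (j + 3) ≤ z (j + 1) + h := by linarith
  have u2 : z (j + 1) ≤ z (j - 1) + h := by linarith
  have u3 : z (j - 1) + h = z j + e (z j) := by linarith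
  have u4 : z 0 + 2 * h ≤ z (j + 2) := by linarith
  have u5 : z (j + 2) + h = z (j + 3) + e (z (j + 3)) := by linarith
  have u6 : z j - z (j - 1) ≤ k0 := by linarith
  by_cases hcase : z j + h ≤ z (j + 3)
  · exact T (z 0) (z j) (z (j + 3)) (by omega) (by omega) (by omega) (by omega) (by omega)
      (by omega)
  · have h8 := he0 (z (j + 3) - h)
    exact T (z 0) (z (j + 3) - h) (z (j + 3)) (by omega) (by omega) (by omega) (by omega)
      (by omega) (by omega)

end Pool.Agent.helper94.RainbowCore
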