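import Mathlib
import Pool.Agent.helper94.RainbowArc
import Pool.Agent.helper94.RainbowCore

set_option autoImplicit false

/-!
# `2n - 3` implies `n` for odd `n ≥ 7`
-/

namespace Pool.Agent.helper94.RainbowTwice

open Pool.Agent.helper94.Rainbow Pool.Agent.helper94.RainbowCore

variable {V C : Type} {c : Sym2 V → C} {m n : ℕ} {v : ℤ → V}

theorem Frame.window (F : Frame c m v) {B a b : ℤ} (h1 : B ≤ a) (h2 : a < B + m) (h3 : B ≤ b)
    (h4 : b < B + m) (h : c s(v a, v (a + 1)) = c s(v b, v (b + 1))) : a = b := by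
  obtain ⟨k, hk⟩ := F.cinj _ _ h
  have hm : (0 : ℤ) < m := by omega
  have hk1 : k < 1 := by
    by_contra hcon
    have : (m : ℤ) * 1 ≤ m * k := by gcongr; omega
    omega
  have hk2 : -1 < k := by
    by_contra hcon
    have : (m : ℤ) * k ≤ m * (-1) := by gcongr; omega
    omega
  have : k = 0 := by omega
  subst this
  omega

/-- a path that cannot be closed up: the closing chord has one of the labels -/
theorem Seg.mem (F : Frame c m v) (hno : ¬ HasRainbowCycle c n) {S T : Set ℤ} {x y : ℤ} {k : ℕ}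
    (h : Seg c v S T x y k) (hk : k = n) (hn : 3 ≤ n) (B B' : ℤ)
    (hS : ∀ p ∈ S, B ≤ p ∧ p < B + m) (hT : ∀ q ∈ T, B' ≤ q ∧ q < B' + m) :
    ∃ q ∈ T, c s(v y, v x) = c s(v q, v (q + 1)) := by
  by_contra hcon
  push Not at hcon
  subst hk
  exact hno (h.close F hn B B' hS hT hcon)

/-- everything for the case `2n - 3` where `n = 2h + 1` -/
structure Setup (c : Sym2 V → C) (h : ℕ) (v : ℤ → V) : Prop where
  F : Frame c (4 * h - 1) v
  hh : 3 ≤ h
  no : ¬ HasRainbowCycle c (2 * h + 1)

variable {h : ℕ}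

theorem Setup.cast (S : Setup c h v) : ((4 * h - 1 : ℕ) : ℤ) = 4 * (h : ℤ) - 1 := by
  have := S.hh
  omega

theorem Setup.chord (S : Setup c h v) (i : ℤ) :
    ∃ γ, i ≤ γ ∧ γ < i + 2 * h ∧ c s(v i, v (i + 2 * h)) = c s(v γ, v (γ + 1)) := by
  have hc := S.cast
  have hh := S.hh
  have h1 : Seg c v (Set.Icc i (i + 2 * h)) (Set.Ico i (i + 2 * h)) i (i + 2 * h) (2 * h + 1) :=
    Seg.up (by push_cast; ring) (by omega)
  obtain ⟨q, hq, hq2⟩ := Seg.mem S.F S.no h1 rfl (by omega) i i
    (fun p hp => by simp only [Set.mem_Icc] at hp; omega)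
    (fun p hp => by simp only [Set.mem_Ico] at hp; omega)
  simp only [Set.mem_Ico] at hq
  exact ⟨q, hq.1, hq.2, by rw [Sym2.eq_swap]; exact hq2⟩

/-- a choice of labels for the long chords -/
structure Lab (c : Sym2 V → C) (h : ℕ) (v : ℤ → V) (cc : ℤ → ℤ) : Prop extends Setup c h v where
  lo : ∀ i, i ≤ cc i
  hi : ∀ i, cc i < i + 2 * h
  eq : ∀ i, c s(v i, v (i + 2 * h)) = c s(v (cc i), v (cc i + 1))

theorem Setup.exists_lab (S : Setup c h v) : ∃ cc, Lab c h v cc := by
  choose cc h1 h2 h3 using S.chord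
  exact ⟨cc, S, h1, h2, h3⟩

variable {cc : ℤ → ℤ}

theorem Lab.per (L : Lab c h v cc) (i : ℤ) : cc (i + (4 * h - 1)) = cc i + (4 * h - 1) := by
  have hc := L.cast
  have hh := L.hh
  have h1 := L.eq (i + (4 * h - 1))
  have h2 := L.eq i
  have e1 : v (i + (4 * h - 1)) = v i := by rw [← hc]; exact L.F.per i
  have e2 : v (i + (4 * h - 1) + 2 * h) = v (i + 2 * h) := by
    rw [← hc, show i + ((4 * h - 1 : ℕ) : ℤ) + 2 * h = i + 2 * h + ((4 * h - 1 : ℕ) : ℤ) by ring]
    exact L.F.per _
  rw [e1, e2, h2] at h1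
  have h3 := L.lo i
  have h4 := L.hi i
  have h5 := L.lo (i + (4 * h - 1))
  have h6 := L.hi (i + (4 * h - 1))
  have h7 : c s(v (cc i + (4 * h - 1)), v (cc i + (4 * h - 1) + 1)) =
      c s(v (cc (i + (4 * h - 1))), v (cc (i + (4 * h - 1)) + 1)) := by
    rw [← h1]
    have e3 : v (cc i + (4 * h - 1)) = v (cc i) := by rw [← hc]; exact L.F.per _
    have e4 : v (cc i + (4 * h - 1) + 1) = v (cc i + 1) := by
      rw [← hc, show cc i + ((4 * h - 1 : ℕ) : ℤ) + 1 = cc i + 1 + ((4 * h - 1 : ℕ) : ℤ) by ring]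
      exact L.F.per _
    rw [e3, e4]
  exact (Frame.window L.F (B := i + (4 * h - 1)) (by omega) (by omega) (by omega) (by omega)
    h7).symm

/-- two crossing long chords -/
theorem Lab.typeA (L : Lab c h v cc) (i : ℤ) (h1 : i + h ≤ cc i) : i ≤ cc (i - h) := by
  by_contra hlt
  have hc := L.cast
  have hh := L.hh
  have a1 := L.lo (i - h)
  have a2 := L.hi i
  have s1 : Seg c v (Set.Icc i (i + h)) (Set.Ico i (i + h)) i (i + h) (h + 1) :=
    Seg.up (by push_cast; ring) (by omega)
  have s2 : Seg c v (Set.Icc (i + 2 * h) (i + 3 * h - 1)) (Set.Ico (i + 2 * h) (i + 3 * h - 1))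
      (i + 3 * h - 1) (i + 2 * h) h := Seg.down (by ring) (by omega)
  have e1 : c s(v (i + h), v (i + 3 * h - 1)) = c s(v (cc (i - h)), v (cc (i - h) + 1)) := by
    rw [← L.eq (i - h), Sym2.eq_swap]
    have e2 : v (i + 3 * h - 1) = v (i - h) := by
      rw [show i + 3 * (h : ℤ) - 1 = i - h + (4 * h - 1) by ring, ← hc]; exact L.F.per _
    rw [e2]
    congr 3; ring
  have s3 := s1.join s2 (by
      rw [Set.disjoint_left]; intro p hp hp'
      simp only [Set.mem_Icc] at hp hp'; omega) (by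
      rw [Set.disjoint_left]; intro p hp hp'
      simp only [Set.mem_Ico] at hp hp'; omega) (cc (i - h))
      (by simp only [Set.mem_Ico]; omega) (by simp only [Set.mem_Ico]; omega) e1
  obtain ⟨q, hq, hq2⟩ := Seg.mem L.F L.no s3 (by omega) (by omega) i (i - h)
    (fun p hp => by simp only [Set.mem_union, Set.mem_Icc] at hp; omega)
    (fun p hp => by simp only [Set.mem_insert_iff, Set.mem_union, Set.mem_Ico] at hp; omega)
  simp only [Set.mem_insert_iff, Set.mem_union, Set.mem_Ico] at hq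
  have h2 : c s(v (i + 2 * h), v i) = c s(v (cc i), v (cc i + 1)) := by
    rw [Sym2.eq_swap]; exact L.eq i
  rw [h2] at hq2
  have := Frame.window L.F (B := i - h) (by omega) (by omega) (by omega) (by omega) hq2
  omega

/-- three long chords -/
theorem Lab.triple (L : Lab c h v cc) (a q1 q2 q3 : ℤ) (hq1 : 0 ≤ q1)
    (hq2 : 0 ≤ q2) (hq3 : 0 ≤ q3) (hq : q1 + q2 + q3 = h - 1) (ha : a + h + q1 ≤ cc a)
    (hb : a + h + q1 + h + q2 ≤ cc (a + h + q1))
    (hd : a + 2 * h + q1 + q2 + h + q3 ≤ cc (a + 2 * h + q1 + q2)) : False := by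
  have hc := L.cast
  have hh := L.hh
  have a1 := L.hi a
  have a2 := L.hi (a + h + q1)
  have a3 := L.hi (a + 2 * h + q1 + q2)
  set b := a + h + q1 with hbdef
  set d := a + 2 * h + q1 + q2 with hddef
  have hm : a + 4 * (h : ℤ) - 1 = a + (4 * h - 1) := by ring
  have s1 : Seg c v (Set.Icc (a + h - q3) b) (Set.Ico (a + h - q3) b) (a + h - q3) b
      (q1 + q3 + 1).toNat := Seg.up (by omega) (by omega)
  have s2 : Seg c v (Set.Icc (b + 2 * h) (a + 4 * h - 1)) (Set.Ico (b + 2 * h) (a + 4 * h - 1))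
      (b + 2 * h) (a + 4 * h - 1) (q2 + q3 + 1).toNat := Seg.up (by omega) (by omega)
  have s3 : Seg c v (Set.Icc (a + 2 * h) d) (Set.Ico (a + 2 * h) d) (a + 2 * h) d
      (q1 + q2 + 1).toNat := Seg.up (by omega) (by omega)
  have t1 := s1.join s2 (by
      rw [Set.disjoint_left]; intro p hp hp'
      simp only [Set.mem_Icc] at hp hp'; omega) (by
      rw [Set.disjoint_left]; intro p hp hp'
      simp only [Set.mem_Ico] at hp hp'; omega) (cc b)
      (by simp only [Set.mem_Ico]; omega) (by simp only [Set.mem_Ico]; omega) (L.eq b)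
  have e1 : c s(v (a + 4 * h - 1), v (a + 2 * h)) = c s(v (cc a), v (cc a + 1)) := by
    rw [← L.eq a, hm, ← hc, L.F.per]
  have t2 := t1.join s3 (by
      rw [Set.disjoint_left]; intro p hp hp'
      simp only [Set.mem_union, Set.mem_Icc] at hp hp'; omega) (by
      rw [Set.disjoint_left]; intro p hp hp'
      simp only [Set.mem_insert_iff, Set.mem_union, Set.mem_Ico] at hp hp'; omega) (cc a)
      (by simp only [Set.mem_insert_iff, Set.mem_union, Set.mem_Ico]; omega)
      (by simp only [Set.mem_Ico]; omega) e1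
  obtain ⟨q, hqm, hq2'⟩ := Seg.mem L.F L.no t2 (by omega) (by omega) (a + h - q3) (a + h - q3)
    (fun p hp => by simp only [Set.mem_union, Set.mem_Icc] at hp; omega)
    (fun p hp => by simp only [Set.mem_insert_iff, Set.mem_union, Set.mem_Ico] at hp; omega)
  simp only [Set.mem_insert_iff, Set.mem_union, Set.mem_Ico] at hqm
  have h2 : c s(v d, v (a + h - q3)) = c s(v (cc d), v (cc d + 1)) := by
    rw [← L.eq d]
    have e2 : v (d + 2 * h) = v (a + h - q3) := by
      rw [show d + 2 * (h : ℤ) = a + h - q3 + (4 * h - 1) by omega, ← hc]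
      exact L.F.per _
    rw [e2]
  rw [h2] at hq2'
  have := Frame.window L.F (B := a + h - q3) (by omega) (by omega) (by omega) (by omega) hq2'
  omega

/-- the chords of length two -/
theorem Lab.short (L : Lab c h v cc) (hE : ∀ i, i + h ≤ cc i) (hE2 : ∀ i, cc i ≤ i + 2 * h - 2)
    (j : ℤ) : c s(v j, v (j + 2)) = c s(v (cc (j + 1)), v (cc (j + 1) + 1)) ∨
      c s(v j, v (j + 2)) = c s(v (cc (j + 2 * h)), v (cc (j + 2 * h) + 1)) := by
  have hc := L.cast
  have hh := L.hh
  have hm : j + 4 * (h : ℤ) - 1 = j + (4 * h - 1) := by ring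
  have b1 := hE (j + 1)
  have b2 := hE2 (j + 1)
  have b3 := hE (j + 2 * h)
  have b4 := hE2 (j + 2 * h)
  -- first cycle
  have s1 : Seg c v (Set.Icc (j + 1) (j + 2)) (Set.Ico (j + 1) (j + 2)) (j + 2) (j + 1) 2 :=
    Seg.down (by push_cast; ring) (by omega)
  have s2 : Seg c v (Set.Icc (j + 1 + 2 * h) (j + 4 * h - 1))
      (Set.Ico (j + 1 + 2 * h) (j + 4 * h - 1)) (j + 1 + 2 * h) (j + 4 * h - 1) (2 * h - 1) :=
    Seg.up (by omega) (by omega)
  have t1 := s1.join s2 (by
      rw [Set.disjoint_left]; intro p hp hp'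
      simp only [Set.mem_Icc] at hp hp'; omega) (by
      rw [Set.disjoint_left]; intro p hp hp'
      simp only [Set.mem_Ico] at hp hp'; omega) (cc (j + 1))
      (by simp only [Set.mem_Ico]; omega) (by simp only [Set.mem_Ico]; omega) (L.eq (j + 1))
  obtain ⟨q, hqm, hq⟩ := Seg.mem L.F L.no t1 (by omega) (by omega) (j + 1) (j + 1)
    (fun p hp => by simp only [Set.mem_union, Set.mem_Icc] at hp; omega)
    (fun p hp => by simp only [Set.mem_insert_iff, Set.mem_union, Set.mem_Ico] at hp; omega)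
  rw [hm, ← hc, L.F.per] at hq
  -- second cycle
  have s3 : Seg c v (Set.Icc j (j + 1)) (Set.Ico j (j + 1)) j (j + 1) 2 :=
    Seg.up (by push_cast; ring) (by omega)
  have s4 : Seg c v (Set.Icc (j + 2) (j + 2 * h)) (Set.Ico (j + 2) (j + 2 * h)) (j + 2 * h)
      (j + 2) (2 * h - 1) := Seg.down (by omega) (by omega)
  have e1 : c s(v (j + 1), v (j + 2 * h)) =
      c s(v (cc (j + 2 * h)), v (cc (j + 2 * h) + 1)) := by
    rw [← L.eq (j + 2 * h), Sym2.eq_swap]
    have e2 : v (j + 2 * h + 2 * h) = v (j + 1) := by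
      rw [show j + 2 * (h : ℤ) + 2 * h = j + 1 + (4 * h - 1) by ring, ← hc]; exact L.F.per _
    rw [e2]
  have t2 := s3.join s4 (by
      rw [Set.disjoint_left]; intro p hp hp'
      simp only [Set.mem_Icc] at hp hp'; omega) (by
      rw [Set.disjoint_left]; intro p hp hp'
      simp only [Set.mem_Ico] at hp hp'; omega) (cc (j + 2 * h))
      (by simp only [Set.mem_Ico]; omega) (by simp only [Set.mem_Ico]; omega) e1
  obtain ⟨q', hqm', hq'⟩ := Seg.mem L.F L.no t2 (by omega) (by omega) j j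
    (fun p hp => by simp only [Set.mem_union, Set.mem_Icc] at hp; omega)
    (fun p hp => by simp only [Set.mem_insert_iff, Set.mem_union, Set.mem_Ico] at hp; omega)
  rw [Sym2.eq_swap] at hq'
  simp only [Set.mem_insert_iff, Set.mem_union, Set.mem_Ico] at hqm hqm'
  have hqq : q = q' := by
    refine Frame.window L.F (B := j) (by omega) (by omega) (by omega) (by omega) ?_
    rw [← hq, ← hq']
  subst hqq
  rcases hqm with h1 | h1 | h1
  · left; rw [hq, h1]
  · omega
  · right
    have : q = cc (j + 2 * h) := by omega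
    rw [hq, this]

/-- two long chords and a chord of length two -/
theorem Lab.mixed (L : Lab c h v cc) (hE : ∀ i, i + h ≤ cc i) (hE2 : ∀ i, cc i ≤ i + 2 * h - 2)
    (i τ : ℤ) (hτ0 : 0 ≤ τ) (hτ1 : τ ≤ h - 2) (hτ : cc i = i + h + τ ∨ cc i = i + h + τ + 1) :
    i + 3 * h - 1 ≤ cc (i + h + τ + 1) ∨ i + h ≤ cc (i - h + 1 + τ) ∨
      cc (i - h) = cc (i - h + 1 + τ) := by
  have hc := L.cast
  have hh := L.hh
  have b1 := hE (i - h)
  have b2 := hE2 (i - h)
  have b3 := hE (i + h + τ + 1)
  have b4 := hE2 (i + h + τ + 1)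
  have b5 := hE (i - h + 1 + τ)
  have b6 := hE2 (i - h + 1 + τ)
  have s1 : Seg c v (Set.Icc (i + h) (i + h + τ)) (Set.Ico (i + h) (i + h + τ)) (i + h + τ)
      (i + h) (τ + 1).toNat := Seg.down (by omega) (by omega)
  have s2 : Seg c v (Set.Icc (i - h) i) (Set.Ico (i - h) i) (i - h) i (h + 1) :=
    Seg.up (by push_cast; ring) (by omega)
  have s3 : Seg c v (Set.Icc (i + h + τ + 2) (i + 2 * h)) (Set.Ico (i + h + τ + 2) (i + 2 * h))
      (i + 2 * h) (i + h + τ + 2) (h - 1 - τ).toNat := Seg.down (by omega) (by omega)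
  have e1 : c s(v (i + h), v (i - h)) = c s(v (cc (i - h)), v (cc (i - h) + 1)) := by
    rw [← L.eq (i - h), Sym2.eq_swap]
    congr 3; ring
  have t1 := s1.join s2 (by
      rw [Set.disjoint_left]; intro p hp hp'
      simp only [Set.mem_Icc] at hp hp'; omega) (by
      rw [Set.disjoint_left]; intro p hp hp'
      simp only [Set.mem_Ico] at hp hp'; omega) (cc (i - h))
      (by simp only [Set.mem_Ico]; omega) (by simp only [Set.mem_Ico]; omega) e1
  have t2 := t1.join s3 (by
      rw [Set.disjoint_left]; intro p hp hp'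
      simp only [Set.mem_union, Set.mem_Icc] at hp hp'; omega) (by
      rw [Set.disjoint_left]; intro p hp hp'
      simp only [Set.mem_insert_iff, Set.mem_union, Set.mem_Ico] at hp hp'; omega) (cc i)
      (by simp only [Set.mem_insert_iff, Set.mem_union, Set.mem_Ico]; omega)
      (by simp only [Set.mem_Ico]; omega) (L.eq i)
  obtain ⟨q, hqm, hq⟩ := Seg.mem L.F L.no t2 (by omega) (by omega) (i - h) (i - h)
    (fun p hp => by simp only [Set.mem_union, Set.mem_Icc] at hp; omega)
    (fun p hp => by simp only [Set.mem_insert_iff, Set.mem_union, Set.mem_Ico] at hp; omega)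
  simp only [Set.mem_insert_iff, Set.mem_union, Set.mem_Ico] at hqm
  rw [Sym2.eq_swap] at hq
  rcases L.short hE hE2 (i + h + τ) with h1 | h1
  · left
    by_contra hlt
    rw [hq] at h1
    have := Frame.window L.F (B := i - h) (by omega) (by omega) (by omega) (by omega) h1
    omega
  · right
    have e2 : cc (i + h + τ + 2 * h) = cc (i - h + 1 + τ) + (4 * h - 1) := by
      rw [← L.per]
      congr 1; ring
    have e3 : c s(v (cc (i + h + τ + 2 * h)), v (cc (i + h + τ + 2 * h) + 1)) =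
        c s(v (cc (i - h + 1 + τ)), v (cc (i - h + 1 + τ) + 1)) := by
      rw [e2]
      have e4 : v (cc (i - h + 1 + τ) + (4 * h - 1)) = v (cc (i - h + 1 + τ)) := by
        rw [← hc]; exact L.F.per _
      have e5 : v (cc (i - h + 1 + τ) + (4 * h - 1) + 1) = v (cc (i - h + 1 + τ) + 1) := by
        rw [← hc, show cc (i - h + 1 + τ) + ((4 * h - 1 : ℕ) : ℤ) + 1 =
          cc (i - h + 1 + τ) + 1 + ((4 * h - 1 : ℕ) : ℤ) by ring]
        exact L.F.per _
      rw [e4, e5]
    rw [hq, e3] at h1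
    have := Frame.window L.F (B := i - h) (by omega) (by omega) (by omega) (by omega) h1
    omega

/-- all labels in the second half: impossible -/
theorem Lab.false_of_ge (L : Lab c h v cc) (hE : ∀ i, i + h ≤ cc i) : False := by
  have hh := L.hh
  have hE2 : ∀ i, cc i ≤ i + 2 * h - 2 := by
    intro i
    by_contra hlt
    have h1 := L.hi i
    exact L.triple i (h - 1) 0 0 (by omega) le_rfl le_rfl (by omega) (by omega)
      (by have := hE (i + h + (h - 1)); omega) (by have := hE (i + 2 * h + (h - 1) + 0); omega)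
  have hT : ∀ x y z : ℤ, 0 ≤ y - x - h → y - x - h ≤ cc x - x - h → 0 ≤ z - y - h →
      z - y - h ≤ cc y - y - h → 0 ≤ x + (4 * h - 1) - z - h →
      x + (4 * h - 1) - z - h ≤ cc z - z - h → False := by
    intro x y z h1 h2 h3 h4 h5 h6
    refine L.triple x (y - x - h) (z - y - h) (x + (4 * h - 1) - z - h) h1 h3 h5 (by ring)
      (by omega) ?_ ?_
    · rw [show x + (h : ℤ) + (y - x - h) = y by ring]; omega
    · rw [show x + 2 * (h : ℤ) + (y - x - h) + (z - y - h) = z by ring]; omega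
  have hzero := core_zero (h := (h : ℤ)) (e := fun x => cc x - x - h) (by exact_mod_cast hh)
    (fun x => by have := hE x; show 0 ≤ cc x - x - h; omega)
    (fun x => by have := hE2 x; show cc x - x - h ≤ h - 2; omega)
    (fun x => by
      show cc (x + (4 * h - 1)) - (x + (4 * h - 1)) - h = cc x - x - h
      rw [L.per]; ring)
    hT
    (fun x hx => by
      show (h : ℤ) ≤ cc x - x - h + (cc (x - h + (cc x - x - h)) - (x - h + (cc x - x - h)) - h) ∨
        cc (x - h) - (x - h) - h =
          cc x - x - h + (cc (x - h + (cc x - x - h)) - (x - h + (cc x - x - h)) - h)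
      have hx' : 1 ≤ cc x - x - h := hx
      have a1 := hE2 x
      have hM := L.mixed hE hE2 x (cc x - x - h - 1) (by omega) (by omega) (Or.inr (by ring))
      rw [show x + (h : ℤ) + (cc x - x - h - 1) + 1 = x + h + (cc x - x - h) by ring,
        show x - (h : ℤ) + 1 + (cc x - x - h - 1) = x - h + (cc x - x - h) by ring] at hM
      rcases hM with h1 | h1 | h1
      · exfalso
        refine L.triple x (cc x - x - h) (h - 1 - (cc x - x - h)) 0 (by omega) (by omega)
          le_rfl (by ring) (by omega) (by omega) ?_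
        have := hE (x + 2 * h + (cc x - x - h) + (h - 1 - (cc x - x - h)))
        omega
      · left; omega
      · right; omega)
  have hz : ∀ x, cc x = x + h := fun x => by
    have : cc x - x - h = 0 := hzero x
    omega
  have hM := L.mixed hE hE2 0 0 le_rfl (by omega) (Or.inl (by rw [hz]; ring))
  rw [hz, hz, hz] at hM
  omega

/-- the dichotomy: all labels in the first half or all in the second half -/
theorem Lab.all_or (L : Lab c h v cc) (i0 : ℤ) (h0 : i0 + h ≤ cc i0) : ∀ i, i + h ≤ cc i := by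
  have hh := L.hh
  have h1 : ∀ k : ℕ, i0 - h * k + h ≤ cc (i0 - h * k) := by
    intro k
    induction k with
    | zero => simpa using h0
    | succ k ih =>
      have := L.typeA _ ih
      rw [show i0 - (h : ℤ) * ((k + 1 : ℕ) : ℤ) = i0 - h * k - h by push_cast; ring]
      omega
  have hper : ∀ (x : ℤ) (k : ℕ), cc (x + (4 * h - 1) * k) = cc x + (4 * h - 1) * k := by
    intro x k
    induction k with
    | zero => simp
    | succ k ih =>
      rw [show x + (4 * (h : ℤ) - 1) * ((k + 1 : ℕ) : ℤ) = x + (4 * h - 1) * k + (4 * h - 1) by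
        push_cast; ring, L.per, ih]
      push_cast; ring
  have hperz : ∀ (x k : ℤ), cc (x + (4 * h - 1) * k) = cc x + (4 * h - 1) * k := by
    intro x k
    rcases Int.le_total 0 k with hk | hk
    · obtain ⟨j, rfl⟩ := Int.eq_ofNat_of_zero_le hk
      exact hper x j
    · obtain ⟨j, hj⟩ := Int.eq_ofNat_of_zero_le (show 0 ≤ -k by omega)
      have := hper (x + (4 * h - 1) * k) j
      rw [show x + (4 * (h : ℤ) - 1) * k + (4 * h - 1) * (j : ℤ) = x by
        rw [← hj]; ring] at this
      rw [← hj] at this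
      linarith
  intro i
  -- choose `D ≥ 0` with `D ≡ i0 - i`
  set D : ℤ := (i0 - i) % (4 * h - 1) with hD
  have hD0 : 0 ≤ D := Int.emod_nonneg _ (by omega)
  obtain ⟨K, hK⟩ := Int.eq_ofNat_of_zero_le hD0
  have h2 := h1 (4 * K)
  have h3 : i0 - i = (4 * h - 1) * ((i0 - i) / (4 * h - 1)) + D := by
    rw [hD]; exact (Int.mul_ediv_add_emod _ _).symm
  set Q := (i0 - i) / (4 * (h : ℤ) - 1) with hQ
  have e1 : i = i0 - h * ((4 * K : ℕ) : ℤ) + (4 * h - 1) * ((K : ℤ) - Q) := by
    push_cast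
    rw [hK] at h3
    linear_combination (-1 : ℤ) * h3
  have h4 := hperz (i0 - h * ((4 * K : ℕ) : ℤ)) ((K : ℤ) - Q)
  rw [← e1] at h4
  rw [h4]
  linarith

theorem Setup.false (S : Setup c h v) : False := by
  obtain ⟨cc, L⟩ := S.exists_lab
  have hh := S.hh
  by_cases h0 : ∃ i0, i0 + h ≤ cc i0
  · obtain ⟨i0, h0⟩ := h0
    exact L.false_of_ge (L.all_or i0 h0)
  · push Not at h0
    -- reflect
    have L' : Lab c h (fun x => v (-x)) (fun i => -1 - cc (-i - 2 * h)) := by
      refine ⟨⟨S.F.reflect, hh, S.no⟩, ?_, ?_, ?_⟩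
      · intro i
        have := h0 (-i - 2 * h)
        have := L.hi (-i - 2 * h)
        omega
      · intro i
        have := L.lo (-i - 2 * h)
        omega
      · intro i
        have h1 := L.eq (-i - 2 * h)
        show c s(v (-i), v (-(i + 2 * h))) =
          c s(v (-(-1 - cc (-i - 2 * h))), v (-(-1 - cc (-i - 2 * h) + 1)))
        rw [show -(-1 - cc (-i - 2 * (h : ℤ))) = cc (-i - 2 * h) + 1 by ring,
          show -(-1 - cc (-i - 2 * (h : ℤ)) + 1) = cc (-i - 2 * h) by ring,
          show -(i + 2 * (h : ℤ)) = -i - 2 * h by ring]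
        rw [Sym2.eq_swap, Sym2.eq_swap (a := v (cc (-i - 2 * h) + 1)), ← h1]
        congr 3; ring
    refine L'.false_of_ge fun i => ?_
    have := h0 (-i - 2 * h)
    show i + (h : ℤ) ≤ -1 - cc (-i - 2 * h)
    omega

theorem implies_twice (n : ℕ) (hn : Odd n) (h7 : 7 ≤ n) : Implies (2 * n - 3) n := by
  intro V C _ c hrc
  by_contra hno
  obtain ⟨h, rfl⟩ := hn
  obtain ⟨v, F⟩ := hrc.exists_frame
  have e : 2 * (2 * h + 1) - 3 = 4 * h - 1 := by omega
  rw [e] at F
  exact (⟨F, by omega, hno⟩ : Setup c h v).false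

/-- the closure property: lengths `a` and `b` absent, then `a + b - 2` absent -/
theorem closure {a b : ℕ} (ha : 3 ≤ a) (hb : 3 ≤ b) (hna : ¬ HasRainbowCycle c a)
    (hnb : ¬ HasRainbowCycle c b) : ¬ HasRainbowCycle c (a + b - 2) := by
  intro hrc
  obtain ⟨v, F⟩ := hrc.exists_frame
  have hc : ((a + b - 2 : ℕ) : ℤ) = (a : ℤ) + b - 2 := by omega
  have s1 : Seg c v (Set.Icc 0 ((a : ℤ) - 1)) (Set.Ico 0 ((a : ℤ) - 1)) 0 ((a : ℤ) - 1) a :=
    Seg.up (by ring) (by omega)
  have s2 : Seg c v (Set.Icc ((a : ℤ) - 1) (0 + ((a + b - 2 : ℕ) : ℤ)))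
      (Set.Ico ((a : ℤ) - 1) (0 + ((a + b - 2 : ℕ) : ℤ))) (0 + ((a + b - 2 : ℕ) : ℤ))
      ((a : ℤ) - 1) b := Seg.down (by omega) (by omega)
  obtain ⟨q, hqm, hq⟩ := Seg.mem F hna s1 rfl ha 0 0
    (fun p hp => by simp only [Set.mem_Icc] at hp; omega)
    (fun p hp => by simp only [Set.mem_Ico] at hp; omega)
  obtain ⟨q', hqm', hq'⟩ := Seg.mem F hnb s2 rfl hb ((a : ℤ) - 1) ((a : ℤ) - 1)
    (fun p hp => by simp only [Set.mem_Icc] at hp; omega)
    (fun p hp => by simp only [Set.mem_Ico] at hp; omega)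
  rw [F.per] at hq'
  simp only [Set.mem_Ico] at hqm hqm'
  have := Frame.window F (B := 0) (by omega) (by omega) (by omega) (by omega) (hq.symm.trans hq')
  omega

theorem implies_family (n : ℕ) (hn : Odd n) (h7 : 7 ≤ n) (k j : ℕ) (hk : 1 ≤ k)
    (hj : 2 * j ≤ k) : Implies (k * (n - 2) + 2 - j) n := by
  intro V C _ c hrc
  by_contra hno
  have h2 : ¬ HasRainbowCycle c (2 * n - 3) := fun h => hno (implies_twice n hn h7 V C c h)
  have key : ∀ j k : ℕ, 1 ≤ k → 2 * j ≤ k →
      j + 3 ≤ k * (n - 2) + 2 ∧ ¬ HasRainbowCycle c (k * (n - 2) + 2 - j) := by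
    intro j
    induction j with
    | zero =>
      intro k hk _
      induction k, hk using Nat.le_induction with
      | base =>
        refine ⟨by omega, ?_⟩
        rw [show 1 * (n - 2) + 2 - 0 = n by omega]
        exact hno
      | succ k hk ih =>
        obtain ⟨i1, i2⟩ := ih (by omega)
        have e : (k + 1) * (n - 2) = k * (n - 2) + (n - 2) := by ring
        refine ⟨by omega, ?_⟩
        rw [show (k + 1) * (n - 2) + 2 - 0 = (k * (n - 2) + 2 - 0) + n - 2 by omega]
        exact closure (by omega) (by omega) i2 hno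
    | succ j ihj =>
      intro k hk hjk
      have h2k : 2 * (j + 1) ≤ k := hjk
      induction k, h2k using Nat.le_induction with
      | base =>
        have e : 2 * (j + 1) * (n - 2) = 2 * j * (n - 2) + 2 * (n - 2) := by ring
        rcases Nat.eq_zero_or_pos j with h0 | h0
        · subst h0
          refine ⟨by omega, ?_⟩
          rw [show 2 * (0 + 1) * (n - 2) + 2 - (0 + 1) = 2 * n - 3 by omega]
          exact h2
        · obtain ⟨i1, i2⟩ := ihj (2 * j) (by omega) le_rfl
          refine ⟨by omega, ?_⟩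
          rw [show 2 * (j + 1) * (n - 2) + 2 - (j + 1) =
            (2 * j * (n - 2) + 2 - j) + (2 * n - 3) - 2 by omega]
          exact closure (by omega) (by omega) i2 h2
      | succ k hk2 ih =>
        obtain ⟨i1, i2⟩ := ih (by omega) hk2
        have e : (k + 1) * (n - 2) = k * (n - 2) + (n - 2) := by ring
        refine ⟨by omega, ?_⟩
        rw [show (k + 1) * (n - 2) + 2 - (j + 1) = (k * (n - 2) + 2 - (j + 1)) + n - 2 by omega]
        exact closure (by omega) (by omega) i2 hno
  exact (key j k hk hj).2 hrc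

end Pool.Agent.helper94.RainbowTwice
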