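import Mathlib
import Pool.Agent.helper94.Rainbow

set_option autoImplicit false

/-!
# Colourings without rainbow odd cycles of length at least `n`
-/

namespace Pool.Agent.helper94.RainbowLower

open Pool.Agent.helper94.Rainbow

/-- The colour of a pair of vertices. A vertex `(s, d)` has a side `s` and a depth `d < h`. -/
def col {h : ℕ} (κ : ℕ) (u w : Bool × Fin h) : Option (Bool × Fin h) :=
  if u.1 = w.1 ∧ w.2.val = u.2.val + 1 then some u
  else if u.1 = w.1 ∧ u.2.val = w.2.val + 1 then some w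
  else if Odd (u.2.val + w.2.val) ∧ u.2.val + w.2.val ≤ κ ∧ u.2.val < w.2.val then some u
  else if Odd (u.2.val + w.2.val) ∧ u.2.val + w.2.val ≤ κ ∧ w.2.val < u.2.val then some w
  else if u.2.val + 1 = h ∧ w.2.val + 1 = h then (if u.1 = false then some u else some w)
  else none

theorem col_comm {h : ℕ} (κ : ℕ) (u w : Bool × Fin h) : col κ u w = col κ w u := by
  obtain ⟨s, d⟩ := u
  obtain ⟨s', d'⟩ := w
  unfold col
  dsimp only
  by_cases h1 : s = s' ∧ d'.val = d.val + 1
  · have h2 : ¬ (s' = s ∧ d.val = d'.val + 1) := by omega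
    rw [if_pos h1, if_neg h2, if_pos ⟨h1.1.symm, h1.2⟩]
  rw [if_neg h1]
  by_cases h2 : s = s' ∧ d.val = d'.val + 1
  · rw [if_pos h2, if_pos ⟨h2.1.symm, h2.2⟩]
  rw [if_neg h2]
  have h1' : ¬ (s' = s ∧ d'.val = d.val + 1) := fun h => h1 ⟨h.1.symm, h.2⟩
  have h2' : ¬ (s' = s ∧ d.val = d'.val + 1) := fun h => h2 ⟨h.1.symm, h.2⟩
  rw [if_neg h2', if_neg h1', Nat.add_comm d'.val d.val]
  by_cases h3 : Odd (d.val + d'.val) ∧ d.val + d'.val ≤ κ ∧ d.val < d'.val
  · have h4 : ¬ (Odd (d.val + d'.val) ∧ d.val + d'.val ≤ κ ∧ d'.val < d.val) := by omega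
    rw [if_pos h3, if_neg h4, if_pos h3]
  rw [if_neg h3]
  by_cases h4 : Odd (d.val + d'.val) ∧ d.val + d'.val ≤ κ ∧ d'.val < d.val
  · rw [if_pos h4, if_pos h4]
  rw [if_neg h4, if_neg h4, if_neg h3]
  by_cases h5 : d.val + 1 = h ∧ d'.val + 1 = h
  · have h5' : d'.val + 1 = h ∧ d.val + 1 = h := ⟨h5.2, h5.1⟩
    rw [if_pos h5, if_pos h5']
    have hd : d = d' := Fin.ext (by omega)
    subst hd
    cases s <;> cases s' <;> simp
  · rw [if_neg h5, if_neg (fun h => h5 ⟨h.2, h.1⟩)]

/-- The edge-colouring of the complete graph on `Bool × Fin h`. -/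
def colouring (h κ : ℕ) : Sym2 (Bool × Fin h) → Option (Bool × Fin h) :=
  Sym2.lift ⟨fun u w => col κ u w, fun u w => col_comm κ u w⟩

theorem colouring_mk {h κ : ℕ} (u w : Bool × Fin h) : colouring h κ s(u, w) = col κ u w := rfl

theorem col_owner {h κ : ℕ} {u w : Bool × Fin h} {x : Bool × Fin h} (hx : col κ u w = some x) :
    x = u ∨ x = w := by
  unfold col at hx
  split_ifs at hx <;> simp_all

/-- what it means that `u` owns the edge `{u, w}` -/
theorem col_eq_left {h κ : ℕ} {u w : Bool × Fin h} (hne : u ≠ w) (hx : col κ u w = some u) :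
    (u.2.val < w.2.val ∧ Odd (u.2.val + w.2.val) ∧
      (u.2.val + w.2.val ≤ κ ∨ (u.1 = w.1 ∧ w.2.val = u.2.val + 1))) ∨
    (u.2.val + 1 = h ∧ w.2.val + 1 = h) := by
  unfold col at hx
  split_ifs at hx with h1 h2 h3 h4 h5 h6
  · left
    refine ⟨by omega, ?_, Or.inr h1⟩
    rw [h1.2]; exact ⟨u.2.val, by ring⟩
  · exact absurd (Option.some.inj hx).symm hne
  · left; exact ⟨h3.2.2, h3.1, Or.inl h3.2.1⟩
  · exact absurd (Option.some.inj hx).symm hne
  · exact Or.inr h5
  · exact Or.inr h5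

theorem col_eq_right {h κ : ℕ} {u w : Bool × Fin h} (hne : u ≠ w) (hx : col κ u w = some w) :
    (w.2.val < u.2.val ∧ Odd (u.2.val + w.2.val) ∧
      (u.2.val + w.2.val ≤ κ ∨ (u.1 = w.1 ∧ u.2.val = w.2.val + 1))) ∨
    (u.2.val + 1 = h ∧ w.2.val + 1 = h) := by
  rw [col_comm] at hx
  rcases col_eq_left hne.symm hx with ⟨h1, h2, h3⟩ | ⟨h1, h2⟩
  · left
    refine ⟨h1, by rwa [Nat.add_comm], ?_⟩
    rcases h3 with h3 | h3
    · left; omega
    · right; exact ⟨h3.1.symm, h3.2⟩
  · right; exact ⟨h2, h1⟩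

theorem col_eq_none {h κ : ℕ} {u w : Bool × Fin h} (hx : col κ u w = none) :
    ¬ (Odd (u.2.val + w.2.val) ∧ u.2.val + w.2.val ≤ κ) := by
  intro hh
  unfold col at hx
  split_ifs at hx with h1 h2 h3 h4 h5 h6
  obtain ⟨ho, hle⟩ := hh
  have : u.2.val ≠ w.2.val := by
    intro he
    rw [he] at ho
    obtain ⟨k, hk⟩ := ho
    omega
  rcases lt_or_gt_of_ne this with hlt | hlt
  · exact h3 ⟨ho, hle, hlt⟩
  · exact h4 ⟨ho, hle, hlt⟩

/-- three vertices of maximal depth cannot be distinct -/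
theorem three_deep {h : ℕ} {u v w : Bool × Fin h} (hu : u.2.val + 1 = h) (hv : v.2.val + 1 = h)
    (hw : w.2.val + 1 = h) : u = v ∨ v = w ∨ u = w := by
  have huv : u.2 = v.2 := Fin.ext (by omega)
  have hvw : v.2 = w.2 := Fin.ext (by omega)
  obtain ⟨su, du⟩ := u
  obtain ⟨sv, dv⟩ := v
  obtain ⟨sw, dw⟩ := w
  simp only at huv hvw
  subst huv
  subst hvw
  cases su <;> cases sv <;> cases sw <;> simp

/-- a sequence of left or right types without right after left switches once -/
theorem exists_switch (R L : ℕ → Prop) (N : ℕ) (hRL : ∀ k, k < N → R k ∨ L k)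
    (hno : ∀ k, k + 1 < N → L k → ¬ R (k + 1)) :
    ∃ s, s ≤ N ∧ (∀ k, k < s → R k) ∧ (∀ k, s ≤ k → k < N → L k) := by
  classical
  by_cases hex : ∃ k, k < N ∧ ¬ R k
  · obtain ⟨hs1, hs2⟩ := Nat.find_spec hex
    set s := Nat.find hex with hs
    refine ⟨s, hs1.le, ?_, ?_⟩
    · intro k hk
      by_contra hR
      exact Nat.find_min hex hk ⟨by omega, hR⟩
    · intro k hk
      induction k, hk using Nat.le_induction with
      | base => intro _; exact (hRL s hs1).resolve_left hs2
      | succ k hk ih =>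
        intro hkN
        exact (hRL (k + 1) hkN).resolve_left (hno k hkN (ih (by omega)))
  · push Not at hex
    exact ⟨N, le_rfl, fun k hk => hex k hk, fun k hk hkN => absurd hkN (by omega)⟩

theorem climb (a : ℕ → ℕ) (T : ℕ) (ha : ∀ k, k < T → a k < a (k + 1) ∧ Odd (a k + a (k + 1))) :
    ∀ k, k ≤ T → a 0 + k ≤ a k ∧ Even (a 0 + k + a k) := by
  intro k
  induction k with
  | zero => intro _; exact ⟨by simp, ⟨a 0, by ring⟩⟩
  | succ k ih =>
    intro hk
    obtain ⟨h1, h2⟩ := ih (by omega)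
    obtain ⟨h3, h4⟩ := ha k (by omega)
    refine ⟨by omega, ?_⟩
    rw [Nat.even_iff] at h2 ⊢
    rw [Nat.odd_iff] at h4
    omega

theorem core {h κ n ℓ : ℕ} (hκ : Odd κ) (hm : 2 * h = n + κ) (hlt : κ + 2 < n) (hℓ : Odd ℓ)
    (hnℓ : n ≤ ℓ) {g : ℕ → Bool × Fin h} (hg : IsRC (colouring h κ) ℓ g)
    (hlast : col κ (g (ℓ - 1)) (g 0) = none) : False := by
  rw [Nat.odd_iff] at hκ hℓ
  have hℓ3 : 5 ≤ ℓ := by omega
  have hcol : ∀ k, colouring h κ s(g k, g (k + 1)) = col κ (g k) (g (k + 1)) := fun k => rfl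
  have hlast' : col κ (g (ℓ - 1)) (g (ℓ - 1 + 1)) = none := by
    have h1 : g (ℓ - 1 + 1) = g 0 := by
      have := hg.per 0
      rwa [Nat.zero_add, show ℓ = ℓ - 1 + 1 by omega] at this
    rw [h1]; exact hlast
  have hRL : ∀ k, k < ℓ - 1 → col κ (g k) (g (k + 1)) = some (g k) ∨
      col κ (g k) (g (k + 1)) = some (g (k + 1)) := by
    intro k hk
    cases hx : col κ (g k) (g (k + 1)) with
    | none =>
      exfalso
      refine hg.col_ne (i := k) (j := ℓ - 1) hk (by omega) ?_
      rw [hcol, hcol, hx, hlast']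
    | some x =>
      rcases col_owner hx with rfl | rfl
      · left; rfl
      · right; rfl
  have hno : ∀ k, k + 1 < ℓ - 1 → col κ (g k) (g (k + 1)) = some (g (k + 1)) →
      ¬ col κ (g (k + 1)) (g (k + 1 + 1)) = some (g (k + 1)) := by
    intro k hk h1 h2
    refine hg.col_ne (i := k) (j := k + 1) (by omega) (by omega) ?_
    rw [hcol, hcol, h1, h2]
  obtain ⟨s, hsN, hR, hL⟩ := exists_switch _ _ (ℓ - 1) hRL hno
  set d : ℕ → ℕ := fun k => (g k).2.val with hd
  have hdh : ∀ k, d k < h := fun k => (g k).2.isLt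
  have hR' : ∀ k, k < s → (d k < d (k + 1) ∧ Odd (d k + d (k + 1)) ∧
      (d k + d (k + 1) ≤ κ ∨ ((g k).1 = (g (k + 1)).1 ∧ d (k + 1) = d k + 1))) ∨
      (d k + 1 = h ∧ d (k + 1) + 1 = h) := by
    intro k hk
    exact col_eq_left (hg.ne (by omega) (by omega)) (hR k hk)
  have hL' : ∀ k, s ≤ k → k < ℓ - 1 → (d (k + 1) < d k ∧ Odd (d k + d (k + 1)) ∧
      (d k + d (k + 1) ≤ κ ∨ ((g k).1 = (g (k + 1)).1 ∧ d k = d (k + 1) + 1))) ∨
      (d k + 1 = h ∧ d (k + 1) + 1 = h) := by
    intro k hk hk2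
    exact col_eq_right (hg.ne (by omega) (by omega)) (hL k hk hk2)
  have h3 : ∀ k, k + 2 < ℓ → ¬ (d k + 1 = h ∧ d (k + 1) + 1 = h ∧ d (k + 2) + 1 = h) := by
    rintro k hk ⟨h1, h2, h3⟩
    rcases three_deep (u := g k) (v := g (k + 1)) (w := g (k + 2)) h1 h2 h3 with he | he | he
    · exact hg.ne (i := k) (j := k + 1) (by omega) (by omega) he
    · exact hg.ne (i := k + 1) (j := k + 2) (by omega) (by omega) he
    · exact hg.ne (i := k) (j := k + 2) (by omega) (by omega) he
  -- strictness away from the switch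
  have hRs : ∀ k, k + 1 < s → d k < d (k + 1) ∧ Odd (d k + d (k + 1)) := by
    intro k hk
    rcases hR' k (by omega) with ⟨h1, h2, _⟩ | ⟨h1, h2⟩
    · exact ⟨h1, h2⟩
    · exfalso
      have h4 : d (k + 2) + 1 = h := by
        rcases hR' (k + 1) hk with ⟨h5, _, _⟩ | ⟨_, h5⟩
        · have := hdh (k + 1 + 1)
          omega
        · exact h5
      exact h3 k (by omega) ⟨h1, h2, h4⟩
  have hLs : ∀ k, s < k → k < ℓ - 1 → d (k + 1) < d k ∧ Odd (d k + d (k + 1)) := by
    intro k hk hk2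
    rcases hL' k (by omega) hk2 with ⟨h1, h2, _⟩ | ⟨h1, h2⟩
    · exact ⟨h1, h2⟩
    · exfalso
      obtain ⟨j, rfl⟩ : ∃ j, k = j + 1 := ⟨k - 1, by omega⟩
      have h4 : d j + 1 = h := by
        rcases hL' j (by omega) (by omega) with ⟨h5, _, _⟩ | ⟨h5, _⟩
        · have := hdh j
          omega
        · exact h5
      exact h3 j (by omega) ⟨h4, h1, h2⟩
  -- climbing
  have hcl : ∀ T, T ≤ s → (∀ k, k < T → d k < d (k + 1) ∧ Odd (d k + d (k + 1))) →
      d 0 + T ≤ d T ∧ Even (d 0 + T + d T) := fun T _ hT => climb d T hT T le_rfl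
  have hcr : ∀ T, T ≤ ℓ - 1 - s → (∀ k, ℓ - 1 - T ≤ k → k < ℓ - 1 →
      d (k + 1) < d k ∧ Odd (d k + d (k + 1))) →
      d (ℓ - 1) + T ≤ d (ℓ - 1 - T) ∧ Even (d (ℓ - 1) + T + d (ℓ - 1 - T)) := by
    intro T hT hk
    have := climb (fun j => d (ℓ - 1 - j)) T (fun k hkT => by
      obtain ⟨h1, h2⟩ := hk (ℓ - 1 - (k + 1)) (by omega) (by omega)
      rw [show ℓ - 1 - (k + 1) + 1 = ℓ - 1 - k by omega] at h1 h2
      exact ⟨h1, by rwa [Nat.add_comm]⟩) T le_rfl
    simpa using this
  have hclose : ¬ (Odd (d (ℓ - 1) + d 0) ∧ d (ℓ - 1) + d 0 ≤ κ) := col_eq_none hlast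
  rw [Nat.odd_iff] at hclose
  have hdl := hdh (ℓ - 1)
  have hd0 := hdh 0
  have hds := hdh s
  by_cases hML : 0 < s ∧ d (s - 1) + 1 = h ∧ d s + 1 = h
  · obtain ⟨hs0, hm1, hm2⟩ := hML
    have h1 := hcl (s - 1) (by omega) (fun k hk => hRs k (by omega))
    have h2 := hcr (ℓ - 1 - s) le_rfl (fun k hk hk2 => by
      rcases Nat.eq_or_lt_of_le (show s ≤ k by omega) with he | hlt2
      · subst he
        rcases hL' s le_rfl hk2 with ⟨h5, h6, _⟩ | ⟨_, h5⟩
        · exact ⟨h5, h6⟩
        · exfalso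
          refine h3 (s - 1) (by omega) ⟨hm1, ?_, ?_⟩
          · rw [show s - 1 + 1 = s by omega]; exact hm2
          · rw [show s - 1 + 2 = s + 1 by omega]; exact h5
      · exact hLs k hlt2 hk2)
    rw [show ℓ - 1 - (ℓ - 1 - s) = s by omega] at h2
    rw [Nat.even_iff] at h1 h2
    omega
  by_cases hMR : s < ℓ - 1 ∧ d s + 1 = h ∧ d (s + 1) + 1 = h
  · obtain ⟨hs0, hm1, hm2⟩ := hMR
    have h1 := hcl s le_rfl (fun k hk => by
      rcases Nat.eq_or_lt_of_le (show k + 1 ≤ s by omega) with he | hlt2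
      · rcases hR' k hk with ⟨h5, h6, _⟩ | ⟨h5, h6⟩
        · exact ⟨h5, h6⟩
        · exfalso
          exact hML ⟨by omega, by rw [show s - 1 = k by omega]; exact h5, hm1⟩
      · exact hRs k hlt2)
    have h2 := hcr (ℓ - 1 - (s + 1)) (by omega) (fun k hk hk2 => hLs k (by omega) hk2)
    rw [show ℓ - 1 - (ℓ - 1 - (s + 1)) = s + 1 by omega] at h2
    rw [Nat.even_iff] at h1 h2
    omega
  -- no middle edge
  have hRall : ∀ k, k < s → d k < d (k + 1) ∧ Odd (d k + d (k + 1)) := by
    intro k hk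
    rcases Nat.eq_or_lt_of_le (show k + 1 ≤ s by omega) with he | hlt2
    · rcases hR' k hk with ⟨h5, h6, _⟩ | ⟨h5, h6⟩
      · exact ⟨h5, h6⟩
      · exfalso
        refine hML ⟨by omega, by rw [show s - 1 = k by omega]; exact h5, ?_⟩
        rw [← he]; exact h6
    · exact hRs k hlt2
  have hLall : ∀ k, s ≤ k → k < ℓ - 1 → d (k + 1) < d k ∧ Odd (d k + d (k + 1)) := by
    intro k hk hk2
    rcases Nat.eq_or_lt_of_le hk with he | hlt2
    · subst he
      rcases hL' s le_rfl hk2 with ⟨h5, h6, _⟩ | ⟨h5, h6⟩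
      · exact ⟨h5, h6⟩
      · exact absurd ⟨hk2, h5, h6⟩ hMR
    · exact hLs k hlt2 hk2
  have h1 := hcl s le_rfl hRall
  have h2 := hcr (ℓ - 1 - s) le_rfl (fun k hk hk2 => hLall k (by omega) hk2)
  rw [show ℓ - 1 - (ℓ - 1 - s) = s by omega] at h2
  by_cases hs0 : s = 0
  · subst hs0; omega
  by_cases hs1 : s = ℓ - 1
  · rw [hs1] at h1; omega
  have h1' := hcl (s - 1) (by omega) (fun k hk => hRall k (by omega))
  have h2' := hcr (ℓ - 1 - (s + 1)) (by omega) (fun k hk hk2 => hLall k (by omega) hk2)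
  rw [show ℓ - 1 - (ℓ - 1 - (s + 1)) = s + 1 by omega] at h2'
  have ha := hR' (s - 1) (by omega)
  rw [show s - 1 + 1 = s by omega] at ha
  have hb := hL' s le_rfl (by omega)
  rcases ha with ⟨_, _, ha | ⟨ha1, ha2⟩⟩ | ⟨ha1, ha2⟩
  · omega
  · rcases hb with ⟨_, _, hb | ⟨hb1, hb2⟩⟩ | ⟨hb1, hb2⟩
    · omega
    · refine hg.ne (i := s - 1) (j := s + 1) (by omega) (by omega) ?_
      refine Prod.ext (by rw [ha1, hb1]) (Fin.ext ?_)
      show d (s - 1) = d (s + 1)
      omega
    · exact hMR ⟨by omega, hb1, hb2⟩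
  · exact hML ⟨by omega, ha1, ha2⟩

theorem no_rainbow {h κ n ℓ : ℕ} (hκ : Odd κ) (hm : 2 * h = n + κ) (hlt : κ + 2 < n)
    (hℓ : Odd ℓ) (hnℓ : n ≤ ℓ) : ¬ HasRainbowCycle (colouring h κ) ℓ := by
  intro hrc
  have hκ' := Nat.odd_iff.mp hκ
  have hℓ3 : 3 ≤ ℓ := by omega
  obtain ⟨f, hf⟩ := hrc.exists_isRC (by omega)
  by_cases hex : ∃ j, col κ (f j) (f (j + 1)) = none
  · obtain ⟨j, hj⟩ := hex
    refine core hκ hm hlt hℓ hnℓ (hf.rotate (by omega) (j + 1)) ?_
    show col κ (f (ℓ - 1 + (j + 1))) (f (0 + (j + 1))) = none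
    rw [show ℓ - 1 + (j + 1) = j + ℓ by omega, hf.per, Nat.zero_add]
    exact hj
  · push Not at hex
    set d : ℕ → ℕ := fun k => (f k).2.val with hd
    have hdh : ∀ k, d k < h := fun k => (f k).2.isLt
    have hper : ∀ k, d (k + ℓ) = d k := fun k => by simp only [hd, hf.per]
    have hRL : ∀ k, col κ (f k) (f (k + 1)) = some (f k) ∨
        col κ (f k) (f (k + 1)) = some (f (k + 1)) := by
      intro k
      cases hx : col κ (f k) (f (k + 1)) with
      | none => exact absurd hx (hex k)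
      | some x =>
        rcases col_owner hx with rfl | rfl
        · left; rfl
        · right; rfl
    have hno : ∀ k, col κ (f k) (f (k + 1)) = some (f (k + 1)) →
        col κ (f (k + 1)) (f (k + 1 + 1)) = some (f (k + 1 + 1)) := by
      intro k h1
      refine (hRL (k + 1)).resolve_left fun h2 => ?_
      refine hf.col_ne (i := k) (j := k + 1) (by omega) (by omega) ?_
      show col κ (f k) (f (k + 1)) = col κ (f (k + 1)) (f (k + 1 + 1))
      rw [h1, h2]
    have hne : ∀ k, f k ≠ f (k + 1) := fun k => hf.ne (by omega) (by omega)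
    -- a constant depth gives a contradiction
    have hfin : ∀ a, d a = d (a + 1) → d (a + 1) = d (a + 2) → False := by
      intro a h1 h2
      have key : ∀ b, d b = d (b + 1) → d b + 1 = h ∧ d (b + 1) + 1 = h := by
        intro b hb
        rcases hRL b with hc | hc
        · rcases col_eq_left (hne b) hc with ⟨h3, _, _⟩ | h3
          · exact absurd hb (by simp only [hd]; omega)
          · exact h3
        · rcases col_eq_right (hne b) hc with ⟨h3, _, _⟩ | h3
          · exact absurd hb (by simp only [hd]; omega)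
          · exact h3
      obtain ⟨h5, h6⟩ := key a h1
      obtain ⟨_, h7⟩ := key (a + 1) h2
      rcases three_deep (u := f a) (v := f (a + 1)) (w := f (a + 2)) h5 h6 h7 with he | he | he
      · exact hf.ne (i := a) (j := a + 1) (by omega) (by omega) he
      · exact hf.ne (i := a + 1) (j := a + 2) (by omega) (by omega) he
      · exact hf.ne (i := a) (j := a + 2) (by omega) (by omega) he
    by_cases hL : ∃ a, col κ (f a) (f (a + 1)) = some (f (a + 1))
    · obtain ⟨a, ha⟩ := hL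
      have hall : ∀ k, col κ (f (a + k)) (f (a + k + 1)) = some (f (a + k + 1)) := by
        intro k
        induction k with
        | zero => exact ha
        | succ k ih => exact hno _ ih
      have hanti : ∀ k, d (a + k + 1) ≤ d (a + k) := by
        intro k
        rcases col_eq_right (hne _) (hall k) with ⟨h3, _, _⟩ | ⟨h3, h4⟩
        · exact h3.le
        · simp only [hd]; omega
      have hanti2 : Antitone (fun k => d (a + k)) := antitone_nat_of_succ_le hanti
      have e0 : d (a + ℓ) = d a := hper a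
      have i1 : d (a + ℓ) ≤ d (a + 2) := hanti2 (show 2 ≤ ℓ by omega)
      have i2 : d (a + 2) ≤ d (a + 1) := hanti2 (show 1 ≤ 2 by omega)
      have i3 : d (a + 1) ≤ d a := hanti 0
      exact hfin a (by omega) (by omega)
    · push Not at hL
      have hall : ∀ k, col κ (f k) (f (k + 1)) = some (f k) := fun k =>
        (hRL k).resolve_right (hL k)
      have hmono : ∀ k, d k ≤ d (k + 1) := by
        intro k
        rcases col_eq_left (hne _) (hall k) with ⟨h3, _, _⟩ | ⟨h3, h4⟩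
        · exact h3.le
        · simp only [hd]; omega
      have hmono2 : Monotone d := monotone_nat_of_le_succ hmono
      have e0 : d (0 + ℓ) = d 0 := hper 0
      have i1 : d 2 ≤ d (0 + ℓ) := hmono2 (by omega)
      have i2 : d 1 ≤ d 2 := hmono2 (by omega)
      have i3 : d 0 ≤ d 1 := hmono2 (by omega)
      exact hfin 0 (by simp only [Nat.zero_add]; omega) (by simp only [Nat.zero_add]; omega)

/-- the long cycle: down one side and up the other one -/
def ham {h : ℕ} (hh : 0 < h) (k : ℕ) : Bool × Fin h :=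
  if hk : k % (2 * h) < h then (false, ⟨k % (2 * h), hk⟩)
  else (true, ⟨2 * h - 1 - k % (2 * h), by have := Nat.mod_lt k (show 0 < 2 * h by omega); omega⟩)

theorem ham_small {h : ℕ} (hh : 0 < h) {k : ℕ} (hk : k < h) : ham hh k = (false, ⟨k, hk⟩) := by
  have h1 : k % (2 * h) = k := Nat.mod_eq_of_lt (by omega)
  unfold ham
  rw [dif_pos (by omega)]
  exact Prod.ext rfl (Fin.ext h1)

theorem ham_large {h : ℕ} (hh : 0 < h) {k : ℕ} (hk : h ≤ k) (hk2 : k < 2 * h) :
    ham hh k = (true, ⟨2 * h - 1 - k, by omega⟩) := by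
  have h1 : k % (2 * h) = k := Nat.mod_eq_of_lt hk2
  unfold ham
  rw [dif_neg (by omega)]
  refine Prod.ext rfl (Fin.ext ?_)
  show 2 * h - 1 - k % (2 * h) = 2 * h - 1 - k
  rw [h1]

/-- the colours along the long cycle -/
theorem ham_col {h κ : ℕ} (hh : 2 ≤ h) {k : ℕ} (hk : k < 2 * h) :
    col κ (ham (h := h) (by omega) k) (ham (by omega) (k + 1)) =
      if k < h then some (false, ⟨k % h, Nat.mod_lt _ (by omega)⟩)
      else if k + 1 < 2 * h then some (true, ⟨(2 * h - 2 - k) % h, Nat.mod_lt _ (by omega)⟩)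
      else none := by
  have hh0 : 0 < h := by omega
  by_cases h1 : k + 1 < h
  · rw [ham_small hh0 (by omega : k < h), ham_small hh0 h1, if_pos (by omega)]
    unfold col
    rw [if_pos ⟨rfl, rfl⟩]
    congr 1
    exact Prod.ext rfl (Fin.ext (Nat.mod_eq_of_lt (by omega)).symm)
  by_cases h2 : k + 1 = h
  · rw [ham_small hh0 (by omega : k < h), ham_large hh0 (by omega) (by omega), if_pos (by omega)]
    unfold col
    rw [if_neg (by simp), if_neg (by simp), if_neg (by dsimp only; omega),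
      if_neg (by dsimp only; omega), if_pos (by dsimp only; omega), if_pos rfl]
    congr 1
    exact Prod.ext rfl (Fin.ext (Nat.mod_eq_of_lt (by omega)).symm)
  by_cases h3 : k + 1 < 2 * h
  · rw [ham_large hh0 (by omega) (by omega), ham_large hh0 (by omega) h3, if_neg (by omega),
      if_pos h3]
    unfold col
    rw [if_neg (by dsimp only; omega), if_pos (show (true = true ∧ 2 * h - 1 - k =
      2 * h - 1 - (k + 1) + 1) from ⟨rfl, by omega⟩)]
    congr 1
    refine Prod.ext rfl (Fin.ext ?_)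
    show 2 * h - 1 - (k + 1) = (2 * h - 2 - k) % h
    rw [Nat.mod_eq_of_lt (by omega)]
    omega
  · have h4 : ham hh0 (k + 1) = ham hh0 0 := by
      unfold ham
      have : (k + 1) % (2 * h) = 0 % (2 * h) := by
        rw [show k + 1 = 2 * h by omega]; simp
      simp only [this]
    rw [ham_large hh0 (by omega) (by omega), h4, ham_small hh0 hh0, if_neg (by omega), if_neg h3]
    unfold col
    rw [if_neg (by simp), if_neg (by simp), if_neg, if_neg, if_neg]
    · dsimp only; omega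
    · dsimp only; omega
    · rintro ⟨h5, _, _⟩
      dsimp only at h5
      rw [show 2 * h - 1 - k + 0 = 0 by omega] at h5
      simp at h5

theorem has_ham {h κ : ℕ} (hh : 2 ≤ h) : HasRainbowCycle (colouring h κ) (2 * h) := by
  have hh0 : 0 < h := by omega
  refine IsRC.hasRainbowCycle (f := ham hh0) (by omega) ⟨?_, ?_, ?_⟩
  · intro k
    unfold ham
    simp only [Nat.add_mod_right]
  · intro i j hi hj hij
    rcases lt_or_ge i h with h1 | h1 <;> rcases lt_or_ge j h with h2 | h2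
    · rw [ham_small hh0 h1, ham_small hh0 h2] at hij
      simpa using hij
    · rw [ham_small hh0 h1, ham_large hh0 h2 hj] at hij
      simp at hij
    · rw [ham_large hh0 h1 hi, ham_small hh0 h2] at hij
      simp at hij
    · rw [ham_large hh0 h1 hi, ham_large hh0 h2 hj] at hij
      simp only [Prod.mk.injEq, Fin.mk.injEq, true_and] at hij
      omega
  · intro i j hi hj hij
    rw [colouring_mk, colouring_mk, ham_col hh hi, ham_col hh hj] at hij
    split_ifs at hij with h1 h2 h3 h4 h5 h6 h7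
    · simp only [Option.some.injEq, Prod.mk.injEq, Fin.mk.injEq, true_and] at hij
      rwa [Nat.mod_eq_of_lt h1, Nat.mod_eq_of_lt h2] at hij
    · simp at hij
    · simp at hij
    · simp only [Option.some.injEq, Prod.mk.injEq, Fin.mk.injEq, true_and] at hij
      rw [Nat.mod_eq_of_lt (by omega), Nat.mod_eq_of_lt (by omega)] at hij
      omega
    · omega

end Pool.Agent.helper94.RainbowLower
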