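import Mathlib

set_option autoImplicit false

/-!
# An explicit upper bound for `lcm(1, …, n)`

We prove `lcm(1,…,n) ≤ (31/10)^n` for all `n`, by the Chebyshev-type method based on
`1 = 1/2 + 1/3 + 1/7 + 1/42`.
-/

namespace Pool.Agent.helper94

open Nat Finset

/-- elementary: `x/2 + x/3 + x/7 + x/42 ≤ x`. -/
theorem parts_le (x : ℕ) : x / 2 + x / 3 + x / 7 + x / 42 ≤ x := by omega

theorem parts_lt {x : ℕ} (h1 : 1 ≤ x) (h2 : x < 42) : x / 2 + x / 3 + x / 7 + x / 42 + 1 ≤ x := by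
  omega

theorem rest_le (x : ℕ) : x ≤ x / 2 + x / 3 + x / 7 + x / 42 + 3 := by omega

theorem choose_weight (a b x y : ℕ) : (a + b).choose a * (x ^ a * y ^ b) ≤ (x + y) ^ (a + b) := by
  have h := add_pow x y (a + b)
  rw [h]
  have hmem : a ∈ range (a + b + 1) := by rw [mem_range]; omega
  have := single_le_sum (f := fun m => x ^ m * y ^ (a + b - m) * ((a + b).choose m : ℕ))
    (fun i _ => Nat.zero_le _) hmem
  simp only [Nat.add_sub_cancel_left, Nat.cast_id] at this ⊢
  calc (a + b).choose a * (x ^ a * y ^ b) = x ^ a * y ^ b * (a + b).choose a := by ring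
    _ ≤ _ := this

theorem fact_add (a b : ℕ) : (a + b)! = (a + b).choose a * a ! * b ! := by
  have := Nat.choose_mul_factorial_mul_factorial (Nat.le_add_right a b)
  rw [Nat.add_sub_cancel_left] at this
  exact this.symm

/-- The multinomial-type quotient. -/
theorem exists_quot (n : ℕ) (hn : 0 < n) : ∃ M : ℕ,
    n ! = (n / 2)! * (n / 3)! * (n / 7)! * (n / 42)! * M ∧
    M ≤ n ^ 3 * (2 ^ (n / 2) * 3 ^ (n / 3) * 7 ^ (n / 7) * 42 ^ (n / 42)) := by
  generalize ha : n / 2 = a
  generalize hb : n / 3 = b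
  generalize hc : n / 7 = c
  generalize hd : n / 42 = d
  obtain ⟨r, hr⟩ : ∃ r, n = a + (b + (c + d)) + r := ⟨n - (a + (b + (c + d))), by
    have := parts_le n; omega⟩
  have hr3 : r ≤ 3 := by have := rest_le n; omega
  have h1 := fact_add a (b + (c + d))
  have h2 := fact_add b (c + d)
  have h3 := fact_add c d
  have h4 : (n - r)! * n.descFactorial r = n ! :=
    Nat.factorial_mul_descFactorial (by omega)
  have h5 : n - r = a + (b + (c + d)) := by omega
  refine ⟨(a + (b + (c + d))).choose a * (b + (c + d)).choose b * (c + d).choose c *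
    n.descFactorial r, ?_, ?_⟩
  · rw [← h4, h5, h1, h2, h3]
    ring
  · have e1 : (a + (b + (c + d))).choose a ≤ 2 ^ (a + (b + (c + d))) := by
      have := choose_weight a (b + (c + d)) 1 1
      simpa using this
    have e2 : (b + (c + d)).choose b * 2 ^ b ≤ 3 ^ (b + (c + d)) := by
      have := choose_weight b (c + d) 2 1
      simpa using this
    have e3 : (c + d).choose c * 6 ^ c ≤ 7 ^ (c + d) := by
      have := choose_weight c d 6 1
      simpa using this
    have e4 : n.descFactorial r ≤ n ^ 3 :=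
      (Nat.descFactorial_le_pow n r).trans (Nat.pow_le_pow_right hn hr3)
    have e5 : ((a + (b + (c + d))).choose a * (b + (c + d)).choose b * (c + d).choose c) *
        (2 ^ b * 6 ^ c) ≤ (2 ^ a * 3 ^ b * 7 ^ c * 42 ^ d) * (2 ^ b * 6 ^ c) := by
      calc ((a + (b + (c + d))).choose a * (b + (c + d)).choose b * (c + d).choose c) *
            (2 ^ b * 6 ^ c)
          = (a + (b + (c + d))).choose a * ((b + (c + d)).choose b * 2 ^ b) *
            ((c + d).choose c * 6 ^ c) := by ring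
        _ ≤ 2 ^ (a + (b + (c + d))) * 3 ^ (b + (c + d)) * 7 ^ (c + d) := by gcongr
        _ = (2 ^ a * 3 ^ b * 7 ^ c * 42 ^ d) * (2 ^ b * 6 ^ c) := by
          rw [show (42 : ℕ) = 2 * 3 * 7 from rfl, show (6 : ℕ) = 2 * 3 from rfl]
          simp only [mul_pow, pow_add]
          ring
    have e6 := Nat.le_of_mul_le_mul_right e5 (by positivity)
    calc (a + (b + (c + d))).choose a * (b + (c + d)).choose b * (c + d).choose c *
          n.descFactorial r ≤ (2 ^ a * 3 ^ b * 7 ^ c * 42 ^ d) * n ^ 3 :=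
        Nat.mul_le_mul e6 e4
      _ = _ := by ring

/-- `lcm(1..n)` divides `lcm(1..n/42) * M`. -/
theorem lcmUpto_dvd {n M : ℕ} (hn : 0 < n)
    (hM : n ! = (n / 2)! * (n / 3)! * (n / 7)! * (n / 42)! * M) :
    lcmUpto n ∣ lcmUpto (n / 42) * M := by
  have hM0 : M ≠ 0 := by
    rintro rfl
    rw [mul_zero] at hM
    exact (Nat.factorial_ne_zero n) hM
  rw [← Nat.factorization_prime_le_iff_dvd (lcmUpto_ne_zero n)
    (mul_ne_zero (lcmUpto_ne_zero _) hM0)]
  intro p hp
  have : Fact p.Prime := ⟨hp⟩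
  rw [Nat.factorization_mul (lcmUpto_ne_zero _) hM0, Finsupp.add_apply,
    factorization_lcmUpto n hp, factorization_lcmUpto _ hp]
  -- Legendre
  have hfac : ∀ m ≤ n, (m !).factorization p = ∑ i ∈ Ico 1 (p.log n + 1), m / p ^ i := by
    intro m hm
    rw [Nat.factorization_def _ hp]
    exact padicValNat_factorial (Nat.lt_succ_of_le (Nat.log_mono_right hm))
  have hv := congrArg (fun t => t.factorization p) hM
  rw [Nat.factorization_mul (by positivity) hM0, Nat.factorization_mul (by positivity)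
    (by positivity), Nat.factorization_mul (by positivity) (by positivity),
    Nat.factorization_mul (by positivity) (by positivity)] at hv
  simp only [Finsupp.add_apply] at hv
  rw [hfac n le_rfl, hfac (n / 2) (Nat.div_le_self _ _), hfac (n / 3) (Nat.div_le_self _ _),
    hfac (n / 7) (Nat.div_le_self _ _), hfac (n / 42) (Nat.div_le_self _ _)] at hv
  -- the key inequality
  have hkey : ∑ i ∈ Ico 1 (p.log n + 1), ((n / 2) / p ^ i + (n / 3) / p ^ i + (n / 7) / p ^ i +
      (n / 42) / p ^ i + if p.log (n / 42) < i then 1 else 0) ≤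
      ∑ i ∈ Ico 1 (p.log n + 1), n / p ^ i := by
    apply sum_le_sum
    intro i hi
    rw [mem_Ico] at hi
    have hpi : 0 < p ^ i := pow_pos hp.pos i
    have c2 : (n / 2) / p ^ i = (n / p ^ i) / 2 := by rw [Nat.div_div_eq_div_mul,
      Nat.div_div_eq_div_mul, mul_comm]
    have c3 : (n / 3) / p ^ i = (n / p ^ i) / 3 := by rw [Nat.div_div_eq_div_mul,
      Nat.div_div_eq_div_mul, mul_comm]
    have c7 : (n / 7) / p ^ i = (n / p ^ i) / 7 := by rw [Nat.div_div_eq_div_mul,
      Nat.div_div_eq_div_mul, mul_comm]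
    have c42 : (n / 42) / p ^ i = (n / p ^ i) / 42 := by rw [Nat.div_div_eq_div_mul,
      Nat.div_div_eq_div_mul, mul_comm]
    rw [c2, c3, c7, c42]
    split_ifs with hlt
    · apply parts_lt
      · rw [Nat.one_le_div_iff hpi]
        exact Nat.pow_le_of_le_log hn.ne' (by omega)
      · rw [Nat.div_lt_iff_lt_mul hpi]
        have h6 : n / 42 < p ^ i := by
          exact Nat.lt_pow_of_log_lt hp.one_lt hlt
        omega
    · rw [add_zero]
      exact parts_le _
  have hcount : p.log n ≤ p.log (n / 42) +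
      ∑ i ∈ Ico 1 (p.log n + 1), (if p.log (n / 42) < i then 1 else 0) := by
    rw [← Finset.sum_filter, Finset.sum_const, smul_eq_mul, mul_one]
    have hsub : Ico (p.log (n / 42) + 1) (p.log n + 1) ⊆
        (Ico 1 (p.log n + 1)).filter (fun i => p.log (n / 42) < i) := by
      intro i hi
      rw [mem_Ico] at hi
      rw [mem_filter, mem_Ico]
      omega
    have := card_le_card hsub
    rw [Nat.card_Ico] at this
    omega
  simp only [sum_add_distrib] at hkey
  omega

theorem lcmUpto_succ (n : ℕ) : lcmUpto (n + 1) = Nat.lcm (lcmUpto n) (n + 1) := by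
  unfold lcmUpto
  rw [← Finset.insert_Icc_right_eq_Icc_add_one (by omega), Finset.lcm_insert, id]
  exact Nat.lcm_comm _ _

/-- Boolean check of `lcm(1..n) * 10^n ≤ 31^n` for `c` consecutive values of `n`. -/
def lcmCheck (c : ℕ) : ℕ → ℕ → ℕ → ℕ → Bool :=
  Nat.rec (motive := fun _ => ℕ → ℕ → ℕ → ℕ → Bool) (fun _ _ _ _ => true)
    (fun _ ih => fun n L a b =>
      Bool.rec false (ih (Nat.succ n) (Nat.lcm L (Nat.succ n)) (Nat.mul a 10) (Nat.mul b 31))
        (Nat.ble (Nat.mul L a) b)) c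

theorem lcmCheck_succ (c n L a b : ℕ) : lcmCheck (c + 1) n L a b =
    Bool.rec false (lcmCheck c (Nat.succ n) (Nat.lcm L (Nat.succ n)) (Nat.mul a 10) (Nat.mul b 31))
        (Nat.ble (Nat.mul L a) b) := rfl

theorem lcmCheck_sound (c : ℕ) : ∀ n L a b : ℕ, L = lcmUpto n → a = 10 ^ n → b = 31 ^ n →
    lcmCheck c n L a b = true → ∀ m, n ≤ m → m < n + c → lcmUpto m * 10 ^ m ≤ 31 ^ m := by
  induction c with
  | zero => intro n L a b _ _ _ _ m h1 h2; omega
  | succ c ih =>
    intro n L a b hL ha hb h m h1 h2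
    rw [lcmCheck_succ] at h
    cases hcase : Nat.ble (Nat.mul L a) b with
    | false => rw [hcase] at h; exact absurd h (by simp)
    | true =>
      rw [hcase] at h
      simp only at h
      rcases Nat.eq_or_lt_of_le h1 with h3 | h3
      · subst h3
        have := Nat.le_of_ble_eq_true hcase
        rw [hL, ha, hb] at this
        exact this
      · refine ih (Nat.succ n) _ _ _ ?_ ?_ ?_ h m h3 (by omega)
        · rw [hL]; exact (lcmUpto_succ n).symm
        · rw [ha]; exact (pow_succ 10 n).symm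
        · rw [hb]; exact (pow_succ 31 n).symm

set_option maxRecDepth 100000 in
theorem lcmCheck_base : lcmCheck 882 0 1 1 1 = true := by decide +kernel

theorem lcm_bound_small (n : ℕ) (hn : n < 882) : lcmUpto n * 10 ^ n ≤ 31 ^ n :=
  lcmCheck_sound 882 0 1 1 1 (by simp [lcmUpto]) (by simp) (by simp) lcmCheck_base n
    (Nat.zero_le _) (by omega)

/-- numeric inequality used in the induction step -/
theorem num_step (q : ℕ) (hq : 21 ≤ q) :
    (42 * q + 41) ^ 3 * (10 ^ 41 * (2 ^ 21 * 3 ^ 14 * 7 ^ 6 * 42)) ^ q ≤ (31 ^ 41) ^ q := by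
  induction q, hq using Nat.le_induction with
  | base => norm_num
  | succ q hq ih =>
    have h1 : (42 * (q + 1) + 41) ^ 3 ≤ 2 * (42 * q + 41) ^ 3 := by
      have h2 : 4 * (42 * (q + 1) + 41) ≤ 5 * (42 * q + 41) := by omega
      have h3 : (4 * (42 * (q + 1) + 41)) ^ 3 ≤ (5 * (42 * q + 41)) ^ 3 :=
        Nat.pow_le_pow_left h2 3
      rw [mul_pow, mul_pow] at h3
      have h4 : (5 : ℕ) ^ 3 * (42 * q + 41) ^ 3 ≤ 4 ^ 3 * (2 * (42 * q + 41) ^ 3) := by
        have : (5 : ℕ) ^ 3 ≤ 4 ^ 3 * 2 := by norm_num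
        calc (5 : ℕ) ^ 3 * (42 * q + 41) ^ 3 ≤ (4 ^ 3 * 2) * (42 * q + 41) ^ 3 :=
              Nat.mul_le_mul_right _ this
          _ = _ := by ring
      have h5 := h3.trans h4
      exact Nat.le_of_mul_le_mul_left h5 (by norm_num)
    have h6 : 2 * (10 ^ 41 * (2 ^ 21 * 3 ^ 14 * 7 ^ 6 * 42)) ≤ 31 ^ 41 := by norm_num
    calc (42 * (q + 1) + 41) ^ 3 * (10 ^ 41 * (2 ^ 21 * 3 ^ 14 * 7 ^ 6 * 42)) ^ (q + 1)
        ≤ (2 * (42 * q + 41) ^ 3) * (10 ^ 41 * (2 ^ 21 * 3 ^ 14 * 7 ^ 6 * 42)) ^ (q + 1) :=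
          Nat.mul_le_mul_right _ h1
      _ = ((42 * q + 41) ^ 3 * (10 ^ 41 * (2 ^ 21 * 3 ^ 14 * 7 ^ 6 * 42)) ^ q) *
          (2 * (10 ^ 41 * (2 ^ 21 * 3 ^ 14 * 7 ^ 6 * 42))) := by ring
      _ ≤ (31 ^ 41) ^ q * 31 ^ 41 := Nat.mul_le_mul ih h6
      _ = (31 ^ 41) ^ (q + 1) := (pow_succ _ _).symm

/-- `lcm(1,…,n) ≤ (31/10)^n` for every `n`. -/
theorem lcm_bound (n : ℕ) : lcmUpto n * 10 ^ n ≤ 31 ^ n := by
  induction n using Nat.strong_induction_on with
  | _ n ih =>
    rcases Nat.lt_or_ge n 882 with hlt | hge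
    · exact lcm_bound_small n hlt
    have hn : 0 < n := by omega
    obtain ⟨M, hM, hMle⟩ := exists_quot n hn
    have hdvd := lcmUpto_dvd hn hM
    have hM0 : 0 < M := by
      rcases Nat.eq_zero_or_pos M with h | h
      · rw [h, mul_zero] at hM; exact absurd hM (Nat.factorial_ne_zero n)
      · exact h
    have h1 : lcmUpto n ≤ lcmUpto (n / 42) * M :=
      Nat.le_of_dvd (Nat.mul_pos (lcmUpto_pos _) hM0) hdvd
    have ih' := ih (n / 42) (by omega)
    obtain ⟨q, s, hs, hnq⟩ : ∃ q s, s < 42 ∧ n = 42 * q + s := ⟨n / 42, n % 42,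
      Nat.mod_lt _ (by norm_num), (Nat.div_add_mod n 42).symm⟩
    have hq : n / 42 = q := by omega
    have h2 : n / 2 = 21 * q + s / 2 := by omega
    have h3 : n / 3 = 14 * q + s / 3 := by omega
    have h7 : n / 7 = 6 * q + s / 7 := by omega
    have hq21 : 21 ≤ q := by omega
    rw [h2, h3, h7, hq] at hMle
    rw [hq] at ih' h1
    -- the small part
    have hsmall : 2 ^ (s / 2) * 3 ^ (s / 3) * 7 ^ (s / 7) * 10 ^ s ≤ 31 ^ s := by
      interval_cases s <;> norm_num
    have hn3 : n ^ 3 ≤ (42 * q + 41) ^ 3 := Nat.pow_le_pow_left (by omega) 3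
    have hnum := num_step q hq21
    calc lcmUpto n * 10 ^ n ≤ (lcmUpto q * M) * 10 ^ n := Nat.mul_le_mul_right _ h1
      _ ≤ (lcmUpto q * (n ^ 3 * (2 ^ (21 * q + s / 2) * 3 ^ (14 * q + s / 3) *
            7 ^ (6 * q + s / 7) * 42 ^ q))) * 10 ^ n := by gcongr
      _ ≤ (lcmUpto q * ((42 * q + 41) ^ 3 * (2 ^ (21 * q + s / 2) * 3 ^ (14 * q + s / 3) *
            7 ^ (6 * q + s / 7) * 42 ^ q))) * 10 ^ n := by gcongr
      _ = (lcmUpto q * 10 ^ q) * ((42 * q + 41) ^ 3 *
            (10 ^ 41 * (2 ^ 21 * 3 ^ 14 * 7 ^ 6 * 42)) ^ q) *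
            (2 ^ (s / 2) * 3 ^ (s / 3) * 7 ^ (s / 7) * 10 ^ s) := by
          rw [hnq]
          simp only [mul_pow, pow_add, pow_mul]
          have : (10 ^ 42) ^ q = (10 ^ 41) ^ q * 10 ^ q := by
            rw [show (10 : ℕ) ^ 42 = 10 ^ 41 * 10 from rfl, mul_pow]
          rw [this]
          ring
      _ ≤ 31 ^ q * (31 ^ 41) ^ q * 31 ^ s :=
          Nat.mul_le_mul (Nat.mul_le_mul ih' hnum) hsmall
      _ = 31 ^ n := by
          rw [hnq, ← pow_mul, ← pow_add, ← pow_add]
          congr 1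
          ring

end Pool.Agent.helper94
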