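import Mathlib
import Pool.Agent.helper94.LcmBound

set_option autoImplicit false

/-!
# An effective lower bound for `|e log (3/2) - o log (4/3)|`

Simultaneous Padé-type approximations to `log (3/2)` and `log (4/3)`, given by the function
`(x-2)^(4n) (x-3)^(5n) (x-4)^(3n) / x^(5n+1)`.
-/

namespace Pool.Agent.helper94

open Polynomial Finset

/-- The rational part of the primitive of `p(x) / x^(m+1)`. -/
noncomputable def ratPart (p : ℤ[X]) (m N : ℕ) (x : ℝ) : ℝ :=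
  ∑ j ∈ (range (N + 1)).erase m, (p.coeff j : ℝ) * (x ^ ((j : ℤ) - m) / ((j : ℝ) - m))

/-- The primitive of `p(x) / x^(m+1)`. -/
noncomputable def prim (p : ℤ[X]) (m N : ℕ) (x : ℝ) : ℝ :=
  ratPart p m N x + p.coeff m * Real.log x

theorem eval_map_eq (p : ℤ[X]) {N : ℕ} (hN : p.natDegree ≤ N) (x : ℝ) :
    (p.map (Int.castRingHom ℝ)).eval x = ∑ j ∈ range (N + 1), (p.coeff j : ℝ) * x ^ j := by
  rw [eval_map, eval₂_eq_sum_range' _ (Nat.lt_succ_of_le hN)]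
  rfl

theorem hasDerivAt_prim (p : ℤ[X]) {m N : ℕ} (hN : p.natDegree ≤ N) (hm : m ≤ N) {x : ℝ}
    (hx : 0 < x) :
    HasDerivAt (prim p m N) ((p.map (Int.castRingHom ℝ)).eval x / x ^ (m + 1)) x := by
  have h1 : ∀ j ∈ (range (N + 1)).erase m,
      HasDerivAt (fun y : ℝ => (p.coeff j : ℝ) * (y ^ ((j : ℤ) - m) / ((j : ℝ) - m)))
        ((p.coeff j : ℝ) * x ^ ((j : ℤ) - m - 1)) x := by
    intro j hj
    have hjm : j ≠ m := (mem_erase.mp hj).1
    have hne : ((j : ℝ) - m) ≠ 0 := by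
      rw [sub_ne_zero]; exact_mod_cast hjm
    have h2 := (hasDerivAt_zpow ((j : ℤ) - m) x (Or.inl hx.ne')).div_const ((j : ℝ) - m)
    have h3 := h2.const_mul (p.coeff j : ℝ)
    convert! h3 using 1
    push_cast
    field_simp
  have h2 := HasDerivAt.fun_sum h1
  have h3 := (Real.hasDerivAt_log hx.ne').const_mul (p.coeff m : ℝ)
  have h4 := h2.add h3
  convert! h4 using 1
  rw [eval_map_eq p hN]
  have hmem : m ∈ range (N + 1) := mem_range.mpr (by omega)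
  rw [← Finset.sum_erase_add _ _ hmem, add_div, Finset.sum_div]
  congr 1
  · apply Finset.sum_congr rfl
    intro j hj
    rw [mul_div_assoc]
    congr 1
    rw [← zpow_natCast x j, ← zpow_natCast x (m + 1), ← zpow_sub₀ hx.ne']
    congr 1
    push_cast
    ring
  · field_simp
    ring

/-- Integrality of the rational part. -/
theorem ratPart_integral (p q : ℤ[X]) {m N L v : ℕ} (hv : 0 < v)
    (hpq : p.comp (C (v : ℤ) * X) = C ((v : ℤ) ^ m) * q)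
    (h1 : m ≤ L) (h2 : N ≤ m + L) :
    ∃ z : ℤ, (z : ℝ) = (Nat.lcmUpto L : ℝ) * ratPart p m N v := by
  have hcoef : ∀ j, p.coeff j * (v : ℤ) ^ j = (v : ℤ) ^ m * q.coeff j := by
    intro j
    have := congrArg (fun r => r.coeff j) hpq
    rw [comp_C_mul_X_coeff, coeff_C_mul] at this
    exact this
  have hterm : ∀ j ∈ (range (N + 1)).erase m, ∃ z : ℤ, (z : ℝ) = (Nat.lcmUpto L : ℝ) *
      ((p.coeff j : ℝ) * ((v : ℝ) ^ ((j : ℤ) - m) / ((j : ℝ) - m))) := by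
    intro j hj
    have hjm : j ≠ m := (mem_erase.mp hj).1
    have hjN : j < N + 1 := mem_range.mp (mem_erase.mp hj).2
    have hne : ((j : ℝ) - m) ≠ 0 := by
      rw [sub_ne_zero]; exact_mod_cast hjm
    have hvR : (v : ℝ) ≠ 0 := by exact_mod_cast hv.ne'
    have h3 : (p.coeff j : ℝ) * (v : ℝ) ^ ((j : ℤ) - m) = q.coeff j := by
      have := hcoef j
      have h4 : (p.coeff j : ℝ) * (v : ℝ) ^ j = (v : ℝ) ^ m * q.coeff j := by exact_mod_cast this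
      rw [zpow_sub₀ hvR, zpow_natCast, zpow_natCast, ← mul_div_assoc, h4]
      field_simp
    obtain ⟨w, hw⟩ : ∃ w : ℤ, (w : ℝ) * ((j : ℝ) - m) = Nat.lcmUpto L := by
      have hdvd : ((j : ℤ) - m) ∣ (Nat.lcmUpto L : ℤ) := by
        have hpos : 1 ≤ ((j : ℤ) - m).natAbs := by omega
        have hle : ((j : ℤ) - m).natAbs ≤ L := by omega
        have : ((j : ℤ) - m).natAbs ∣ Nat.lcmUpto L :=
          Finset.dvd_lcm (f := id) (mem_Icc.mpr ⟨hpos, hle⟩)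
        exact Int.natAbs_dvd.mp (by exact_mod_cast this)
      obtain ⟨w, hw⟩ := hdvd
      refine ⟨w, ?_⟩
      have : ((Nat.lcmUpto L : ℤ) : ℝ) = (((j : ℤ) - m) * w : ℤ) := by rw [hw]
      push_cast at this
      rw [this]; ring
    refine ⟨q.coeff j * w, ?_⟩
    rw [← hw]
    push_cast
    rw [← h3]
    field_simp
  choose! g hg using hterm
  refine ⟨∑ j ∈ (range (N + 1)).erase m, g j, ?_⟩
  push_cast
  rw [ratPart, Finset.mul_sum]
  exact Finset.sum_congr rfl hg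

/-- The auxiliary polynomial. -/
noncomputable def padP (n : ℕ) : ℤ[X] :=
  (X - C 2) ^ (4 * n) * (X - C 3) ^ (5 * n) * (X - C 4) ^ (3 * n)

theorem padP_natDegree (n : ℕ) : (padP n).natDegree ≤ 12 * n := by
  unfold padP
  refine (natDegree_mul_le).trans ?_
  refine (Nat.add_le_add_right natDegree_mul_le _).trans ?_
  have h1 : ((X - C (2 : ℤ)) ^ (4 * n)).natDegree ≤ 4 * n := by
    refine natDegree_pow_le.trans ?_
    rw [natDegree_X_sub_C]; omega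
  have h2 : ((X - C (3 : ℤ)) ^ (5 * n)).natDegree ≤ 5 * n := by
    refine natDegree_pow_le.trans ?_
    rw [natDegree_X_sub_C]; omega
  have h3 : ((X - C (4 : ℤ)) ^ (3 * n)).natDegree ≤ 3 * n := by
    refine natDegree_pow_le.trans ?_
    rw [natDegree_X_sub_C]; omega
  omega

theorem padP_eval (n : ℕ) (x : ℝ) : ((padP n).map (Int.castRingHom ℝ)).eval x =
    (x - 2) ^ (4 * n) * (x - 3) ^ (5 * n) * (x - 4) ^ (3 * n) := by
  simp [padP]

theorem padP_comp2 (n : ℕ) : ∃ q : ℤ[X],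
    (padP n).comp (C ((2 : ℕ) : ℤ) * X) = C (((2 : ℕ) : ℤ) ^ (5 * n)) * q := by
  refine ⟨C (2 ^ (2 * n)) * ((X - C 1) ^ (4 * n) * (C 2 * X - C 3) ^ (5 * n) *
    (X - C 2) ^ (3 * n)), ?_⟩
  have e1 : (C (2 : ℤ) * X - C 2 : ℤ[X]) = C 2 * (X - C 1) := by simp; ring
  have e2 : (C (2 : ℤ) * X - C 4 : ℤ[X]) = C 2 * (X - C 2) := by
    rw [show (4 : ℤ) = 2 * 2 from rfl, C_mul]; ring
  simp only [padP, mul_comp, pow_comp, sub_comp, X_comp, C_comp, Nat.cast_ofNat]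
  rw [e1, e2, mul_pow, mul_pow]
  simp only [C_pow]
  ring

theorem padP_comp3 (n : ℕ) : ∃ q : ℤ[X],
    (padP n).comp (C ((3 : ℕ) : ℤ) * X) = C (((3 : ℕ) : ℤ) ^ (5 * n)) * q := by
  refine ⟨(C 3 * X - C 2) ^ (4 * n) * (X - C 1) ^ (5 * n) * (C 3 * X - C 4) ^ (3 * n), ?_⟩
  have e1 : (C (3 : ℤ) * X - C 3 : ℤ[X]) = C 3 * (X - C 1) := by simp; ring
  simp only [padP, mul_comp, pow_comp, sub_comp, X_comp, C_comp, Nat.cast_ofNat]
  rw [e1, mul_pow]
  simp only [C_pow]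
  ring

theorem padP_comp4 (n : ℕ) : ∃ q : ℤ[X],
    (padP n).comp (C ((4 : ℕ) : ℤ) * X) = C (((4 : ℕ) : ℤ) ^ (5 * n)) * q := by
  refine ⟨(C 2 * X - C 1) ^ (4 * n) * (C 4 * X - C 3) ^ (5 * n) * (X - C 1) ^ (3 * n), ?_⟩
  have e1 : (C (4 : ℤ) * X - C 2 : ℤ[X]) = C 2 * (C 2 * X - C 1) := by
    rw [show (4 : ℤ) = 2 * 2 from rfl, C_mul]; simp; ring
  have e2 : (C (4 : ℤ) * X - C 4 : ℤ[X]) = C 4 * (X - C 1) := by simp; ring
  simp only [padP, mul_comp, pow_comp, sub_comp, X_comp, C_comp, Nat.cast_ofNat]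
  rw [e1, e2, mul_pow, mul_pow]
  have e3 : (C (4 : ℤ) : ℤ[X]) = C 2 * C 2 := by rw [← C_mul]; rfl
  simp only [C_pow]
  have e4 : (C (4 : ℤ) : ℤ[X]) ^ (5 * n) = C 2 ^ (4 * n) * C 4 ^ (3 * n) := by
    have : (C (2 : ℤ) : ℤ[X]) ^ (4 * n) = C 4 ^ (2 * n) := by
      rw [e3, ← pow_two, ← pow_mul]; congr 1; ring
    rw [this, ← pow_add]; congr 1; ring
  rw [e4]
  ring

/-- Bound on the coefficients of `padP`. -/
theorem padP_coeff_le (n : ℕ) : |((padP n).coeff (5 * n) : ℝ)| ≤ 5400000 ^ n := by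
  let Q : ℕ[X] := (X + C 2) ^ (4 * n) * (X + C 3) ^ (5 * n) * (X + C 4) ^ (3 * n)
  have h1 : (Q.map (Nat.castRingHom ℤ)) = (padP n).comp (-X) := by
    simp only [Q, padP, Polynomial.map_mul, Polynomial.map_pow, Polynomial.map_add,
      map_X, map_C, mul_comp, pow_comp, sub_comp, X_comp, C_comp]
    have e : ∀ c : ℤ, (-X - C c : ℤ[X]) = -(X + C c) := fun c => by ring
    rw [e, e, e, neg_pow (X + C 2 : ℤ[X]), neg_pow (X + C 3 : ℤ[X]), neg_pow (X + C 4 : ℤ[X])]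
    have h2 : ((-1 : ℤ[X]) ^ (4 * n)) * ((-1) ^ (5 * n) * (-1) ^ (3 * n)) = 1 := by
      rw [← pow_add, ← pow_add]
      have : Even (4 * n + (5 * n + 3 * n)) := ⟨6 * n, by ring⟩
      exact this.neg_one_pow
    have e5 : (C ((Nat.castRingHom ℤ) 2) : ℤ[X]) = C 2 := by simp
    have e6 : (C ((Nat.castRingHom ℤ) 3) : ℤ[X]) = C 3 := by simp
    have e7 : (C ((Nat.castRingHom ℤ) 4) : ℤ[X]) = C 4 := by simp
    rw [e5, e6, e7]
    linear_combination (-((X + C 2) ^ (4 * n) * (X + C 3) ^ (5 * n) * (X + C 4) ^ (3 * n))) * h2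
  have h3 : ((padP n).coeff (5 * n)) * (-1) ^ (5 * n) = (Q.coeff (5 * n) : ℤ) := by
    have := congrArg (fun r => r.coeff (5 * n)) h1
    simp only [coeff_map] at this
    have e : (-X : ℤ[X]) = C (-1) * X := by simp
    rw [e, comp_C_mul_X_coeff] at this
    exact_mod_cast this.symm
  have h4 : |((padP n).coeff (5 * n) : ℝ)| = Q.coeff (5 * n) := by
    have h5 : |(((padP n).coeff (5 * n) : ℤ) : ℝ) * (-1) ^ (5 * n)| = |(Q.coeff (5 * n) : ℝ)| := by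
      rw [← Int.cast_natCast (Q.coeff (5 * n)), ← h3]
      push_cast
      rfl
    rw [abs_mul, abs_pow, abs_neg, abs_one, one_pow, mul_one] at h5
    rw [h5]
    exact abs_of_nonneg (by positivity)
  rw [h4]
  have h6 : Q.coeff (5 * n) * 2 ^ (5 * n) ≤ Q.eval 2 := by
    rw [eval_eq_sum_range]
    by_cases hd : 5 * n ≤ Q.natDegree
    · exact single_le_sum (f := fun i => Q.coeff i * 2 ^ i) (fun _ _ => Nat.zero_le _)
        (mem_range.mpr (by omega))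
    · rw [coeff_eq_zero_of_natDegree_lt (by omega)]
      simp
  have h7 : Q.eval 2 = 4 ^ (4 * n) * 5 ^ (5 * n) * 6 ^ (3 * n) := by simp [Q]
  have h8 : Q.coeff (5 * n) * 2 ^ (5 * n) ≤ 5400000 ^ n * 2 ^ (5 * n) := by
    refine h6.trans ?_
    rw [h7]
    apply le_of_eq
    simp only [pow_mul, ← mul_pow]
    norm_num
  have h9 := Nat.le_of_mul_le_mul_right h8 (by positivity)
  exact_mod_cast h9

/-- The basic function. -/
def fR (x : ℝ) : ℝ := (x - 2) ^ 4 * (x - 3) ^ 5 * (x - 4) ^ 3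

theorem padP_eval' (n : ℕ) (x : ℝ) : ((padP n).map (Int.castRingHom ℝ)).eval x = fR x ^ n := by
  rw [padP_eval, fR, mul_pow, mul_pow, ← pow_mul, ← pow_mul, ← pow_mul]

theorem grid {t : ℝ} (h0 : 0 ≤ t) (h1 : t ≤ 1) :
    ∃ i : ℕ, i < 200 ∧ (i : ℝ) ≤ 200 * t ∧ 200 * t ≤ i + 1 := by
  rcases lt_or_ge (200 * t) 199 with h | h
  · refine ⟨⌊200 * t⌋₊, ?_, Nat.floor_le (by positivity), (Nat.lt_floor_add_one _).le⟩
    have : ⌊200 * t⌋₊ < 200 := (Nat.floor_lt (by positivity)).mpr (by push_cast; linarith)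
    exact this
  · exact ⟨199, by norm_num, by push_cast; linarith, by push_cast; linarith⟩

theorem check1 : ∀ i < 200, (i + 1) ^ 4 * (200 - i) ^ 5 * (400 - i) ^ 3 * 8260 ≤
    (400 + i) ^ 5 * 200 ^ 7 := by decide +kernel

theorem check2 : ∀ i < 200, (400 - i) ^ 4 * (200 - i) ^ 5 * (i + 1) ^ 3 * 8260 ≤
    (799 - i) ^ 5 * 200 ^ 7 := by decide +kernel

theorem fR_bound1 {t : ℝ} (h0 : 0 ≤ t) (h1 : t ≤ 1) :
    t ^ 4 * (1 - t) ^ 5 * (2 - t) ^ 3 * 8260 ≤ (2 + t) ^ 5 := by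
  obtain ⟨i, hi, hi1, hi2⟩ := grid h0 h1
  have hc := check1 i hi
  have hc' : ((i : ℝ) + 1) ^ 4 * (200 - i) ^ 5 * (400 - i) ^ 3 * 8260 ≤
      (400 + i) ^ 5 * 200 ^ 7 := by
    have e1 : ((200 - i : ℕ) : ℝ) = 200 - i := by push_cast [Nat.cast_sub hi.le]; ring
    have e2 : ((400 - i : ℕ) : ℝ) = 400 - i := by
      push_cast [Nat.cast_sub (show i ≤ 400 by omega)]; ring
    rw [← e1, ← e2]
    exact_mod_cast hc
  have hi' : (i : ℝ) ≤ 200 := by exact_mod_cast hi.le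
  have a1 : (200 * t) ^ 4 ≤ ((i : ℝ) + 1) ^ 4 := by gcongr
  have a2 : (200 * (1 - t)) ^ 5 ≤ (200 - (i : ℝ)) ^ 5 := by
    apply pow_le_pow_left₀ (by linarith); linarith
  have a3 : (200 * (2 - t)) ^ 3 ≤ (400 - (i : ℝ)) ^ 3 := by
    apply pow_le_pow_left₀ (by linarith); linarith
  have a4 : (400 + (i : ℝ)) ^ 5 ≤ (200 * (2 + t)) ^ 5 := by
    apply pow_le_pow_left₀ (by positivity); linarith
  have h2 : (200 * t) ^ 4 * (200 * (1 - t)) ^ 5 * (200 * (2 - t)) ^ 3 * 8260 ≤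
      (200 * (2 + t)) ^ 5 * 200 ^ 7 := by
    have b1 : (0 : ℝ) ≤ (200 * t) ^ 4 := by positivity
    have b2 : (0 : ℝ) ≤ (200 * (1 - t)) ^ 5 := by apply pow_nonneg; linarith
    have b3 : (0 : ℝ) ≤ (200 * (2 - t)) ^ 3 := by apply pow_nonneg; linarith
    calc (200 * t) ^ 4 * (200 * (1 - t)) ^ 5 * (200 * (2 - t)) ^ 3 * 8260
        ≤ ((i : ℝ) + 1) ^ 4 * (200 - i) ^ 5 * (400 - i) ^ 3 * 8260 := by gcongr
      _ ≤ (400 + (i : ℝ)) ^ 5 * 200 ^ 7 := hc'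
      _ ≤ _ := by gcongr
  have h3 : (200 : ℝ) ^ 12 * (t ^ 4 * (1 - t) ^ 5 * (2 - t) ^ 3 * 8260) ≤
      200 ^ 12 * (2 + t) ^ 5 := by
    calc (200 : ℝ) ^ 12 * (t ^ 4 * (1 - t) ^ 5 * (2 - t) ^ 3 * 8260)
        = (200 * t) ^ 4 * (200 * (1 - t)) ^ 5 * (200 * (2 - t)) ^ 3 * 8260 := by ring
      _ ≤ (200 * (2 + t)) ^ 5 * 200 ^ 7 := h2
      _ = _ := by ring
  exact le_of_mul_le_mul_left h3 (by positivity)

theorem fR_bound2 {t : ℝ} (h0 : 0 ≤ t) (h1 : t ≤ 1) :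
    (2 - t) ^ 4 * (1 - t) ^ 5 * t ^ 3 * 8260 ≤ (4 - t) ^ 5 := by
  obtain ⟨i, hi, hi1, hi2⟩ := grid h0 h1
  have hc := check2 i hi
  have hc' : (400 - (i : ℝ)) ^ 4 * (200 - i) ^ 5 * (i + 1) ^ 3 * 8260 ≤
      (799 - i) ^ 5 * 200 ^ 7 := by
    have e1 : ((200 - i : ℕ) : ℝ) = 200 - i := by push_cast [Nat.cast_sub hi.le]; ring
    have e2 : ((400 - i : ℕ) : ℝ) = 400 - i := by
      push_cast [Nat.cast_sub (show i ≤ 400 by omega)]; ring
    have e3 : ((799 - i : ℕ) : ℝ) = 799 - i := by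
      push_cast [Nat.cast_sub (show i ≤ 799 by omega)]; ring
    rw [← e1, ← e2, ← e3]
    exact_mod_cast hc
  have hi' : (i : ℝ) ≤ 199 := by exact_mod_cast (by omega : i ≤ 199)
  have a1 : (200 * t) ^ 3 ≤ ((i : ℝ) + 1) ^ 3 := by gcongr
  have a2 : (200 * (1 - t)) ^ 5 ≤ (200 - (i : ℝ)) ^ 5 := by
    apply pow_le_pow_left₀ (by linarith); linarith
  have a3 : (200 * (2 - t)) ^ 4 ≤ (400 - (i : ℝ)) ^ 4 := by
    apply pow_le_pow_left₀ (by linarith); linarith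
  have a4 : (799 - (i : ℝ)) ^ 5 ≤ (200 * (4 - t)) ^ 5 := by
    apply pow_le_pow_left₀ (by linarith); linarith
  have h2 : (200 * (2 - t)) ^ 4 * (200 * (1 - t)) ^ 5 * (200 * t) ^ 3 * 8260 ≤
      (200 * (4 - t)) ^ 5 * 200 ^ 7 := by
    have b1 : (0 : ℝ) ≤ (200 * t) ^ 3 := by positivity
    have b2 : (0 : ℝ) ≤ (200 * (1 - t)) ^ 5 := by apply pow_nonneg; linarith
    have b3 : (0 : ℝ) ≤ (200 * (2 - t)) ^ 4 := by apply pow_nonneg; linarith
    have b4 : (0 : ℝ) ≤ 200 - (i : ℝ) := by linarith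
    calc (200 * (2 - t)) ^ 4 * (200 * (1 - t)) ^ 5 * (200 * t) ^ 3 * 8260
        ≤ (400 - (i : ℝ)) ^ 4 * (200 - i) ^ 5 * (i + 1) ^ 3 * 8260 := by gcongr
      _ ≤ (799 - (i : ℝ)) ^ 5 * 200 ^ 7 := hc'
      _ ≤ _ := by gcongr
  have h3 : (200 : ℝ) ^ 12 * ((2 - t) ^ 4 * (1 - t) ^ 5 * t ^ 3 * 8260) ≤
      200 ^ 12 * (4 - t) ^ 5 := by
    calc (200 : ℝ) ^ 12 * ((2 - t) ^ 4 * (1 - t) ^ 5 * t ^ 3 * 8260)
        = (200 * (2 - t)) ^ 4 * (200 * (1 - t)) ^ 5 * (200 * t) ^ 3 * 8260 := by ring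
      _ ≤ (200 * (4 - t)) ^ 5 * 200 ^ 7 := h2
      _ = _ := by ring
  exact le_of_mul_le_mul_left h3 (by positivity)

theorem abs_fR_le {x : ℝ} (h2 : 2 ≤ x) (h4 : x ≤ 4) : |fR x| ≤ x ^ 5 * (1 / 8260) := by
  rcases le_total x 3 with h3 | h3
  · have h := fR_bound1 (t := x - 2) (by linarith) (by linarith)
    have e : |fR x| = (x - 2) ^ 4 * (1 - (x - 2)) ^ 5 * (2 - (x - 2)) ^ 3 := by
      have : fR x = (x - 2) ^ 4 * (1 - (x - 2)) ^ 5 * (2 - (x - 2)) ^ 3 := by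
        unfold fR; ring
      rw [this, abs_of_nonneg]
      have b2 : (0 : ℝ) ≤ (1 - (x - 2)) ^ 5 := by apply pow_nonneg; linarith
      have b3 : (0 : ℝ) ≤ (2 - (x - 2)) ^ 3 := by apply pow_nonneg; linarith
      positivity
    rw [e]
    have e2 : (2 + (x - 2)) ^ 5 = x ^ 5 := by ring
    rw [e2] at h
    linarith
  · have h := fR_bound2 (t := 4 - x) (by linarith) (by linarith)
    have e : |fR x| = (2 - (4 - x)) ^ 4 * (1 - (4 - x)) ^ 5 * (4 - x) ^ 3 := by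
      have : fR x = -((2 - (4 - x)) ^ 4 * (1 - (4 - x)) ^ 5 * (4 - x) ^ 3) := by
        unfold fR; ring
      rw [this, abs_neg, abs_of_nonneg]
      have b1 : (0 : ℝ) ≤ (4 - x) ^ 3 := by apply pow_nonneg; linarith
      have b2 : (0 : ℝ) ≤ (1 - (4 - x)) ^ 5 := by apply pow_nonneg; linarith
      positivity
    rw [e]
    have e2 : (4 - (4 - x)) ^ 5 = x ^ 5 := by ring
    rw [e2] at h
    linarith

theorem fR_pos {x : ℝ} (h2 : 2 ≤ x) (h3 : x ≤ 3) : 0 ≤ fR x := by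
  have : fR x = (x - 2) ^ 4 * (3 - x) ^ 5 * (4 - x) ^ 3 := by unfold fR; ring
  rw [this]
  have b2 : (0 : ℝ) ≤ (3 - x) ^ 5 := by apply pow_nonneg; linarith
  have b3 : (0 : ℝ) ≤ (4 - x) ^ 3 := by apply pow_nonneg; linarith
  positivity

theorem fR_neg {x : ℝ} (h2 : 3 ≤ x) (h3 : x ≤ 4) : fR x ≤ 0 := by
  have : fR x = -((x - 2) ^ 4 * (x - 3) ^ 5 * (4 - x) ^ 3) := by unfold fR; ring
  rw [this]
  have b2 : (0 : ℝ) ≤ (x - 3) ^ 5 := by apply pow_nonneg; linarith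
  have b3 : (0 : ℝ) ≤ (4 - x) ^ 3 := by apply pow_nonneg; linarith
  have : 0 ≤ (x - 2) ^ 4 * (x - 3) ^ 5 * (4 - x) ^ 3 := by positivity
  linarith

theorem fR_lower {x : ℝ} (h2 : 2.34 ≤ x) (h3 : x ≤ 2.35) : x ^ 5 * (1 / 10300) ≤ fR x := by
  have : fR x = (x - 2) ^ 4 * (3 - x) ^ 5 * (4 - x) ^ 3 := by unfold fR; ring
  rw [this]
  have a1 : (0.34 : ℝ) ^ 4 ≤ (x - 2) ^ 4 := by apply pow_le_pow_left₀ (by norm_num); linarith
  have a2 : (0.65 : ℝ) ^ 5 ≤ (3 - x) ^ 5 := by apply pow_le_pow_left₀ (by norm_num); linarith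
  have a3 : (1.65 : ℝ) ^ 3 ≤ (4 - x) ^ 3 := by apply pow_le_pow_left₀ (by norm_num); linarith
  have a4 : x ^ 5 ≤ (2.35 : ℝ) ^ 5 := by apply pow_le_pow_left₀ (by linarith); linarith
  calc x ^ 5 * (1 / 10300) ≤ (2.35 : ℝ) ^ 5 * (1 / 10300) := by gcongr
    _ ≤ 0.34 ^ 4 * 0.65 ^ 5 * 1.65 ^ 3 := by norm_num
    _ ≤ (x - 2) ^ 4 * (3 - x) ^ 5 * (4 - x) ^ 3 := by
      have b2 : (0 : ℝ) ≤ (3 - x) ^ 5 := by apply pow_nonneg; linarith
      gcongr

/-- The primitive for the auxiliary polynomial. -/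
noncomputable def FF (n : ℕ) (x : ℝ) : ℝ := prim (padP n) (5 * n) (12 * n) x

theorem hasDerivAt_FF (n : ℕ) {x : ℝ} (hx : 0 < x) :
    HasDerivAt (FF n) (fR x ^ n / x ^ (5 * n + 1)) x := by
  have := hasDerivAt_prim (padP n) (m := 5 * n) (N := 12 * n) (padP_natDegree n) (by omega) hx
  rw [padP_eval'] at this
  exact this

theorem FF_mvt (n : ℕ) {a b : ℝ} (ha : 0 < a) (hab : a < b) :
    ∃ c ∈ Set.Ioo a b, FF n b - FF n a = fR c ^ n / c ^ (5 * n + 1) * (b - a) := by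
  obtain ⟨c, hc, h⟩ := exists_hasDerivAt_eq_slope (FF n)
    (fun x => fR x ^ n / x ^ (5 * n + 1)) hab
    (fun x hx => (hasDerivAt_FF n (lt_of_lt_of_le ha hx.1)).continuousAt.continuousWithinAt)
    (fun x hx => hasDerivAt_FF n (lt_trans ha hx.1))
  refine ⟨c, hc, ?_⟩
  rw [h]
  field_simp [sub_ne_zero.mpr hab.ne']

theorem deriv_bound (n : ℕ) {x : ℝ} (h2 : 2 ≤ x) (h4 : x ≤ 4) :
    |fR x ^ n / x ^ (5 * n + 1)| ≤ (1 / 8260) ^ n / 2 := by
  have hx : 0 < x := by linarith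
  rw [abs_div, abs_pow, abs_of_pos (show 0 < x ^ (5 * n + 1) by positivity)]
  rw [div_le_div_iff₀ (by positivity) (by norm_num)]
  have h1 : |fR x| ^ n ≤ (x ^ 5 * (1 / 8260)) ^ n :=
    pow_le_pow_left₀ (abs_nonneg _) (abs_fR_le h2 h4) n
  rw [mul_pow, ← pow_mul] at h1
  calc |fR x| ^ n * 2 ≤ x ^ (5 * n) * (1 / 8260) ^ n * x := by gcongr
    _ = _ := by ring

theorem I1_upper (n : ℕ) : FF n 3 - FF n 2 ≤ (1 / 8260) ^ n / 2 := by
  obtain ⟨c, hc, h⟩ := FF_mvt n (a := 2) (b := 3) (by norm_num) (by norm_num)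
  rw [h]
  have := deriv_bound n (x := c) hc.1.le (by linarith [hc.2])
  have := (le_abs_self _).trans this
  linarith

theorem I2_lower (n : ℕ) : -((1 / 8260) ^ n / 2) ≤ FF n 4 - FF n 3 := by
  obtain ⟨c, hc, h⟩ := FF_mvt n (a := 3) (b := 4) (by norm_num) (by norm_num)
  rw [h]
  have := deriv_bound n (x := c) (by linarith [hc.1]) hc.2.le
  have := neg_le_of_abs_le this
  linarith

theorem I2_nonpos {n : ℕ} (hn : Odd n) : FF n 4 - FF n 3 ≤ 0 := by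
  obtain ⟨c, hc, h⟩ := FF_mvt n (a := 3) (b := 4) (by norm_num) (by norm_num)
  rw [h]
  have h1 : fR c ^ n ≤ 0 := hn.pow_nonpos (fR_neg hc.1.le hc.2.le)
  have h2 : 0 < c ^ (5 * n + 1) := by have := hc.1; positivity
  have : fR c ^ n / c ^ (5 * n + 1) ≤ 0 := div_nonpos_of_nonpos_of_nonneg h1 h2.le
  linarith

theorem FF_mono (n : ℕ) {a b : ℝ} (ha : 2 ≤ a) (hab : a < b) (hb : b ≤ 3) :
    FF n a ≤ FF n b := by
  obtain ⟨c, hc, h⟩ := FF_mvt n (a := a) (b := b) (by linarith) hab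
  have h1 : 0 ≤ fR c ^ n := pow_nonneg (fR_pos (by linarith [hc.1]) (by linarith [hc.2])) n
  have h2 : 0 < c := by linarith [hc.1]
  have h3 : 0 ≤ fR c ^ n / c ^ (5 * n + 1) * (b - a) := by
    have : 0 ≤ b - a := by linarith
    positivity
  linarith

theorem I1_lower (n : ℕ) : (1 / 235) * (1 / 10300) ^ n ≤ FF n 3 - FF n 2 := by
  have h1 := FF_mono n (a := 2) (b := 2.34) (by norm_num) (by norm_num) (by norm_num)
  have h2 := FF_mono n (a := 2.35) (b := 3) (by norm_num) (by norm_num) (by norm_num)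
  obtain ⟨c, hc, h⟩ := FF_mvt n (a := 2.34) (b := 2.35) (by norm_num) (by norm_num)
  have hc0 : 0 < c := by have := hc.1; linarith
  have h3 : (c ^ 5 * (1 / 10300)) ^ n ≤ fR c ^ n :=
    pow_le_pow_left₀ (by positivity) (fR_lower hc.1.le hc.2.le) n
  rw [mul_pow, ← pow_mul] at h3
  have h4 : (1 / 10300) ^ n / 2.35 ≤ fR c ^ n / c ^ (5 * n + 1) := by
    rw [div_le_div_iff₀ (by norm_num) (by positivity)]
    calc (1 / 10300 : ℝ) ^ n * c ^ (5 * n + 1) = c ^ (5 * n) * (1 / 10300) ^ n * c := by ring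
      _ ≤ fR c ^ n * 2.35 := by
        have := hc.2.le
        have hp : (0 : ℝ) ≤ fR c ^ n := le_trans (by positivity) h3
        gcongr
  have h5 : (1 / 10300 : ℝ) ^ n / 2.35 * (2.35 - 2.34) ≤ FF n 2.35 - FF n 2.34 := by
    rw [h]
    have : (0 : ℝ) ≤ 2.35 - 2.34 := by norm_num
    gcongr
  have h6 : (1 / 10300 : ℝ) ^ n / 2.35 * (2.35 - 2.34) = (1 / 235) * (1 / 10300) ^ n := by
    ring
  linarith

/-- The main approximation argument. -/
theorem log_form_aux {e o n : ℕ} (he : 1 ≤ e) (hn : Odd n) (hk : e + o ≤ 3 ^ n) :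
    (1 / 235) * (1 / 10300) ^ n ≤
      5400000 ^ n * |e * Real.log (3 / 2) - o * Real.log (4 / 3)| := by
  set D : ℕ := Nat.lcmUpto (7 * n) with hD
  set c : ℝ := ((padP n).coeff (5 * n) : ℝ) with hc
  have hDpos : (0 : ℝ) < D := by exact_mod_cast Nat.lcmUpto_pos _
  obtain ⟨q2, hq2⟩ := padP_comp2 n
  obtain ⟨q3, hq3⟩ := padP_comp3 n
  obtain ⟨q4, hq4⟩ := padP_comp4 n
  obtain ⟨z2, hz2⟩ := ratPart_integral (padP n) q2 (m := 5 * n) (N := 12 * n) (L := 7 * n)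
    (v := 2) (by norm_num) hq2 (by omega) (by omega)
  obtain ⟨z3, hz3⟩ := ratPart_integral (padP n) q3 (m := 5 * n) (N := 12 * n) (L := 7 * n)
    (v := 3) (by norm_num) hq3 (by omega) (by omega)
  obtain ⟨z4, hz4⟩ := ratPart_integral (padP n) q4 (m := 5 * n) (N := 12 * n) (L := 7 * n)
    (v := 4) (by norm_num) hq4 (by omega) (by omega)
  push_cast at hz2 hz3 hz4
  have hF2 : FF n 2 = ratPart (padP n) (5 * n) (12 * n) 2 + c * Real.log 2 := rfl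
  have hF3 : FF n 3 = ratPart (padP n) (5 * n) (12 * n) 3 + c * Real.log 3 := rfl
  have hF4 : FF n 4 = ratPart (padP n) (5 * n) (12 * n) 4 + c * Real.log 4 := rfl
  have hl1 : Real.log (3 / 2) = Real.log 3 - Real.log 2 :=
    Real.log_div (by norm_num) (by norm_num)
  have hl2 : Real.log (4 / 3) = Real.log 4 - Real.log 3 :=
    Real.log_div (by norm_num) (by norm_num)
  set Λ : ℝ := e * Real.log (3 / 2) - o * Real.log (4 / 3) with hΛ
  set I1 : ℝ := FF n 3 - FF n 2 with hI1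
  set I2 : ℝ := FF n 4 - FF n 3 with hI2
  have i1 := I1_upper n
  have i2 := I2_lower n
  have i3 := I2_nonpos hn
  have i4 := I1_lower n
  rw [← hI1] at i1 i4
  rw [← hI2] at i2 i3
  have heR : (1 : ℝ) ≤ e := by exact_mod_cast he
  have hoR : (0 : ℝ) ≤ o := by positivity
  have hI1pos : 0 < I1 := lt_of_lt_of_le (by positivity) i4
  -- the identity
  have hid : D * (c * Λ) = D * (e * I1 - o * I2) -
      ((e * (z3 - z2) - o * (z4 - z3) : ℤ) : ℝ) := by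
    push_cast
    rw [hz2, hz3, hz4, hΛ, hl1, hl2, hI1, hI2, hF2, hF3, hF4]
    ring
  set N : ℤ := e * (z3 - z2) - o * (z4 - z3) with hN
  -- size of D (e + o) S
  have hDle : (D : ℝ) * 10 ^ (7 * n) ≤ 31 ^ (7 * n) := by
    have := lcm_bound (7 * n)
    exact_mod_cast this
  have hsmall : (D : ℝ) * ((e + o) * ((1 / 8260) ^ n / 2)) ≤ 1 / 2 := by
    have h1 : ((e : ℝ) + o) ≤ 3 ^ n := by exact_mod_cast hk
    have h2 : (D : ℝ) ≤ (31 / 10) ^ (7 * n) := by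
      rw [div_pow, le_div_iff₀ (by positivity)]
      exact hDle
    calc (D : ℝ) * ((e + o) * ((1 / 8260) ^ n / 2))
        ≤ (31 / 10) ^ (7 * n) * (3 ^ n * ((1 / 8260) ^ n / 2)) := by gcongr
      _ = ((31 / 10) ^ 7 * 3 * (1 / 8260)) ^ n / 2 := by
        rw [pow_mul, mul_pow, mul_pow]; ring
      _ ≤ 1 ^ n / 2 := by
        have : ((31 / 10 : ℝ) ^ 7 * 3 * (1 / 8260)) ≤ 1 := by norm_num
        gcongr
      _ = 1 / 2 := by simp
  have hup : e * I1 - o * I2 ≤ (e + o) * ((1 / 8260) ^ n / 2) := by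
    have h1 : e * I1 ≤ e * ((1 / 8260) ^ n / 2) := by gcongr
    have h2 : o * (-I2) ≤ o * ((1 / 8260) ^ n / 2) := by
      apply mul_le_mul_of_nonneg_left _ hoR
      linarith
    linarith
  have hlow : I1 ≤ e * I1 - o * I2 := by
    have h1 : 1 * I1 ≤ e * I1 := by gcongr
    have h2 : 0 ≤ o * (-I2) := mul_nonneg hoR (by linarith)
    linarith
  have hfin : D * I1 ≤ |D * (c * Λ)| := by
    rw [hid]
    rcases le_or_gt N 0 with h0 | h0
    · have h1 : (N : ℝ) ≤ 0 := by exact_mod_cast h0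
      have h2 : D * I1 ≤ D * (e * I1 - o * I2) := by gcongr
      have h3 := le_abs_self (D * (e * I1 - o * I2) - (N : ℝ))
      linarith
    · have h1 : (1 : ℝ) ≤ N := by exact_mod_cast h0
      have h2 : D * (e * I1 - o * I2) ≤ D * ((e + o) * ((1 / 8260) ^ n / 2)) := by gcongr
      have h3 := neg_abs_le (D * (e * I1 - o * I2) - (N : ℝ))
      have h4 : D * I1 ≤ D * (e * I1 - o * I2) := by gcongr
      linarith
  rw [abs_mul, abs_mul, abs_of_pos hDpos] at hfin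
  have hfin2 : I1 ≤ |c| * |Λ| := le_of_mul_le_mul_left hfin hDpos
  have hcle : |c| ≤ 5400000 ^ n := padP_coeff_le n
  calc (1 / 235) * (1 / 10300) ^ n ≤ I1 := i4
    _ ≤ |c| * |Λ| := hfin2
    _ ≤ 5400000 ^ n * |Λ| := by gcongr

/-- **Effective lower bound.** -/
theorem log_form_lower {e o : ℕ} (he : 1 ≤ e) :
    1 / (235 * (9 * ((e : ℝ) + o)) ^ 23) ≤ |e * Real.log (3 / 2) - o * Real.log (4 / 3)| := by
  -- choose n odd with e + o ≤ 3 ^ n ≤ 9 (e + o)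
  obtain ⟨n, hn, h1, h2⟩ : ∃ n : ℕ, Odd n ∧ e + o ≤ 3 ^ n ∧ 3 ^ n ≤ 9 * (e + o) := by
    have hk : 1 ≤ e + o := by omega
    have hex : ∃ j : ℕ, e + o ≤ 3 ^ (2 * j + 1) := by
      obtain ⟨m, hm⟩ := pow_unbounded_of_one_lt (e + o) (by norm_num : 1 < 3)
      exact ⟨m, hm.le.trans (Nat.pow_le_pow_right (by norm_num) (by omega))⟩
    classical
    let j := Nat.find hex
    have hj : e + o ≤ 3 ^ (2 * j + 1) := Nat.find_spec hex
    refine ⟨2 * j + 1, ⟨j, rfl⟩, hj, ?_⟩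
    rcases Nat.eq_zero_or_pos j with h0 | h0
    · rw [h0]; omega
    · have hlt := Nat.find_min hex (m := j - 1) (by omega)
      have h3 : 3 ^ (2 * (j - 1) + 1) < e + o := not_le.mp hlt
      have h4 : 3 ^ (2 * j + 1) = 9 * 3 ^ (2 * (j - 1) + 1) := by
        rw [show 2 * j + 1 = 2 * (j - 1) + 1 + 2 by omega, pow_add]
        ring
      rw [h4]; omega
  have hmain := log_form_aux he hn h1
  set Λ : ℝ := |e * Real.log (3 / 2) - o * Real.log (4 / 3)| with hΛ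
  have h3 : (1 / 235 : ℝ) * (1 / 10300) ^ n / 5400000 ^ n ≤ Λ := by
    rw [div_le_iff₀ (by positivity)]
    linarith
  refine le_trans ?_ h3
  have h4 : (1 / 235 : ℝ) * (1 / 10300) ^ n / 5400000 ^ n = 1 / (235 * (10300 * 5400000) ^ n) := by
    rw [mul_pow, one_div_pow]
    field_simp
  rw [h4]
  apply one_div_le_one_div_of_le (by positivity)
  have h5 : ((3 : ℝ) ^ n) ≤ 9 * ((e : ℝ) + o) := by exact_mod_cast h2
  have h6 : ((10300 : ℝ) * 5400000) ^ n ≤ (9 * ((e : ℝ) + o)) ^ 23 := by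
    calc ((10300 : ℝ) * 5400000) ^ n ≤ (3 ^ 23) ^ n := by gcongr; norm_num
      _ = (3 ^ n) ^ 23 := by rw [← pow_mul, ← pow_mul, mul_comm]
      _ ≤ _ := by gcongr
  linarith

end Pool.Agent.helper94
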