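import Mathlib
import Pool.Agent.helper94.LogForm

set_option autoImplicit false

/-!
# Cycles of Conway's permutation: structure

`conwayT` is the map `2m ↦ 3m`, `4m-1 ↦ 3m-1`, `4m+1 ↦ 3m+1`.
-/

namespace Pool.Agent.helper94

open Finset

/-- Conway's permutation `2m ↦ 3m`, `4m-1 ↦ 3m-1`, `4m+1 ↦ 3m+1`. -/
def conwayT (m : ℕ) : ℕ :=
  if m % 2 = 0 then 3 * m / 2
  else if m % 4 = 3 then (3 * m - 1) / 4
  else (3 * m + 1) / 4

theorem conwayT_even {m : ℕ} (h : m % 2 = 0) : 2 * conwayT m = 3 * m := by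
  unfold conwayT; rw [if_pos h]; omega

theorem conwayT_odd {m : ℕ} (h : m % 2 = 1) :
    4 * conwayT m = 3 * m + 1 ∨ 4 * conwayT m + 1 = 3 * m := by
  unfold conwayT; rw [if_neg (by omega)]
  split_ifs with h4 <;> omega

theorem conwayT_odd_le {m : ℕ} (h : m % 2 = 1) : conwayT m ≤ m := by
  rcases conwayT_odd h with h1 | h1 <;> omega

/-- the predicate odd-to-even step -/
def OE (x : ℕ → ℕ) (i : ℕ) : Prop := x i % 2 = 1 ∧ x (i + 1) % 2 = 0

instance (x : ℕ → ℕ) : DecidablePred (OE x) := fun i => by unfold OE; infer_instance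

/-- geometric sum `1 + θ + … + θ^(r-1)` -/
noncomputable def geo (θ : ℝ) (r : ℕ) : ℝ := ∑ s ∈ range r, θ ^ s

theorem geo_succ (θ : ℝ) (r : ℕ) : geo θ (r + 1) = geo θ r + θ ^ r := by
  unfold geo; rw [sum_range_succ]

/-- The chain bound on the number of even terms. -/
theorem chain {x : ℕ → ℕ} (hstep : ∀ i, x (i + 1) = conwayT (x i)) {m : ℕ} (hm : x 0 = m)
    (hm2 : 2 ≤ m) (hmin : ∀ i, m ≤ x i) (hmeven : m % 2 = 0) {θ : ℝ}
    (hθ : Real.log 3 ≤ θ * Real.log 2) (i : ℕ) :
    (x i % 2 = 1 → (Nat.count (fun j => x j % 2 = 0) i : ℝ) * Real.log 2 ≤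
        geo θ (Nat.count (OE x) i + 1) * Real.log m ∧
      Real.log (x i) ≤ θ ^ (Nat.count (OE x) i + 1) * Real.log m) ∧
    (x i % 2 = 0 → ∃ s u : ℕ, x i = 3 ^ s * u ∧
      Real.log (2 ^ s * u) ≤ θ ^ (Nat.count (OE x) i) * Real.log m ∧
      (Nat.count (fun j => x j % 2 = 0) i : ℝ) * Real.log 2 ≤
        geo θ (Nat.count (OE x) i) * Real.log m + s * Real.log 2) := by
  have hl2 : 0 < Real.log 2 := Real.log_pos (by norm_num)
  have hθ1 : 1 ≤ θ := by
    have h1 : Real.log 2 ≤ Real.log 3 := Real.log_le_log (by norm_num) (by norm_num)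
    have h2 : 1 * Real.log 2 ≤ θ * Real.log 2 := by linarith
    exact le_of_mul_le_mul_right h2 hl2
  have hlm : 0 < Real.log m := Real.log_pos (by exact_mod_cast (by omega : 1 < m))
  induction i with
  | zero =>
    refine ⟨fun h => ?_, fun _ => ⟨0, m, ?_, ?_, ?_⟩⟩
    · rw [hm] at h; omega
    · simp [hm]
    · simp
    · simp [geo]
  | succ i ih =>
    obtain ⟨ih1, ih2⟩ := ih
    have hxi2 : 2 ≤ x i := hm2.trans (hmin i)
    have hxpos : (0 : ℝ) < x i := by exact_mod_cast (by omega : 0 < x i)
    rw [Nat.count_succ, Nat.count_succ]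
    rcases Nat.mod_two_eq_zero_or_one (x i) with he | ho
    · -- x i even
      obtain ⟨s, u, hxu, hlog, hE⟩ := ih2 he
      have hueven : u % 2 = 0 := by
        have h1 : Even (3 ^ s * u) := by rw [← hxu]; exact Nat.even_iff.mpr he
        rcases Nat.even_mul.mp h1 with h2 | h2
        · exfalso
          have : Odd (3 ^ s) := Odd.pow (by decide)
          exact (Nat.not_even_iff_odd.mpr this) h2
        · exact Nat.even_iff.mp h2
      obtain ⟨v, hv⟩ : ∃ v, u = 2 * v := ⟨u / 2, by omega⟩
      have hvpos : 0 < v := by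
        rcases Nat.eq_zero_or_pos v with h0 | h0
        · rw [h0] at hv; rw [hv] at hxu; simp at hxu; omega
        · exact h0
      have hxs : x (i + 1) = 3 ^ (s + 1) * v := by
        have h1 := conwayT_even he
        rw [← hstep i, hxu, hv] at h1
        have h2 : 2 * x (i + 1) = 2 * (3 ^ (s + 1) * v) := by rw [h1, pow_succ]; ring
        omega
      have hOE : ¬ OE x i := by unfold OE; omega
      rw [if_neg hOE, if_pos he]
      simp only [Nat.add_zero]
      have hlog' : Real.log (2 ^ (s + 1) * v) ≤ θ ^ (Nat.count (OE x) i) * Real.log m := by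
        have : (2 : ℝ) ^ (s + 1) * v = 2 ^ s * u := by rw [hv]; push_cast; ring
        rw [this]; exact hlog
      have hvR : (0 : ℝ) < v := by exact_mod_cast hvpos
      have hv1 : 0 ≤ Real.log v := Real.log_nonneg (by exact_mod_cast hvpos)
      have hexp : Real.log (2 ^ (s + 1) * v) = (s + 1) * Real.log 2 + Real.log v := by
        rw [Real.log_mul (by positivity) hvR.ne', Real.log_pow]
        push_cast; ring
      refine ⟨fun _ => ⟨?_, ?_⟩, fun _ => ⟨s + 1, v, hxs, hlog', ?_⟩⟩
      · rw [geo_succ]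
        push_cast
        have h3 : ((s : ℝ) + 1) * Real.log 2 ≤ θ ^ (Nat.count (OE x) i) * Real.log m := by
          rw [hexp] at hlog'; linarith
        linarith
      · rw [hxs]
        have h4 : Real.log ((3 ^ (s + 1) * v : ℕ) : ℝ) = (s + 1) * Real.log 3 + Real.log v := by
          push_cast
          rw [Real.log_mul (by positivity) hvR.ne', Real.log_pow]
          push_cast; ring
        rw [h4]
        have h5 : ((s : ℝ) + 1) * Real.log 3 ≤ θ * ((s + 1) * Real.log 2) := by
          have : ((s : ℝ) + 1) * Real.log 3 ≤ (s + 1) * (θ * Real.log 2) := by gcongr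
          linarith
        have h6 : Real.log v ≤ θ * Real.log v := by
          have := mul_le_mul_of_nonneg_right hθ1 hv1
          linarith
        calc ((s : ℝ) + 1) * Real.log 3 + Real.log v
            ≤ θ * ((s + 1) * Real.log 2) + θ * Real.log v := by linarith
          _ = θ * Real.log (2 ^ (s + 1) * v) := by rw [hexp]; ring
          _ ≤ θ * (θ ^ (Nat.count (OE x) i) * Real.log m) := by gcongr
          _ = θ ^ (Nat.count (OE x) i + 1) * Real.log m := by rw [pow_succ]; ring
      · push_cast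
        linarith
    · -- x i odd
      obtain ⟨hE, hlog⟩ := ih1 ho
      rw [if_neg (show ¬ (x i % 2 = 0) by omega), Nat.add_zero]
      have hle : x (i + 1) ≤ x i := by rw [hstep i]; exact conwayT_odd_le ho
      have hpos' : (0 : ℝ) < x (i + 1) := by
        exact_mod_cast (by have := hmin (i + 1); omega : 0 < x (i + 1))
      have hlog' : Real.log (x (i + 1)) ≤ θ ^ (Nat.count (OE x) i + 1) * Real.log m :=
        (Real.log_le_log hpos' (by exact_mod_cast hle)).trans hlog
      rcases Nat.mod_two_eq_zero_or_one (x (i + 1)) with he' | ho'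
      · have hOE : OE x i := ⟨ho, he'⟩
        rw [if_pos hOE]
        refine ⟨fun h => by omega, fun _ => ⟨0, x (i + 1), by simp, ?_, ?_⟩⟩
        · simpa using hlog'
        · simpa using hE
      · have hOE : ¬ OE x i := by unfold OE; omega
        rw [if_neg hOE, Nat.add_zero]
        exact ⟨fun _ => ⟨hE, hlog'⟩, fun h => by omega⟩

/-- The logarithmic error of one odd step. -/
theorem odd_step {x y : ℕ} (hx : 3 ≤ x) (hy : 2 ≤ y) (h : 4 * y = 3 * x + 1 ∨ 4 * y + 1 = 3 * x) :
    |Real.log y - Real.log x + Real.log (4 / 3)| ≤ 1 / ((y : ℝ) - 1) - 1 / ((x : ℝ) - 1) := by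
  have hxR : (3 : ℝ) ≤ x := by exact_mod_cast hx
  have hyR : (2 : ℝ) ≤ y := by exact_mod_cast hy
  have hx0 : (0 : ℝ) < x := by linarith
  have hy0 : (0 : ℝ) < y := by linarith
  have hcomb : Real.log y - Real.log x + Real.log (4 / 3) = Real.log (4 * y / (3 * x)) := by
    rw [Real.log_div (by norm_num) (by norm_num), Real.log_div (by positivity) (by positivity),
      Real.log_mul (by norm_num) hy0.ne', Real.log_mul (by norm_num) hx0.ne']
    ring
  rw [hcomb]
  rcases h with h | h
  · have hR : (4 : ℝ) * y = 3 * x + 1 := by exact_mod_cast h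
    have h1 : 4 * (y : ℝ) / (3 * x) = 1 + 1 / (3 * x) := by rw [hR]; field_simp
    have h2 : 0 ≤ Real.log (4 * y / (3 * x)) := by
      apply Real.log_nonneg; rw [h1]
      have : 0 < 1 / (3 * (x : ℝ)) := by positivity
      linarith
    rw [abs_of_nonneg h2]
    have h3 : Real.log (4 * y / (3 * x)) ≤ 1 / (3 * x) := by
      have := Real.log_le_sub_one_of_pos (show 0 < 4 * (y : ℝ) / (3 * x) by positivity)
      rw [h1] at this ⊢
      linarith
    refine h3.trans ?_
    have hy1 : (y : ℝ) - 1 = 3 * (x - 1) / 4 := by linarith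
    rw [hy1]
    have hx1 : (0 : ℝ) < x - 1 := by linarith
    have : 1 / (3 * ((x : ℝ) - 1) / 4) - 1 / (x - 1) = 1 / (3 * (x - 1)) := by
      field_simp; ring
    rw [this]
    apply one_div_le_one_div_of_le (by positivity)
    linarith
  · have hR : (4 : ℝ) * y + 1 = 3 * x := by exact_mod_cast h
    have h0 : (0 : ℝ) < 3 * x - 1 := by linarith
    have h1 : 4 * (y : ℝ) / (3 * x) = (3 * x - 1) / (3 * x) := by
      have : (4 : ℝ) * y = 3 * x - 1 := by linarith
      rw [this]
    have h2 : Real.log (4 * y / (3 * x)) ≤ 0 := by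
      apply Real.log_nonpos (by positivity)
      rw [h1, div_le_one (by positivity)]
      linarith
    rw [abs_of_nonpos h2, ← Real.log_inv]
    have h3 : Real.log ((4 * (y : ℝ) / (3 * x))⁻¹) ≤ 1 / (3 * x - 1) := by
      have := Real.log_le_sub_one_of_pos (show 0 < (4 * (y : ℝ) / (3 * x))⁻¹ by positivity)
      have h4 : (4 * (y : ℝ) / (3 * x))⁻¹ - 1 = 1 / (3 * x - 1) := by
        rw [h1, inv_div]; field_simp; ring
      linarith
    refine h3.trans ?_
    have hy1 : (y : ℝ) - 1 = (3 * x - 5) / 4 := by linarith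
    rw [hy1]
    have hx1 : (0 : ℝ) < x - 1 := by linarith
    have hx5 : (0 : ℝ) < 3 * x - 5 := by linarith
    have : 1 / ((3 * (x : ℝ) - 5) / 4) - 1 / (x - 1) = (x + 1) / ((3 * x - 5) * (x - 1)) := by
      field_simp; ring
    rw [this, div_le_div_iff₀ h0 (by positivity)]
    nlinarith

/-- weight of an odd term -/
noncomputable def psi (y : ℕ) : ℝ := if y % 2 = 1 then 1 / ((y : ℝ) - 1) else 0

theorem psi_nonneg {y : ℕ} (hy : 2 ≤ y) : 0 ≤ psi y := by
  unfold psi
  split_ifs
  · have : (2 : ℝ) ≤ y := by exact_mod_cast hy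
    have : (0 : ℝ) < y - 1 := by linarith
    positivity
  · exact le_rfl

/-- The logarithmic drift estimate. -/
theorem drift {x : ℕ → ℕ} (hstep : ∀ i, x (i + 1) = conwayT (x i)) {m : ℕ}
    (hm2 : 2 ≤ m) (hmin : ∀ i, m ≤ x i) (i : ℕ) :
    |Real.log (x i) - Real.log (x 0) - ((Nat.count (fun j => x j % 2 = 0) i : ℝ) *
        Real.log (3 / 2) - (Nat.count (fun j => x j % 2 = 1) i : ℝ) * Real.log (4 / 3))| ≤
      (Nat.count (OE x) i : ℝ) * (1 / ((m : ℝ) - 1)) + psi (x i) - psi (x 0) := by
  have hmR : (2 : ℝ) ≤ m := by exact_mod_cast hm2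
  induction i with
  | zero => simp
  | succ i ih =>
    have hxi : 2 ≤ x i := hm2.trans (hmin i)
    have hxi' : 2 ≤ x (i + 1) := hm2.trans (hmin (i + 1))
    have hxR : (0 : ℝ) < x i := by exact_mod_cast (by omega : 0 < x i)
    have hxR' : (0 : ℝ) < x (i + 1) := by exact_mod_cast (by omega : 0 < x (i + 1))
    rw [Nat.count_succ, Nat.count_succ, Nat.count_succ]
    rcases Nat.mod_two_eq_zero_or_one (x i) with he | ho
    · have hOE : ¬ OE x i := by unfold OE; omega
      rw [if_neg hOE, if_pos he, if_neg (show ¬ (x i % 2 = 1) by omega)]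
      have h1 : Real.log (x (i + 1)) = Real.log (x i) + Real.log (3 / 2) := by
        have h2 := conwayT_even he
        rw [← hstep i] at h2
        have h3 : (x (i + 1) : ℝ) = x i * (3 / 2) := by
          have : (2 : ℝ) * x (i + 1) = 3 * x i := by exact_mod_cast h2
          linarith
        rw [h3, Real.log_mul hxR.ne' (by norm_num)]
      have h4 : psi (x i) = 0 := by unfold psi; rw [if_neg (by omega)]
      have h5 := psi_nonneg hxi'
      rw [h4] at ih
      push_cast
      rw [h1]
      have e : Real.log (x i) + Real.log (3 / 2) - Real.log (x 0) -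
          (((Nat.count (fun j => x j % 2 = 0) i : ℝ) + 1) * Real.log (3 / 2) -
            ((Nat.count (fun j => x j % 2 = 1) i : ℝ) + 0) * Real.log (4 / 3)) =
          Real.log (x i) - Real.log (x 0) - ((Nat.count (fun j => x j % 2 = 0) i : ℝ) *
        Real.log (3 / 2) - (Nat.count (fun j => x j % 2 = 1) i : ℝ) * Real.log (4 / 3)) := by
        ring
      rw [e]
      linarith
    · rw [if_neg (show ¬ (x i % 2 = 0) by omega), if_pos ho]
      have hx3 : 3 ≤ x i := by omega
      have h1 := odd_step hx3 hxi' (by rw [hstep i]; exact conwayT_odd ho)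
      have hpsi : psi (x i) = 1 / ((x i : ℝ) - 1) := by unfold psi; rw [if_pos ho]
      have h2 : 1 / ((x (i + 1) : ℝ) - 1) ≤
          ((if OE x i then 1 else 0 : ℕ) : ℝ) * (1 / ((m : ℝ) - 1)) + psi (x (i + 1)) := by
        rcases Nat.mod_two_eq_zero_or_one (x (i + 1)) with he' | ho'
        · have hOE : OE x i := ⟨ho, he'⟩
          have h3 := psi_nonneg hxi'
          rw [if_pos hOE]
          have h4 : 1 / ((x (i + 1) : ℝ) - 1) ≤ 1 / ((m : ℝ) - 1) := by
            apply one_div_le_one_div_of_le (by linarith)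
            have : (m : ℝ) ≤ x (i + 1) := by exact_mod_cast hmin (i + 1)
            linarith
          push_cast
          linarith
        · have hOE : ¬ OE x i := by unfold OE; omega
          have : psi (x (i + 1)) = 1 / ((x (i + 1) : ℝ) - 1) := by
            unfold psi; rw [if_pos ho']
          rw [if_neg hOE, this]
          push_cast
          linarith
      have e : Real.log (x (i + 1)) - Real.log (x 0) -
          (((Nat.count (fun j => x j % 2 = 0) i + 0 : ℕ) : ℝ) * Real.log (3 / 2) -
            ((Nat.count (fun j => x j % 2 = 1) i + 1 : ℕ) : ℝ) * Real.log (4 / 3)) =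
          (Real.log (x i) - Real.log (x 0) - ((Nat.count (fun j => x j % 2 = 0) i : ℝ) *
        Real.log (3 / 2) - (Nat.count (fun j => x j % 2 = 1) i : ℝ) * Real.log (4 / 3))) +
          (Real.log (x (i + 1)) - Real.log (x i) + Real.log (4 / 3)) := by
        push_cast; ring
      rw [e]
      refine (abs_add_le _ _).trans ?_
      rw [hpsi] at ih
      have e2 : ((Nat.count (OE x) i + if OE x i then 1 else 0 : ℕ) : ℝ) * (1 / ((m : ℝ) - 1)) =
          (Nat.count (OE x) i : ℝ) * (1 / ((m : ℝ) - 1)) +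
          ((if OE x i then 1 else 0 : ℕ) : ℝ) * (1 / ((m : ℝ) - 1)) := by
        push_cast; ring
      rw [e2]
      linarith

end Pool.Agent.helper94
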