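import Mathlib

set_option autoImplicit false

/-!
# Best approximations: lower bounds for `|k log 3 - A log 2|` for small `k`
-/

namespace Pool.Agent.helper94

/-- If `(b, a)`, `(d, c)` are unimodular with opposite signs of the linear form, then every `(k, A)`
with `0 < k < d` has form of size at least that of `(b, a)`. -/
theorem farey {α β : ℝ} {a b c d : ℤ} {ε : ℤ}
    (hdet : ε * (b * c - a * d) = 1) (hb : 0 < b) (hd : 0 < d)
    (hsign : (b * α - a * β) * (d * α - c * β) ≤ 0) {k A : ℤ} (hk : 0 < k) (hkd : k < d) :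
    |(b : ℝ) * α - a * β| ≤ |(k : ℝ) * α - A * β| := by
  set u : ℝ := b * α - a * β with hu
  set v : ℝ := d * α - c * β with hv
  obtain ⟨x, hx⟩ : ∃ x : ℤ, x = ε * (k * c - A * d) := ⟨_, rfl⟩
  obtain ⟨y, hy⟩ : ∃ y : ℤ, y = ε * (A * b - k * a) := ⟨_, rfl⟩
  have h1 : k = x * b + y * d := by
    rw [hx, hy]
    linear_combination (-k) * hdet
  have h2 : A = x * a + y * c := by
    rw [hx, hy]
    linear_combination (-A) * hdet
  have h3 : (k : ℝ) * α - A * β = x * u + y * v := by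
    have e1 : (k : ℝ) = x * b + y * d := by exact_mod_cast h1
    have e2 : (A : ℝ) = x * a + y * c := by exact_mod_cast h2
    rw [e1, e2, hu, hv]; ring
  rw [h3]
  -- sign analysis
  rcases lt_trichotomy y 0 with hy0 | hy0 | hy0
  · -- y < 0, so x > 0
    have hx0 : 0 < x := by
      by_contra hcon
      have h4 : x * b ≤ 0 := mul_nonpos_of_nonpos_of_nonneg (not_lt.mp hcon) hb.le
      have h5 : y * d < 0 := mul_neg_of_neg_of_pos hy0 hd
      linarith
    have hxR : (1 : ℝ) ≤ x := by exact_mod_cast hx0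
    have hyR : (y : ℝ) < 0 := by exact_mod_cast hy0
    have h6 : 0 ≤ (x * u) * (y * v) := by
      have : (x * u) * (y * v) = (x * (-y)) * (-(u * v)) := by ring
      rw [this]
      apply mul_nonneg
      · apply mul_nonneg <;> linarith
      · linarith
    have h7 : |(x : ℝ) * u| ≤ |x * u + y * v| := by
      rw [← sq_le_sq]
      nlinarith [sq_nonneg ((y : ℝ) * v)]
    refine le_trans ?_ h7
    rw [abs_mul, abs_of_pos (by linarith : (0 : ℝ) < x)]
    nlinarith [abs_nonneg u]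
  · -- y = 0
    have hx0 : x ≠ 0 := by
      rintro rfl
      rw [hy0] at h1
      omega
    rw [hy0]
    push_cast
    rw [zero_mul, add_zero, abs_mul]
    have : (1 : ℝ) ≤ |(x : ℝ)| := by
      rw [← Int.cast_abs]
      exact_mod_cast Int.one_le_abs hx0
    nlinarith [abs_nonneg u]
  · -- y > 0
    rcases lt_or_ge x 0 with hx0 | hx0
    · have hxR : (x : ℝ) ≤ -1 := by exact_mod_cast (by omega : x ≤ -1)
      have hyR : (0 : ℝ) < y := by exact_mod_cast hy0
      have h6 : 0 ≤ (x * u) * (y * v) := by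
        have : (x * u) * (y * v) = ((-x) * y) * (-(u * v)) := by ring
        rw [this]
        apply mul_nonneg
        · apply mul_nonneg <;> linarith
        · linarith
      have h7 : |(x : ℝ) * u| ≤ |x * u + y * v| := by
        rw [← sq_le_sq]
        nlinarith [sq_nonneg ((y : ℝ) * v)]
      refine le_trans ?_ h7
      rw [abs_mul, abs_of_neg (by linarith : (x : ℝ) < 0)]
      nlinarith [abs_nonneg u]
    · exfalso
      have h4 : 0 ≤ x * b := mul_nonneg hx0 hb.le
      have h5 : d ≤ y * d := by nlinarith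
      linarith

/-- From an inequality between powers to an inequality between logarithms. -/
theorem log_ge_of_pow {a b P Q : ℕ} (hQ : 0 < Q) (h : 2 ^ a * (Q + P) ≤ 3 ^ b * Q) :
    (P : ℝ) / (Q + P) ≤ b * Real.log 3 - a * Real.log 2 := by
  have hQR : (0 : ℝ) < Q := by exact_mod_cast hQ
  have h' : (2 : ℝ) ^ a * (Q + P) ≤ 3 ^ b * Q := by exact_mod_cast h
  have h1 : (Q + P : ℝ) / Q ≤ 3 ^ b / 2 ^ a := by
    rw [div_le_div_iff₀ hQR (by positivity)]
    linarith
  have h2 : Real.log ((Q + P : ℝ) / Q) ≤ Real.log (3 ^ b / 2 ^ a) :=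
    Real.log_le_log (by positivity) h1
  rw [Real.log_div (show (3 : ℝ) ^ b ≠ 0 by positivity) (show (2 : ℝ) ^ a ≠ 0 by positivity),
    Real.log_pow, Real.log_pow] at h2
  have h3 := Real.one_sub_inv_le_log_of_pos (show (0 : ℝ) < (Q + P : ℝ) / Q by positivity)
  have h4 : 1 - ((Q + P : ℝ) / Q)⁻¹ = P / (Q + P) := by
    rw [inv_div]
    field_simp
    ring
  linarith

theorem log_le_of_pow {a b P Q : ℕ} (hQ : 0 < Q) (h : 3 ^ b * (Q + P) ≤ 2 ^ a * Q) :
    (P : ℝ) / (Q + P) ≤ a * Real.log 2 - b * Real.log 3 := by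
  have hQR : (0 : ℝ) < Q := by exact_mod_cast hQ
  have h' : (3 : ℝ) ^ b * (Q + P) ≤ 2 ^ a * Q := by exact_mod_cast h
  have h1 : (Q + P : ℝ) / Q ≤ 2 ^ a / 3 ^ b := by
    rw [div_le_div_iff₀ hQR (by positivity)]
    linarith
  have h2 : Real.log ((Q + P : ℝ) / Q) ≤ Real.log (2 ^ a / 3 ^ b) :=
    Real.log_le_log (by positivity) h1
  rw [Real.log_div (show (2 : ℝ) ^ a ≠ 0 by positivity) (show (3 : ℝ) ^ b ≠ 0 by positivity),
    Real.log_pow, Real.log_pow] at h2
  have h3 := Real.one_sub_inv_le_log_of_pos (show (0 : ℝ) < (Q + P : ℝ) / Q by positivity)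
  have h4 : 1 - ((Q + P : ℝ) / Q)⁻¹ = P / (Q + P) := by
    rw [inv_div]
    field_simp
    ring
  linarith

theorem pow665 : 2 ^ 1054 * (10 ^ 9 + 43600) ≤ 3 ^ 665 * 10 ^ 9 := by decide +kernel

theorem pow15601 : 3 ^ 15601 * (10 ^ 9 + 18100) ≤ 2 ^ 24727 * 10 ^ 9 := by decide +kernel

theorem pow31867 : 2 ^ 50508 * (10 ^ 9 + 7200) ≤ 3 ^ 31867 * 10 ^ 9 := by decide +kernel

theorem pow79335 : 3 ^ 79335 * (10 ^ 9 + 3660) ≤ 2 ^ 125743 * 10 ^ 9 := by decide +kernel

theorem pow111202 : 2 ^ 176251 * (10 ^ 9 + 3600) ≤ 3 ^ 111202 * 10 ^ 9 := by decide +kernel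

theorem pow190537 : 3 ^ 190537 * (10 ^ 9 + 64) ≤ 2 ^ 301994 * 10 ^ 9 := by decide +kernel

theorem pow492276 : 2 ^ 780239 * (10 ^ 9 + 3000) ≤ 3 ^ 492276 * 10 ^ 9 := by decide +kernel

theorem lam_eq (e o : ℕ) : (e : ℝ) * Real.log (3 / 2) - o * Real.log (4 / 3) =
    ((e + o : ℕ) : ℤ) * Real.log 3 - ((e + 2 * o : ℕ) : ℤ) * Real.log 2 := by
  rw [Real.log_div (by norm_num) (by norm_num), Real.log_div (by norm_num) (by norm_num),
    show (4 : ℝ) = 2 ^ 2 by norm_num, Real.log_pow]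
  push_cast
  ring

theorem lam_lower1 {e o : ℕ} (h0 : 0 < e + o) (h1 : e + o < 15601) :
    (4.35e-5 : ℝ) ≤ |(e : ℝ) * Real.log (3 / 2) - o * Real.log (4 / 3)| := by
  rw [lam_eq]
  have hu := log_ge_of_pow (by norm_num) pow665
  have hv := log_le_of_pow (by norm_num) pow15601
  push_cast at hu hv
  have hu' : (4.35e-5 : ℝ) ≤ 665 * Real.log 3 - 1054 * Real.log 2 := by
    refine le_trans ?_ hu; norm_num
  have hv' : 15601 * Real.log 3 - 24727 * Real.log 2 ≤ 0 := by
    have : (0 : ℝ) ≤ 18100 / (10 ^ 9 + 18100) := by norm_num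
    linarith
  have := farey (α := Real.log 3) (β := Real.log 2) (a := 1054) (b := 665) (c := 24727)
    (d := 15601) (ε := 1) (by norm_num) (by norm_num) (by norm_num)
    (by push_cast; exact mul_nonpos_of_nonneg_of_nonpos (by linarith) hv')
    (k := ((e + o : ℕ) : ℤ)) (A := ((e + 2 * o : ℕ) : ℤ)) (by exact_mod_cast h0)
    (by exact_mod_cast h1)
  refine le_trans ?_ this
  push_cast
  exact hu'.trans (le_abs_self _)

theorem lam_lower2 {e o : ℕ} (h0 : 0 < e + o) (h1 : e + o < 190537) :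
    (3.59e-6 : ℝ) ≤ |(e : ℝ) * Real.log (3 / 2) - o * Real.log (4 / 3)| := by
  rw [lam_eq]
  have hu := log_ge_of_pow (by norm_num) pow111202
  have hv := log_le_of_pow (by norm_num) pow190537
  push_cast at hu hv
  have hu' : (3.59e-6 : ℝ) ≤ 111202 * Real.log 3 - 176251 * Real.log 2 := by
    refine le_trans ?_ hu; norm_num
  have hv' : 190537 * Real.log 3 - 301994 * Real.log 2 ≤ 0 := by
    have : (0 : ℝ) ≤ 64 / (10 ^ 9 + 64) := by norm_num
    linarith
  have := farey (α := Real.log 3) (β := Real.log 2) (a := 176251) (b := 111202) (c := 301994)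
    (d := 190537) (ε := 1) (by norm_num) (by norm_num) (by norm_num)
    (by push_cast; exact mul_nonpos_of_nonneg_of_nonpos (by linarith) hv')
    (k := ((e + o : ℕ) : ℤ)) (A := ((e + 2 * o : ℕ) : ℤ)) (by exact_mod_cast h0)
    (by exact_mod_cast h1)
  refine le_trans ?_ this
  push_cast
  exact hu'.trans (le_abs_self _)

theorem lam_lower3 {e o : ℕ} (h0 : 0 < e + o) (h1 : e + o < 492276) :
    (6.3e-8 : ℝ) ≤ |(e : ℝ) * Real.log (3 / 2) - o * Real.log (4 / 3)| := by
  rw [lam_eq]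
  have hu := log_le_of_pow (by norm_num) pow190537
  have hv := log_ge_of_pow (by norm_num) pow492276
  push_cast at hu hv
  have hu' : (6.3e-8 : ℝ) ≤ 301994 * Real.log 2 - 190537 * Real.log 3 := by
    refine le_trans ?_ hu; norm_num
  have hv' : 0 ≤ 492276 * Real.log 3 - 780239 * Real.log 2 := by
    have : (0 : ℝ) ≤ 3000 / (10 ^ 9 + 3000) := by norm_num
    linarith
  have := farey (α := Real.log 3) (β := Real.log 2) (a := 301994) (b := 190537) (c := 780239)
    (d := 492276) (ε := -1) (by norm_num) (by norm_num) (by norm_num)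
    (by push_cast; exact mul_nonpos_of_nonpos_of_nonneg (by linarith) hv')
    (k := ((e + o : ℕ) : ℤ)) (A := ((e + 2 * o : ℕ) : ℤ)) (by exact_mod_cast h0)
    (by exact_mod_cast h1)
  refine le_trans ?_ this
  push_cast
  rw [abs_sub_comm]
  exact hu'.trans (le_abs_self _)

end Pool.Agent.helper94
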