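import Mathlib
import Pool.Agent.helper94.Conway
import Pool.Agent.helper94.Farey

set_option autoImplicit false

/-!
# Cycles of Conway's permutation: numerical consequences
-/

namespace Pool.Agent.helper94

open Finset

/-- The orbit sequence. -/
def orbit (n : ℕ) (i : ℕ) : ℕ := conwayT^[i] n

theorem orbit_step (n i : ℕ) : orbit n (i + 1) = conwayT (orbit n i) :=
  Function.iterate_succ_apply' conwayT i n

theorem orbit_zero (n : ℕ) : orbit n 0 = n := rfl

theorem orbit_add (n i j : ℕ) : orbit (orbit n i) j = orbit n (i + j) := by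
  unfold orbit
  rw [← Function.iterate_add_apply, Nat.add_comm]

/-- `m` is the least element of a cycle, `k` a (not necessarily minimal) period. -/
structure Cyc (m k : ℕ) : Prop where
  hk : 0 < k
  hm : 2 ≤ m
  hper : orbit m k = m
  hmin : ∀ i, m ≤ orbit m i

namespace Cyc

variable {m k : ℕ} (h : Cyc m k)

include h

theorem even : m % 2 = 0 := by
  by_contra hodd
  have h1 := h.hmin 1
  rw [orbit_step, orbit_zero] at h1
  have := h.hm
  rcases conwayT_odd (m := m) (by omega) with h2 | h2 <;> omega

theorem last_odd {k' : ℕ} (hk : k = k' + 1) : orbit m k' % 2 = 1 := by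
  by_contra hodd
  have h1 : orbit m k = m := h.hper
  rw [hk, orbit_step] at h1
  have h2 := conwayT_even (m := orbit m k') (by omega)
  have h3 := h.hmin k'
  have := h.hm
  omega

theorem count_pos : 0 < Nat.count (fun j => orbit m j % 2 = 0) k := by
  have h1 : Nat.count (fun j => orbit m j % 2 = 0) 1 = 1 := by
    rw [Nat.count_succ]
    simp [orbit_zero, h.even]
  have h2 := Nat.count_monotone (fun j => orbit m j % 2 = 0) (show 1 ≤ k from h.hk)
  omega

omit h in
theorem count_add : Nat.count (fun j => orbit m j % 2 = 0) k +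
    Nat.count (fun j => orbit m j % 2 = 1) k = k := by
  induction k with
  | zero => simp
  | succ k ih =>
    rw [Nat.count_succ, Nat.count_succ]
    rcases Nat.mod_two_eq_zero_or_one (orbit m k) with h | h
    · rw [if_pos h, if_neg (by omega)]; omega
    · rw [if_neg (by omega), if_pos h]; omega

theorem count_OE_le : Nat.count (OE (orbit m)) k ≤ Nat.count (fun j => orbit m j % 2 = 0) k := by
  have h1 : Nat.count (fun j => orbit m (j + 1) % 2 = 0) k =
      Nat.count (fun j => orbit m j % 2 = 0) k := by
    have h2 := Nat.count_succ' (fun j => orbit m j % 2 = 0) k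
    have h3 := Nat.count_succ (fun j => orbit m j % 2 = 0) k
    rw [h2, h.hper] at h3
    rw [orbit_zero] at h3
    omega
  rw [← h1]
  apply Nat.count_mono_left
  intro j _ hj
  exact hj.2

theorem count_OE_pos : 0 < Nat.count (OE (orbit m)) k := by
  obtain ⟨k', hk'⟩ : ∃ k', k = k' + 1 := ⟨k - 1, by have := h.hk; omega⟩
  have h1 := h.last_odd hk'
  have h2 : OE (orbit m) k' := by
    refine ⟨h1, ?_⟩
    rw [← hk', h.hper]; exact h.even
  rw [hk', Nat.count_succ, if_pos h2]
  omega

/-- evens are few compared with `log m` -/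
theorem even_le {θ : ℝ} (hθ : Real.log 3 ≤ θ * Real.log 2) :
    (Nat.count (fun j => orbit m j % 2 = 0) k : ℝ) * Real.log 2 ≤
      geo θ (Nat.count (OE (orbit m)) k) * Real.log m := by
  obtain ⟨k', hk'⟩ : ∃ k', k = k' + 1 := ⟨k - 1, by have := h.hk; omega⟩
  have h1 := h.last_odd hk'
  have h2 : OE (orbit m) k' := by
    refine ⟨h1, ?_⟩
    rw [← hk', h.hper]; exact h.even
  have h3 := (chain (orbit_step m) (orbit_zero m) h.hm h.hmin h.even hθ k').1 h1
  rw [hk', Nat.count_succ, Nat.count_succ, if_pos h2, if_neg (by omega)]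
  exact h3.1

/-- the linear form is small -/
theorem lam_le : |(Nat.count (fun j => orbit m j % 2 = 0) k : ℝ) * Real.log (3 / 2) -
      (Nat.count (fun j => orbit m j % 2 = 1) k : ℝ) * Real.log (4 / 3)| ≤
    (Nat.count (OE (orbit m)) k : ℝ) / ((m : ℝ) - 1) := by
  have h1 := drift (orbit_step m) h.hm h.hmin k
  rw [h.hper, orbit_zero] at h1
  have h2 : Real.log (m : ℝ) - Real.log m -
      ((Nat.count (fun j => orbit m j % 2 = 0) k : ℝ) * Real.log (3 / 2) -
      (Nat.count (fun j => orbit m j % 2 = 1) k : ℝ) * Real.log (4 / 3)) =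
      -((Nat.count (fun j => orbit m j % 2 = 0) k : ℝ) * Real.log (3 / 2) -
      (Nat.count (fun j => orbit m j % 2 = 1) k : ℝ) * Real.log (4 / 3)) := by ring
  rw [h2, abs_neg] at h1
  refine h1.trans (le_of_eq ?_)
  ring

/-- the effective upper bound for the least element -/
theorem min_le : (m : ℝ) - 1 ≤ (Nat.count (OE (orbit m)) k : ℝ) * (235 * (9 * (k : ℝ)) ^ 23) := by
  have h1 := h.lam_le
  have h2 := log_form_lower (e := Nat.count (fun j => orbit m j % 2 = 0) k)
    (o := Nat.count (fun j => orbit m j % 2 = 1) k) h.count_pos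
  have h3 : ((Nat.count (fun j => orbit m j % 2 = 0) k : ℝ) +
      (Nat.count (fun j => orbit m j % 2 = 1) k : ℝ)) = k := by exact_mod_cast (Cyc.count_add (m := m) (k := k))
  rw [h3] at h2
  have h4 := h2.trans h1
  have hm : (0 : ℝ) < (m : ℝ) - 1 := by
    have : (2 : ℝ) ≤ m := by exact_mod_cast h.hm
    linarith
  have hk : (0 : ℝ) < k := by exact_mod_cast h.hk
  rw [div_le_div_iff₀ (by positivity) hm] at h4
  linarith

end Cyc

/-- Normalisation: every cycle contains a least element. -/
theorem exists_min {n k : ℕ} (hk : 0 < k) (hper : orbit n k = n) :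
    ∃ i0 < k, (∀ i, orbit n i0 ≤ orbit (orbit n i0) i) ∧ orbit (orbit n i0) k = orbit n i0 ∧
      orbit (orbit n i0) (k - i0) = n := by
  have hperi : ∀ i, orbit n (i + k) = orbit n i := by
    intro i
    rw [Nat.add_comm, ← orbit_add, hper]
  have hmod : ∀ i, orbit n i = orbit n (i % k) := by
    intro i
    have h1 : ∀ q r, orbit n (r + k * q) = orbit n r := by
      intro q r
      induction q with
      | zero => simp
      | succ q ih => rw [Nat.mul_succ, ← Nat.add_assoc, hperi, ih]
    conv_lhs => rw [← Nat.mod_add_div i k]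
    exact h1 _ _
  obtain ⟨i0, hi0, hmin⟩ := Finset.exists_min_image (range k) (orbit n) ⟨0, mem_range.mpr hk⟩
  rw [mem_range] at hi0
  refine ⟨i0, hi0, ?_, ?_, ?_⟩
  · intro i
    rw [orbit_add, hmod (i0 + i)]
    exact hmin _ (mem_range.mpr (Nat.mod_lt _ hk))
  · rw [orbit_add, hperi]
  · rw [orbit_add, Nat.add_sub_cancel' hi0.le, hper]

/-- The number of odd-to-even steps in a period does not depend on the starting point. -/
theorem count_shift {n k : ℕ} (hper : orbit n k = n) (i0 : ℕ) :
    Nat.count (OE (orbit (orbit n i0))) k = Nat.count (OE (orbit n)) k := by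
  have hperi : ∀ i, orbit n (i + k) = orbit n i := by
    intro i
    rw [Nat.add_comm, ← orbit_add, hper]
  have hfun : Function.Periodic (OE (orbit n)) k := by
    intro i
    unfold OE
    rw [hperi, show i + k + 1 = (i + 1) + k by ring, hperi]
  have h1 := Nat.filter_Ico_card_eq_of_periodic i0 k (OE (orbit n)) hfun
  rw [← h1, Nat.count_eq_card_filter_range]
  apply Finset.card_bij (fun i _ => i0 + i)
  · intro i hi
    rw [mem_filter, mem_range] at hi
    rw [mem_filter, mem_Ico]
    refine ⟨⟨by omega, by omega⟩, ?_⟩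
    have h2 := hi.2
    unfold OE at h2 ⊢
    rw [orbit_add, orbit_add] at h2
    exact h2
  · intro a _ b _ hab
    omega
  · intro j hj
    rw [mem_filter, mem_Ico] at hj
    refine ⟨j - i0, ?_, by omega⟩
    rw [mem_filter, mem_range]
    refine ⟨by omega, ?_⟩
    have h2 := hj.2
    unfold OE at h2 ⊢
    rw [orbit_add, orbit_add, show i0 + (j - i0) = j by omega,
      show i0 + (j - i0 + 1) = j + 1 by omega]
    exact h2

theorem orbit_pos {n : ℕ} (hn : 0 < n) (i : ℕ) : 0 < orbit n i := by
  induction i with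
  | zero => exact hn
  | succ i ih =>
    rw [orbit_step]
    rcases Nat.mod_two_eq_zero_or_one (orbit n i) with h | h
    · have := conwayT_even h; omega
    · rcases conwayT_odd h with h1 | h1 <;> omega

theorem orbit_one (i : ℕ) : orbit 1 i = 1 := by
  induction i with
  | zero => rfl
  | succ i ih => rw [orbit_step, ih]; rfl

/-- From a periodic point `n ≥ 2` to the least element of its cycle. -/
theorem exists_cyc {n k : ℕ} (hn : 2 ≤ n) (hk : 0 < k) (hper : orbit n k = n) :
    ∃ i0 < k, Cyc (orbit n i0) k ∧ orbit (orbit n i0) (k - i0) = n := by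
  obtain ⟨i0, hi0, hmin, hper', hback⟩ := exists_min hk hper
  refine ⟨i0, hi0, ⟨hk, ?_, hper', hmin⟩, hback⟩
  have hpos := orbit_pos (show 0 < n by omega) i0
  by_contra hcon
  have h1 : orbit n i0 = 1 := by omega
  rw [h1, orbit_one] at hback
  omega

end Pool.Agent.helper94
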