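import Mathlib
import Pool.Agent.helper94.ConwayCycle

set_option autoImplicit false

/-!
# Cycles of Conway's permutation: explicit bounds
-/

namespace Pool.Agent.helper94

open Finset

theorem log_two_bounds : 0.6931 < Real.log 2 ∧ Real.log 2 < 0.6932 :=
  ⟨by have := Real.log_two_gt_d9; linarith, by have := Real.log_two_lt_d9; linarith⟩

/-- if `x^a ≤ 2^b` then `log x ≤ b log 2 / a` -/
theorem log_le_of_pow_le {x : ℝ} (hx : 0 < x) {a b : ℕ} (h : x ^ a ≤ 2 ^ b) :
    a * Real.log x ≤ b * Real.log 2 := by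
  have := Real.log_le_log (by positivity) h
  rwa [Real.log_pow, Real.log_pow] at this

theorem le_log_of_le_pow {x : ℝ} {a b : ℕ} (h : 2 ^ b ≤ x ^ a) :
    b * Real.log 2 ≤ a * Real.log x := by
  have := Real.log_le_log (by positivity) h
  rwa [Real.log_pow, Real.log_pow] at this

/-- The exponent `log 3 / log 2`. -/
noncomputable def theta : ℝ := Real.log 3 / Real.log 2

theorem theta_spec : Real.log 3 ≤ theta * Real.log 2 := by
  unfold theta
  rw [div_mul_cancel₀]
  exact (Real.log_pos (by norm_num)).ne'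

theorem pow317 : (3 : ℕ) ^ 200 ≤ 2 ^ 317 := by decide +kernel

theorem theta_bounds : 1.58 ≤ theta ∧ theta ≤ 1.585 := by
  have hl := log_two_bounds
  unfold theta
  constructor
  · rw [le_div_iff₀ (by linarith)]
    have := le_log_of_le_pow (x := 3) (a := 50) (b := 79) (by norm_num)
    push_cast at this
    linarith
  · rw [div_le_iff₀ (by linarith)]
    have := log_le_of_pow_le (x := 3) (by norm_num) (a := 200) (b := 317)
      (by exact_mod_cast pow317)
    push_cast at this
    linarith

theorem geo_mul (θ : ℝ) (r : ℕ) : geo θ r * (θ - 1) = θ ^ r - 1 := by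
  unfold geo
  exact geom_sum_mul θ r

theorem log43 : (0.2876 : ℝ) ≤ Real.log (4 / 3) := by
  -- (4/3)^241 ≥ 2^100
  have h1 : (100 : ℕ) * Real.log 2 ≤ (241 : ℕ) * Real.log (4 / 3) := by
    apply le_log_of_le_pow
    rw [div_pow, le_div_iff₀ (by positivity)]
    norm_num
  have hl := Real.log_two_gt_d9
  push_cast at h1
  linarith

/-- `log y ≤ y / c + log c - 1`. -/
theorem log_le_lin {y c : ℝ} (hy : 0 < y) (hc : 0 < c) :
    Real.log y ≤ y / c + Real.log c - 1 := by
  have h1 := Real.log_le_sub_one_of_pos (show 0 < y / c by positivity)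
  rw [Real.log_div hy.ne' hc.ne'] at h1
  linarith

/-- the least element is polynomially bounded in the length -/
theorem Cyc.min_poly {m k : ℕ} (h : Cyc m k) : m ≤ 10 ^ 25 * k ^ 24 := by
  have h1 := h.min_le
  have hM : (Nat.count (OE (orbit m)) k : ℝ) ≤ k := by
    exact_mod_cast Nat.count_le (OE (orbit m))
  have hk : (1 : ℝ) ≤ k := by exact_mod_cast h.hk
  have h2 : (m : ℝ) ≤ k * (235 * (9 * (k : ℝ)) ^ 23) + 1 := by
    have : (Nat.count (OE (orbit m)) k : ℝ) * (235 * (9 * (k : ℝ)) ^ 23) ≤
        k * (235 * (9 * (k : ℝ)) ^ 23) := by gcongr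
    linarith
  have h3 : (1 : ℝ) ≤ (k : ℝ) ^ 24 := one_le_pow₀ hk
  have h4 : k * (235 * (9 * (k : ℝ)) ^ 23) + 1 ≤ 10 ^ 25 * (k : ℝ) ^ 24 := by
    have : k * (235 * (9 * (k : ℝ)) ^ 23) = (235 * 9 ^ 23) * (k : ℝ) ^ 24 := by ring
    rw [this]
    nlinarith
  exact_mod_cast h2.trans h4

/-- lower bound for the number of even terms: `E log 2 = k log (4/3) + Λ`. -/
theorem Cyc.even_lower {m k : ℕ} (h : Cyc m k) :
    (k : ℝ) * Real.log (4 / 3) -
      (Nat.count (OE (orbit m)) k : ℝ) / ((m : ℝ) - 1) ≤
      (Nat.count (fun j => orbit m j % 2 = 0) k : ℝ) * Real.log 2 := by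
  have h1 := h.lam_le
  have h2 : ((Nat.count (fun j => orbit m j % 2 = 0) k : ℝ) +
      (Nat.count (fun j => orbit m j % 2 = 1) k : ℝ)) = k := by
    exact_mod_cast (Cyc.count_add (m := m) (k := k))
  have h3 := neg_le_of_abs_le h1
  have h4 : Real.log 2 = Real.log (3 / 2) + Real.log (4 / 3) := by
    rw [← Real.log_mul (by norm_num) (by norm_num)]
    norm_num
  rw [h4]
  have h5 : (Nat.count (fun j => orbit m j % 2 = 1) k : ℝ) =
      k - (Nat.count (fun j => orbit m j % 2 = 0) k : ℝ) := by linarith
  rw [h5] at h3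
  linarith

/-- The length is bounded in terms of the number of blocks of even numbers. -/
theorem Cyc.length_le {m k : ℕ} (h : Cyc m k) :
    (k : ℝ) ≤ 5000 * (Nat.count (OE (orbit m)) k : ℝ) * theta ^ (Nat.count (OE (orbit m)) k) := by
  have hl := log_two_bounds
  have hθ := theta_bounds
  have he := h.even_le theta_spec
  have hmin := h.min_le
  have hlow := h.even_lower
  have hOE := h.count_OE_le
  have hMpos := h.count_OE_pos
  have hkpos := h.hk
  have hm2 := h.hm
  set M : ℕ := Nat.count (OE (orbit m)) k with hM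
  set E : ℕ := Nat.count (fun j => orbit m j % 2 = 0) k with hE
  have hMR : (1 : ℝ) ≤ M := by exact_mod_cast hMpos
  have hkR : (1 : ℝ) ≤ k := by exact_mod_cast hkpos
  have hmR : (2 : ℝ) ≤ m := by exact_mod_cast hm2
  have hEM : (M : ℝ) ≤ E := by exact_mod_cast hOE
  have hL0 : 0 ≤ Real.log (m : ℝ) := Real.log_nonneg (by linarith)
  -- k ≤ 7 E
  have h7 : (k : ℝ) ≤ 7 * E := by
    have h1 : (M : ℝ) / ((m : ℝ) - 1) ≤ M := by
      rw [div_le_iff₀ (by linarith)]
      nlinarith
    have h2 := log43
    have h3 : (k : ℝ) * 0.2876 ≤ k * Real.log (4 / 3) := by gcongr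
    have h4 : (E : ℝ) * Real.log 2 ≤ E * 0.6932 := by gcongr; exact hl.2.le
    linarith
  -- main inequality
  have hθM : (1 : ℝ) ≤ theta ^ M := one_le_pow₀ (by linarith)
  have hgeo : geo theta M * 0.58 ≤ theta ^ M := by
    have h1 := geo_mul theta M
    have h2 : 0 ≤ geo theta M := by
      unfold geo; apply sum_nonneg; intro i _; apply pow_nonneg; linarith
    nlinarith
  have hmain : (k : ℝ) * 0.4 ≤ 7 * theta ^ M * Real.log m := by
    have h1 : (E : ℝ) * Real.log 2 * 0.58 ≤ theta ^ M * Real.log m := by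
      calc (E : ℝ) * Real.log 2 * 0.58 ≤ geo theta M * Real.log m * 0.58 := by gcongr
        _ = (geo theta M * 0.58) * Real.log m := by ring
        _ ≤ _ := by gcongr
    have h2 : (E : ℝ) * 0.6931 ≤ E * Real.log 2 := by gcongr; exact hl.1.le
    have h3 : (0 : ℝ) ≤ E := by positivity
    nlinarith
  -- upper bound for log m
  have hlogm : Real.log (m : ℝ) ≤ Real.log 236 + Real.log M + 23 * (Real.log 9 + Real.log k) := by
    have h1 : (m : ℝ) ≤ 236 * M * (9 * (k : ℝ)) ^ 23 := by
      have h2 : (1 : ℝ) ≤ (M : ℝ) * (9 * (k : ℝ)) ^ 23 := by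
        have : (1 : ℝ) ≤ (9 * (k : ℝ)) ^ 23 := one_le_pow₀ (by linarith)
        nlinarith
      nlinarith
    have h3 := Real.log_le_log (by linarith) h1
    rw [Real.log_mul (by positivity) (by positivity), Real.log_mul (by norm_num) (by positivity),
      Real.log_pow, Real.log_mul (by norm_num) (by positivity)] at h3
    push_cast at h3
    exact h3
  -- write y = k / θ^M
  set y : ℝ := k / theta ^ M with hy
  have hypos : 0 < y := by positivity
  have hky : (k : ℝ) = y * theta ^ M := by rw [hy]; field_simp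
  have hlogk : Real.log (k : ℝ) = Real.log y + M * Real.log theta := by
    rw [hky, Real.log_mul hypos.ne' (by positivity), Real.log_pow]
  have hlogθ : Real.log theta ≤ 0.6 := by
    have := Real.log_le_sub_one_of_pos (show 0 < theta by linarith)
    linarith
  have hlogM : Real.log (M : ℝ) ≤ M - 1 := Real.log_le_sub_one_of_pos (by linarith)
  have hlog236 : Real.log 236 ≤ 5.48 := by
    have := log_le_of_pow_le (x := 236) (by norm_num) (a := 10) (b := 79) (by norm_num)
    push_cast at this
    linarith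
  have hlog9 : Real.log 9 ≤ 2.22 := by
    have := log_le_of_pow_le (x := 9) (by norm_num) (a := 20) (b := 64) (by norm_num)
    push_cast at this
    linarith
  have hlog5000 : Real.log 5000 ≤ 8.53 := by
    have := log_le_of_pow_le (x := 5000) (by norm_num) (a := 10) (b := 123) (by norm_num)
    push_cast at this
    linarith
  have hlogy := log_le_lin hypos (show (0 : ℝ) < 5000 by norm_num)
  have hMθ : (M : ℝ) * Real.log theta ≤ M * 0.6 := by gcongr
  have h8 : y * 0.4 ≤ 7 * Real.log m := by
    have h9 : (y * 0.4) * theta ^ M ≤ (7 * Real.log m) * theta ^ M := by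
      calc (y * 0.4) * theta ^ M = (y * theta ^ M) * 0.4 := by ring
        _ = k * 0.4 := by rw [← hky]
        _ ≤ 7 * theta ^ M * Real.log m := hmain
        _ = _ := by ring
    exact le_of_mul_le_mul_right h9 (by positivity)
  have h10 : y ≤ 5000 * M := by
    rw [hlogk] at hlogm
    linarith
  calc (k : ℝ) = y * theta ^ M := hky
    _ ≤ 5000 * M * theta ^ M := by gcongr

/-- With at most 11 blocks the least element is small. -/
theorem Cyc.min_small {m k : ℕ} (h : Cyc m k) (hM11 : Nat.count (OE (orbit m)) k ≤ 11) :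
    m ≤ 252900 := by
  by_contra hbig
  push Not at hbig
  have hl := log_two_bounds
  have hθ := theta_bounds
  have he := h.even_le theta_spec
  have hmin := h.min_le
  have hlow := h.even_lower
  have hlam := h.lam_le
  have hcount := (Cyc.count_add (m := m) (k := k))
  have hkpos := h.hk
  set M : ℕ := Nat.count (OE (orbit m)) k with hM
  set E : ℕ := Nat.count (fun j => orbit m j % 2 = 0) k with hE
  set O : ℕ := Nat.count (fun j => orbit m j % 2 = 1) k with hO
  have hMR : (M : ℝ) ≤ 11 := by exact_mod_cast hM11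
  have hmR : (252900 : ℝ) < m := by exact_mod_cast hbig
  have hL0 : 0 ≤ Real.log (m : ℝ) := Real.log_nonneg (by linarith)
  have hfrac : (M : ℝ) / ((m : ℝ) - 1) ≤ 11 / ((m : ℝ) - 1) := by
    apply div_le_div_of_nonneg_right hMR; linarith
  have hfrac2 : 11 / ((m : ℝ) - 1) < 4.35e-5 := by
    rw [div_lt_iff₀ (by linarith)]
    linarith
  -- first range
  rcases Nat.lt_or_ge k 15601 with hk1 | hk1
  · have h1 := lam_lower1 (e := E) (o := O) (by omega) (by omega)
    linarith
  -- lower bound for log m
  have hgeo : geo theta M ≤ 269.5 := by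
    have h1 : geo theta M ≤ geo 1.585 11 := by
      unfold geo
      calc ∑ s ∈ range M, theta ^ s ≤ ∑ s ∈ range M, (1.585 : ℝ) ^ s := by
            apply sum_le_sum; intro i _
            apply pow_le_pow_left₀ (by linarith) hθ.2
        _ ≤ ∑ s ∈ range 11, (1.585 : ℝ) ^ s := by
            apply sum_le_sum_of_subset_of_nonneg
            · intro i hi; rw [mem_range] at hi ⊢; omega
            · intro i _ _; positivity
    refine h1.trans ?_
    unfold geo
    norm_num [sum_range_succ]
  have hlogm : (k : ℝ) * 0.2876 - 1 ≤ 269.5 * Real.log m := by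
    have h2 : (k : ℝ) * 0.2876 ≤ k * Real.log (4 / 3) := by
      have := log43
      gcongr
    have h3 : geo theta M * Real.log m ≤ 269.5 * Real.log m := by gcongr
    linarith
  have hk1R : (15601 : ℝ) ≤ k := by exact_mod_cast hk1
  -- second range
  rcases Nat.lt_or_ge k 190537 with hk2 | hk2
  · have h1 := lam_lower2 (e := E) (o := O) (by omega) (by omega)
    have h2 : (2 : ℝ) ^ 22 < m := by
      have h3 : Real.log ((2 : ℝ) ^ 22) < Real.log m := by
        rw [Real.log_pow]
        push_cast
        linarith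
      exact (Real.log_lt_log_iff (by positivity) (by linarith)).mp h3
    have h2' : (4194304 : ℝ) < m := by
      rw [show (4194304 : ℝ) = 2 ^ 22 by norm_num]; exact h2
    have h4 : 11 / ((m : ℝ) - 1) < 3.59e-6 := by
      rw [div_lt_iff₀ (by linarith)]
      linarith
    linarith
  have hk2R : (190537 : ℝ) ≤ k := by exact_mod_cast hk2
  -- third range
  rcases Nat.lt_or_ge k 492276 with hk3 | hk3
  · have h1 := lam_lower3 (e := E) (o := O) (by omega) (by omega)
    have h2 : (2 : ℝ) ^ 28 < m := by
      have h3 : Real.log ((2 : ℝ) ^ 28) < Real.log m := by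
        rw [Real.log_pow]
        push_cast
        linarith
      exact (Real.log_lt_log_iff (by positivity) (by linarith)).mp h3
    have h2' : (268435456 : ℝ) < m := by
      rw [show (268435456 : ℝ) = 2 ^ 28 by norm_num]; exact h2
    have h4 : 11 / ((m : ℝ) - 1) < 6.3e-8 := by
      rw [div_lt_iff₀ (by linarith)]
      linarith
    linarith
  -- last range
  have hk3R : (492276 : ℝ) ≤ k := by exact_mod_cast hk3
  have h1 : (m : ℝ) ≤ 2586 * (9 * (k : ℝ)) ^ 23 := by
    have h2 : (1 : ℝ) ≤ (9 * (k : ℝ)) ^ 23 := one_le_pow₀ (by linarith)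
    have h3 : (M : ℝ) * (235 * (9 * (k : ℝ)) ^ 23) ≤ 11 * (235 * (9 * (k : ℝ)) ^ 23) := by
      gcongr
    linarith
  have h4 := Real.log_le_log (by linarith) h1
  rw [Real.log_mul (by norm_num) (by positivity), Real.log_pow] at h4
  push_cast at h4
  have h5 : Real.log 2586 ≤ 12 * Real.log 2 := by
    have := log_le_of_pow_le (x := 2586) (by norm_num) (a := 1) (b := 12) (by norm_num)
    push_cast at this
    linarith
  have h6 := log_le_lin (show (0 : ℝ) < 9 * k by positivity) (show (0 : ℝ) < 2 ^ 22 by norm_num)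
  rw [Real.log_pow] at h6
  push_cast at h6
  have h7 : 9 * (k : ℝ) / 2 ^ 22 = k * (9 / 2 ^ 22) := by ring
  rw [h7] at h6
  norm_num at h6
  linarith

end Pool.Agent.helper94
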