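import Pool.Agent.helper94.ConwayCheck

set_option autoImplicit false
set_option maxRecDepth 100000

/-! # Kernel computations for the search (part A) -/

namespace Pool.Agent.helper94

theorem chkR_small : chkRange 11 200 19 6 = true := by decide +kernel

theorem chkR_0 : chkRange 11 200 5000 46 = true := by decide +kernel

theorem chkR_1 : chkRange 11 200 5000 10046 = true := by decide +kernel

theorem chkR_2 : chkRange 11 200 5000 20046 = true := by decide +kernel

theorem chkR_3 : chkRange 11 200 5000 30046 = true := by decide +kernel

theorem chkR_4 : chkRange 11 200 5000 40046 = true := by decide +kernel

theorem chkR_5 : chkRange 11 200 5000 50046 = true := by decide +kernel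

theorem chkR_6 : chkRange 11 200 5000 60046 = true := by decide +kernel

theorem chkR_7 : chkRange 11 200 5000 70046 = true := by decide +kernel

theorem chkR_8 : chkRange 11 200 5000 80046 = true := by decide +kernel

end Pool.Agent.helper94
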