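import Pool.Agent.helper94.ConwayCheck

set_option autoImplicit false
set_option maxRecDepth 100000

/-! # Kernel computations for the search (part B) -/

namespace Pool.Agent.helper94

theorem chkR_9 : chkRange 11 200 5000 90046 = true := by decide +kernel

theorem chkR_10 : chkRange 11 200 5000 100046 = true := by decide +kernel

theorem chkR_11 : chkRange 11 200 5000 110046 = true := by decide +kernel

theorem chkR_12 : chkRange 11 200 5000 120046 = true := by decide +kernel

theorem chkR_13 : chkRange 11 200 5000 130046 = true := by decide +kernel

theorem chkR_14 : chkRange 11 200 5000 140046 = true := by decide +kernel

theorem chkR_15 : chkRange 11 200 5000 150046 = true := by decide +kernel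

theorem chkR_16 : chkRange 11 200 5000 160046 = true := by decide +kernel

theorem chkR_17 : chkRange 11 200 5000 170046 = true := by decide +kernel

end Pool.Agent.helper94
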