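import Pool.Agent.helper94.ConwayCheck

set_option autoImplicit false
set_option maxRecDepth 100000

/-! # Kernel computations for the search (part C) -/

namespace Pool.Agent.helper94

theorem chkR_18 : chkRange 11 200 5000 180046 = true := by decide +kernel

theorem chkR_19 : chkRange 11 200 5000 190046 = true := by decide +kernel

theorem chkR_20 : chkRange 11 200 5000 200046 = true := by decide +kernel

theorem chkR_21 : chkRange 11 200 5000 210046 = true := by decide +kernel

theorem chkR_22 : chkRange 11 200 5000 220046 = true := by decide +kernel

theorem chkR_23 : chkRange 11 200 5000 230046 = true := by decide +kernel

theorem chkR_24 : chkRange 11 200 5000 240046 = true := by decide +kernel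

theorem chkR_25 : chkRange 11 200 5000 250046 = true := by decide +kernel

end Pool.Agent.helper94
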