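import Mathlib
import Pool.Agent.helper94.ConwayBounds
import Pool.Agent.helper94.ConwayRangeA
import Pool.Agent.helper94.ConwayRangeB
import Pool.Agent.helper94.ConwayRangeC

set_option autoImplicit false

/-!
# Cycles of Conway's permutation with at most eleven blocks of even numbers
-/

namespace Pool.Agent.helper94

open Finset

/-- the least element of a cycle with few blocks -/
theorem Cyc.min_known {m k : ℕ} (h : Cyc m k) (hM : Nat.count (OE (orbit m)) k ≤ 11) :
    m = 2 ∨ m = 4 ∨ m = 44 := by
  have h1 := h.min_small hM
  have he := h.even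
  have h2 := h.hm
  have hs := not_in_range h hM (by norm_num) chkR_small
  have r0 := not_in_range h hM (by norm_num) chkR_0
  have r1 := not_in_range h hM (by norm_num) chkR_1
  have r2 := not_in_range h hM (by norm_num) chkR_2
  have r3 := not_in_range h hM (by norm_num) chkR_3
  have r4 := not_in_range h hM (by norm_num) chkR_4
  have r5 := not_in_range h hM (by norm_num) chkR_5
  have r6 := not_in_range h hM (by norm_num) chkR_6
  have r7 := not_in_range h hM (by norm_num) chkR_7
  have r8 := not_in_range h hM (by norm_num) chkR_8
  have r9 := not_in_range h hM (by norm_num) chkR_9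
  have r10 := not_in_range h hM (by norm_num) chkR_10
  have r11 := not_in_range h hM (by norm_num) chkR_11
  have r12 := not_in_range h hM (by norm_num) chkR_12
  have r13 := not_in_range h hM (by norm_num) chkR_13
  have r14 := not_in_range h hM (by norm_num) chkR_14
  have r15 := not_in_range h hM (by norm_num) chkR_15
  have r16 := not_in_range h hM (by norm_num) chkR_16
  have r17 := not_in_range h hM (by norm_num) chkR_17
  have r18 := not_in_range h hM (by norm_num) chkR_18
  have r19 := not_in_range h hM (by norm_num) chkR_19
  have r20 := not_in_range h hM (by norm_num) chkR_20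
  have r21 := not_in_range h hM (by norm_num) chkR_21
  have r22 := not_in_range h hM (by norm_num) chkR_22
  have r23 := not_in_range h hM (by norm_num) chkR_23
  have r24 := not_in_range h hM (by norm_num) chkR_24
  have r25 := not_in_range h hM (by norm_num) chkR_25
  omega

/-- the members of the known cycles -/
def known : Finset ℕ := {1, 2, 3, 4, 6, 9, 7, 5, 44, 66, 99, 74, 111, 83, 62, 93, 70, 105, 79, 59}

theorem known_closed : ∀ x ∈ known, conwayT x ∈ known := by decide

theorem orbit_known {x : ℕ} (hx : x ∈ known) (i : ℕ) : orbit x i ∈ known := by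
  induction i with
  | zero => exact hx
  | succ i ih => rw [orbit_step]; exact known_closed _ ih

theorem few_blocks {n k : ℕ} (hn : 0 < n) (hk : 0 < k) (hper : orbit n k = n)
    (hM : Nat.count (OE (orbit n)) k ≤ 11) : n ∈ known := by
  rcases Nat.lt_or_ge n 2 with h | h
  · have : n = 1 := by omega
    rw [this]; decide
  · obtain ⟨i0, _, hcyc, hback⟩ := exists_cyc h hk hper
    have hM' : Nat.count (OE (orbit (orbit n i0))) k ≤ 11 := by
      rw [count_shift hper]; exact hM
    have h1 := hcyc.min_known hM'
    have h2 : orbit n i0 ∈ known := by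
      rcases h1 with h1 | h1 | h1 <;> rw [h1] <;> decide
    rw [← hback]
    exact orbit_known h2 _

theorem length_vs_blocks {n k : ℕ} (hn : 2 ≤ n) (hk : 0 < k) (hper : orbit n k = n) :
    (k : ℝ) ≤ 5000 * (Nat.count (OE (orbit n)) k) * theta ^ (Nat.count (OE (orbit n)) k) := by
  obtain ⟨i0, _, hcyc, _⟩ := exists_cyc hn hk hper
  have h := hcyc.length_le
  rw [count_shift hper] at h
  exact h

theorem least_element {n k : ℕ} (hn : 0 < n) (hk : 0 < k) (hper : orbit n k = n) :
    ∃ i < k, orbit n i ≤ 10 ^ 25 * k ^ 24 := by
  rcases Nat.lt_or_ge n 2 with h | h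
  · have : n = 1 := by omega
    subst this
    refine ⟨0, hk, ?_⟩
    rw [orbit_one]
    exact Nat.succ_le_of_lt (by positivity)
  · obtain ⟨i0, hi0, hcyc, _⟩ := exists_cyc h hk hper
    exact ⟨i0, hi0, hcyc.min_poly⟩

end Pool.Agent.helper94
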