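import Mathlib
import Pool.Agent.helper94.ConwayCycle

set_option autoImplicit false

/-!
# A kernel-friendly search for cycles of Conway's permutation with few blocks of even numbers
-/

namespace Pool.Agent.helper94

open Finset

/-- Apply a function to a number, forcing the evaluation of the number first. -/
@[reducible] def frc (x : ℕ) (f : ℕ → Bool) : Bool :=
  Nat.rec (motive := fun _ => Bool) (f 0) (fun p _ => f (Nat.succ p)) x

theorem frc_eq (x : ℕ) (f : ℕ → Bool) : frc x f = f x := by
  cases x <;> rfl

/-- `orbCheck n fuel r x o` follows the orbit of `x` for at most `fuel` steps. It returns `true` if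
the orbit goes below `n`, or if it starts more than `r` further blocks of even numbers before
coming back to `n`; `o` records whether the previous term is odd. -/
def orbCheck (n : ℕ) (fuel : ℕ) : ℕ → ℕ → Bool → Bool :=
  Nat.rec (motive := fun _ => ℕ → ℕ → Bool → Bool)
    (fun _ _ _ => false)
    (fun _ ih => fun r x o =>
      Bool.rec
        (Nat.rec (motive := fun _ => Bool)
          (Bool.rec
            (frc (Nat.mul 3 (Nat.div x 2)) (fun y => ih r y false))
            (Nat.rec (motive := fun _ => Bool) true
              (fun r' _ => frc (Nat.mul 3 (Nat.div x 2)) (fun y => ih r' y false)) r) o)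
          (fun _ _ => frc (Nat.div (Nat.add (Nat.mul 3 x) 2) 4) (fun y => ih r y true))
          (Nat.mod x 2))
        (Nat.blt x n)
        (Nat.ble x n))
    fuel

theorem orbCheck_succ (n fuel r x : ℕ) (o : Bool) : orbCheck n (fuel + 1) r x o =
    Bool.rec
        (Nat.rec (motive := fun _ => Bool)
          (Bool.rec
            (frc (Nat.mul 3 (Nat.div x 2)) (fun y => orbCheck n fuel r y false))
            (Nat.rec (motive := fun _ => Bool) true
              (fun r' _ => frc (Nat.mul 3 (Nat.div x 2)) (fun y => orbCheck n fuel r' y false)) r)
              o)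
          (fun _ _ => frc (Nat.div (Nat.add (Nat.mul 3 x) 2) 4) (fun y => orbCheck n fuel r y true))
          (Nat.mod x 2))
        (Nat.blt x n)
        (Nat.ble x n) := rfl

/-- the orbit of the least element of a cycle with few blocks does not pass the test -/
theorem orbCheck_false {m k : ℕ} (h : Cyc m k) (fuel : ℕ) : ∀ r i, i + 1 ≤ k →
    ((Ico i (k - 1)).filter (OE (orbit m))).card ≤ r →
    orbCheck m fuel r (orbit m (i + 1)) (decide (orbit m i % 2 = 1)) = false := by
  induction fuel with
  | zero => intro r i _ _; rfl
  | succ fuel ih =>
    intro r i hi hr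
    have hmin := h.hmin (i + 1)
    rw [orbCheck_succ]
    rcases Nat.lt_or_ge m (orbit m (i + 1)) with hlt | hge
    · -- not yet back at m
      have hble : Nat.ble (orbit m (i + 1)) m = false := by
        cases hb : Nat.ble (orbit m (i + 1)) m with
        | false => rfl
        | true => exact absurd (Nat.le_of_ble_eq_true hb) (by omega)
      rw [hble]
      have hne : i + 1 ≠ k := by
        intro he
        rw [he, h.hper] at hlt
        omega
      have hi2 : i + 1 + 1 ≤ k := by omega
      have hIco : Ico i (k - 1) = insert i (Ico (i + 1) (k - 1)) := by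
        ext j; simp only [mem_insert, mem_Ico]; omega
      have hnot : i ∉ (Ico (i + 1) (k - 1)).filter (OE (orbit m)) := by
        simp
      rcases Nat.mod_two_eq_zero_or_one (orbit m (i + 1)) with he | ho
      · -- even
        have hmod : Nat.mod (orbit m (i + 1)) 2 = 0 := he
        rw [hmod]
        have hnext : Nat.mul 3 (Nat.div (orbit m (i + 1)) 2) = orbit m (i + 1 + 1) := by
          have h1 := conwayT_even he
          rw [← orbit_step] at h1
          change 3 * (orbit m (i + 1) / 2) = orbit m (i + 1 + 1)
          omega
        have hdec : decide (orbit m (i + 1) % 2 = 1) = false := by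
          rw [decide_eq_false_iff_not]; omega
        rcases Nat.mod_two_eq_zero_or_one (orbit m i) with he' | ho'
        · have hdec' : decide (orbit m i % 2 = 1) = false := by
            rw [decide_eq_false_iff_not]; omega
          rw [hdec']
          simp only [frc_eq, hnext]
          have h9 := ih r (i + 1) hi2 (by
            refine le_trans (card_le_card ?_) hr
            rw [hIco]
            exact filter_subset_filter _ (subset_insert _ _))
          rw [hdec] at h9
          exact h9
        · have hdec' : decide (orbit m i % 2 = 1) = true := by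
            rw [decide_eq_true_iff]; exact ho'
          rw [hdec']
          have hOE : OE (orbit m) i := ⟨ho', he⟩
          rw [hIco, filter_insert, if_pos hOE, card_insert_of_notMem hnot] at hr
          obtain ⟨r', rfl⟩ : ∃ r', r = r' + 1 := ⟨r - 1, by omega⟩
          simp only [frc_eq, hnext]
          have h9 := ih r' (i + 1) hi2 (by omega)
          rw [hdec] at h9
          exact h9
      · -- odd
        have hmod : Nat.mod (orbit m (i + 1)) 2 = 1 := ho
        rw [hmod]
        have hnext : Nat.div (Nat.add (Nat.mul 3 (orbit m (i + 1))) 2) 4 =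
            orbit m (i + 1 + 1) := by
          have h1 := conwayT_odd ho
          rw [← orbit_step] at h1
          change (3 * orbit m (i + 1) + 2) / 4 = orbit m (i + 1 + 1)
          omega
        have hdec : decide (orbit m (i + 1) % 2 = 1) = true := by
          rw [decide_eq_true_iff]; exact ho
        simp only [frc_eq, hnext]
        have h9 := ih r (i + 1) hi2 (by
          refine le_trans (card_le_card ?_) hr
          rw [hIco]
          exact filter_subset_filter _ (subset_insert _ _))
        rw [hdec] at h9
        exact h9
    · have heq : orbit m (i + 1) = m := le_antisymm hge hmin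
      rw [heq]
      have h1 : Nat.ble m m = true := Nat.ble_self_eq_true m
      have h2 : Nat.blt m m = false := by
        cases hb : Nat.blt m m with
        | false => rfl
        | true => exact absurd (Nat.blt_eq.mp hb) (lt_irrefl m)
      rw [h1, h2]

/-- The test for one starting value. -/
def chk (M fuel n : ℕ) : Bool := orbCheck n fuel (Nat.pred M) (Nat.mul 3 (Nat.div n 2)) false

theorem chk_false {m k M fuel : ℕ} (h : Cyc m k)
    (hM : Nat.count (OE (orbit m)) k ≤ M) : chk M fuel m = false := by
  have h1 : orbit m (0 + 1) = Nat.mul 3 (Nat.div m 2) := by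
    have h2 := conwayT_even h.even
    rw [orbit_step, orbit_zero]
    change conwayT m = 3 * (m / 2)
    omega
  have h3 : decide (orbit m 0 % 2 = 1) = false := by
    rw [decide_eq_false_iff_not, orbit_zero]
    have := h.even
    omega
  unfold chk
  rw [← h1]
  have h8 : ∀ r, ((Ico 0 (k - 1)).filter (OE (orbit m))).card ≤ r →
      orbCheck m fuel r (orbit m (0 + 1)) false = false := by
    intro r hr
    have h9 := orbCheck_false h fuel r 0 h.hk hr
    rw [h3] at h9
    exact h9
  apply h8
  obtain ⟨k', hk'⟩ : ∃ k', k = k' + 1 := ⟨k - 1, by have := h.hk; omega⟩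
  have h5 : OE (orbit m) k' := by
    refine ⟨h.last_odd hk', ?_⟩
    rw [← hk', h.hper]; exact h.even
  rw [hk', Nat.count_succ, if_pos h5, Nat.count_eq_card_filter_range] at hM
  rw [hk', Nat.add_sub_cancel, ← Finset.range_eq_Ico, Nat.pred_eq_sub_one]
  refine le_trans (le_of_eq ?_) (Nat.le_sub_of_add_le hM)
  congr!

/-- The test for a range of even starting values not divisible by `3`. -/
def chkRange (M fuel c : ℕ) : ℕ → Bool :=
  Nat.rec (motive := fun _ => ℕ → Bool) (fun _ => true)
   (fun _ ih => fun n => Bool.rec false (frc (Nat.add n 2) ih)
      (Bool.rec (chk M fuel n) true (Nat.beq (Nat.mod n 3) 0))) c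

theorem chkRange_succ (M fuel c n : ℕ) : chkRange M fuel (c + 1) n =
    Bool.rec false (frc (Nat.add n 2) (chkRange M fuel c))
      (Bool.rec (chk M fuel n) true (Nat.beq (Nat.mod n 3) 0)) := rfl

theorem chkRange_sound {M fuel c : ℕ} : ∀ n, chkRange M fuel c n = true →
    ∀ m, n ≤ m → m < n + 2 * c → m % 2 = n % 2 → m % 3 ≠ 0 → chk M fuel m = true := by
  induction c with
  | zero => intro n _ m h1 h2; omega
  | succ c ih =>
    intro n h m h1 h2 h3 h4
    rw [chkRange_succ] at h
    cases hb : (Bool.rec (chk M fuel n) true (Nat.beq (Nat.mod n 3) 0) : Bool) with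
    | false => rw [hb] at h; exact absurd h (by simp)
    | true =>
      rw [hb] at h
      simp only at h
      rw [frc_eq] at h
      rcases Nat.eq_or_lt_of_le h1 with h5 | h5
      · subst h5
        have h6 : Nat.beq (Nat.mod n 3) 0 = false := by
          cases hc : Nat.beq (Nat.mod n 3) 0 with
          | false => rfl
          | true => exact absurd (Nat.eq_of_beq_eq_true hc) h4
        rw [h6] at hb
        exact hb
      · exact ih (n + 2) h m (by omega) (by omega) (by omega) h4

theorem Cyc.mod_three {m k : ℕ} (h : Cyc m k) : m % 3 ≠ 0 := by
  obtain ⟨k', hk'⟩ : ∃ k', k = k' + 1 := ⟨k - 1, by have := h.hk; omega⟩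
  have h1 := h.last_odd hk'
  have h2 := h.hper
  rw [hk', orbit_step] at h2
  rcases conwayT_odd h1 with h3 | h3 <;> omega

/-- no cycle with at most `M` blocks has its least element in a checked range -/
theorem not_in_range {m k M fuel c n : ℕ} (h : Cyc m k)
    (hM : Nat.count (OE (orbit m)) k ≤ M) (hn : n % 2 = 0) (hr : chkRange M fuel c n = true) :
    m < n ∨ n + 2 * c ≤ m := by
  by_contra hcon
  push Not at hcon
  have h1 := chkRange_sound n hr m hcon.1 hcon.2 (by have := h.even; omega) h.mod_three
  rw [chk_false h hM] at h1
  exact absurd h1 (by simp)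

end Pool.Agent.helper94
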